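import Mathlib

/-! Resultant estimates against the Mahler measure. -/

set_option autoImplicit false

open Polynomial

namespace Pool.Agent.Lib.MP_7ab245_nt

/-- Mahler measure of an integer polynomial. -/
noncomputable abbrev MM (f : ℤ[X]) : ℝ := (f.map (Int.castRingHom ℂ)).mahlerMeasure

/-- sum of absolute values of coefficients -/
noncomputable def l1 (F : ℤ[X]) : ℝ := ∑ i ∈ F.support, |(F.coeff i : ℝ)|

lemma l1_nonneg (F : ℤ[X]) : 0 ≤ l1 F := Finset.sum_nonneg fun _ _ => abs_nonneg _

lemma norm_eval_le (F : ℤ[X]) (E : ℕ) (hE : F.natDegree ≤ E) (z : ℂ) :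
    ‖(F.map (Int.castRingHom ℂ)).eval z‖ ≤ l1 F * (max 1 ‖z‖) ^ E := by
  rw [eval_map, eval₂_eq_sum, Polynomial.sum_def, l1, Finset.sum_mul]
  refine (norm_sum_le _ _).trans (Finset.sum_le_sum fun i hi => ?_)
  rw [norm_mul, norm_pow]
  have h1 : ‖(Int.castRingHom ℂ) (F.coeff i)‖ = |(F.coeff i : ℝ)| := by
    simp
  rw [h1]
  have hiE : i ≤ E := (le_natDegree_of_mem_supp i hi).trans hE
  have h2 : ‖z‖ ^ i ≤ (max 1 ‖z‖) ^ E := by
    calc ‖z‖ ^ i ≤ (max 1 ‖z‖) ^ i := by gcongr; exact le_max_right _ _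
      _ ≤ (max 1 ‖z‖) ^ E := pow_le_pow_right₀ (le_max_left _ _) hiE
  gcongr

lemma abs_resultant_le (g F : ℤ[X]) (E : ℕ) (hE : F.natDegree ≤ E) :
    |((resultant g F g.natDegree E : ℤ) : ℝ)| ≤ l1 F ^ g.natDegree * MM g ^ E := by
  set φ := Int.castRingHom ℂ with hφ
  have hinj : Function.Injective φ := φ.injective_int
  have hdeg : (g.map φ).natDegree = g.natDegree := natDegree_map_eq_of_injective hinj g
  have hFdeg : (F.map φ).natDegree ≤ E := by
    rwa [natDegree_map_eq_of_injective hinj]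
  have hs : (g.map φ).Splits := IsAlgClosed.splits _
  have key := resultant_eq_prod_eval (g.map φ) (F.map φ) E hFdeg hs
  rw [hdeg, resultant_map_map] at key
  have h1 : |((resultant g F g.natDegree E : ℤ) : ℝ)| = ‖φ (resultant g F g.natDegree E)‖ := by
    simp [hφ]
  rw [h1, key, norm_mul, norm_pow]
  have hcard : (g.map φ).roots.card = g.natDegree := by
    rw [← hdeg]; exact (splits_iff_card_roots.mp hs)
  have h2 : ‖(Multiset.map (fun x => eval x (F.map φ)) (g.map φ).roots).prod‖ ≤
      l1 F ^ g.natDegree * ((g.map φ).roots.map (fun a => max 1 ‖a‖)).prod ^ E := by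
    rw [← hcard]
    generalize (g.map φ).roots = s
    induction s using Multiset.induction_on with
    | empty => simp
    | cons a s ih =>
      rw [Multiset.map_cons, Multiset.prod_cons, norm_mul, Multiset.card_cons,
        Multiset.map_cons, Multiset.prod_cons, mul_pow, pow_succ']
      have h3 := norm_eval_le F E hE a
      calc ‖eval a (F.map φ)‖ * ‖(Multiset.map (fun x => eval x (F.map φ)) s).prod‖
          ≤ (l1 F * (max 1 ‖a‖) ^ E) *
            (l1 F ^ s.card * ((s.map (fun a => max 1 ‖a‖)).prod ^ E)) := by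
            apply mul_le_mul h3 ih (norm_nonneg _)
            have := l1_nonneg F
            positivity
        _ = _ := by ring
  have h4 : MM g = ‖(g.map φ).leadingCoeff‖ * ((g.map φ).roots.map (fun a => max 1 ‖a‖)).prod :=
    mahlerMeasure_eq_leadingCoeff_mul_prod_roots _
  rw [h4, mul_pow]
  calc ‖(g.map φ).leadingCoeff‖ ^ E * ‖(Multiset.map (fun x => eval x (F.map φ)) (g.map φ).roots).prod‖
      ≤ ‖(g.map φ).leadingCoeff‖ ^ E * (l1 F ^ g.natDegree * ((g.map φ).roots.map (fun a => max 1 ‖a‖)).prod ^ E) := by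
        gcongr
    _ = _ := by ring

/-- If `F ≡ M * A (mod g)`, `g` monic, then `M ^ deg g` divides the resultant. -/
lemma pow_dvd_resultant (g F A Q : ℤ[X]) (hg : g.Monic) (M : ℤ) (h : F = C M * A + g * Q)
    (E : ℕ) (hE : F.natDegree ≤ E) (hE' : g.natDegree ≤ E) :
    M ^ g.natDegree ∣ resultant g F g.natDegree E := by
  set A' := A %ₘ g
  set Q' := Q + C M * (A /ₘ g)
  have hF : F = C M * A' + g * Q' := by
    have := modByMonic_add_div A g
    calc F = C M * A + g * Q := h
      _ = C M * (A %ₘ g + g * (A /ₘ g)) + g * Q := by rw [this]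
      _ = _ := by simp only [A', Q']; ring
  have hA' : A'.degree < g.degree := degree_modByMonic_lt A hg
  have hQ' : Q'.natDegree + g.natDegree ≤ E := by
    by_cases hQ0 : Q' = 0
    · simp [hQ0, hE']
    · have h1 : (g * Q').degree = g.degree + Q'.degree := degree_mul
      have h2 : (C M * A').degree < (g * Q').degree := by
        calc (C M * A').degree ≤ A'.degree := by
              rw [← smul_eq_C_mul]; exact degree_smul_le M A'
          _ < g.degree := hA'
          _ ≤ g.degree + Q'.degree := by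
              have : (0 : WithBot ℕ) ≤ Q'.degree := zero_le_degree_iff.mpr hQ0
              calc g.degree = g.degree + 0 := by simp
                _ ≤ _ := by gcongr
          _ = _ := h1.symm
      have h3 : F.degree = (g * Q').degree := by
        rw [hF]; exact degree_add_eq_right_of_degree_lt h2
      have h4 : F.natDegree = (g * Q').natDegree := natDegree_eq_of_degree_eq h3
      rw [hg.natDegree_mul' hQ0] at h4
      omega
  rw [hF, resultant_add_mul_right _ _ _ _ _ hQ' le_rfl, resultant_C_mul_right]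
  exact dvd_mul_right _ _

/-- nonvanishing of the resultant -/
lemma resultant_ne_zero' (g F : ℤ[X]) (hg : g.Monic) (hirr : Irreducible g) (hF : ¬ g ∣ F)
    (E : ℕ) (hE : F.natDegree ≤ E) : resultant g F g.natDegree E ≠ 0 := by
  obtain ⟨k, rfl⟩ := Nat.exists_eq_add_of_le hE
  rw [resultant_add_right_deg _ _ _ _ _ le_rfl]
  have h1 : g.coeff g.natDegree = 1 := hg
  rw [h1, one_pow, one_mul]
  set ψ := algebraMap ℤ ℚ
  have hinj : Function.Injective ψ := (algebraMap ℤ ℚ).injective_int
  have hirrQ : Irreducible (g.map ψ) :=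
    (hg.irreducible_iff_irreducible_map_fraction_map (K := ℚ)).mp hirr
  have hnd : ¬ (g.map ψ) ∣ (F.map ψ) := by
    intro hd
    exact hF ((map_dvd_map ψ hinj hg).mp hd)
  have hcop : IsCoprime (g.map ψ) (F.map ψ) :=
    (hirrQ.coprime_iff_not_dvd).mpr hnd
  have h2 := resultant_ne_zero _ _ hcop
  intro h0
  apply h2
  rw [natDegree_map_eq_of_injective hinj, natDegree_map_eq_of_injective hinj, resultant_map_map, h0, map_zero]

lemma MM_one_le {g : ℤ[X]} (hg : g ≠ 0) : 1 ≤ MM g := one_le_mahlerMeasure_of_ne_zero hg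

/-- main resultant inequality -/
lemma main_resultant (g F A Q : ℤ[X]) (hg : g.Monic) (hirr : Irreducible g) (M : ℕ)
    (h : F = C (M : ℤ) * A + g * Q) (hF : ¬ g ∣ F)
    (E : ℕ) (hE : F.natDegree ≤ E) (hE' : g.natDegree ≤ E) :
    (M : ℝ) ^ g.natDegree ≤ l1 F ^ g.natDegree * MM g ^ E := by
  have h1 := pow_dvd_resultant g F A Q hg M h E hE hE'
  have h2 := resultant_ne_zero' g F hg hirr hF E hE
  have h3 := abs_resultant_le g F E hE
  have h4 : ((M : ℤ) ^ g.natDegree) ≤ |resultant g F g.natDegree E| := by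
    have := Int.le_of_dvd (abs_pos.mpr h2) ((dvd_abs _ _).mpr h1)
    exact this
  calc (M : ℝ) ^ g.natDegree = (((M : ℤ) ^ g.natDegree : ℤ) : ℝ) := by push_cast; rfl
    _ ≤ ((|resultant g F g.natDegree E| : ℤ) : ℝ) := by exact_mod_cast h4
    _ = |((resultant g F g.natDegree E : ℤ) : ℝ)| := by push_cast; rfl
    _ ≤ _ := h3

end Pool.Agent.Lib.MP_7ab245_nt
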