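import Mathlib
import Pool.Agent.Lib.MP_7ab245_nt.Res

/-! A Dobrowolski type estimate for sparse polynomials. -/

set_option autoImplicit false

open Polynomial

namespace Pool.Agent.Lib.MP_7ab245_nt

lemma support_expand' {t : ℕ} (ht : 0 < t) (F : ℤ[X]) :
    (expand ℤ t F).support = F.support.image (fun i => i * t) := by
  ext n
  simp only [mem_support_iff, coeff_expand ht, Finset.mem_image]
  constructor
  · intro h
    by_cases hd : t ∣ n
    · rw [if_pos hd] at h
      exact ⟨n / t, h, Nat.div_mul_cancel hd⟩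
    · rw [if_neg hd] at h
      exact absurd rfl h
  · rintro ⟨i, hi, rfl⟩
    rw [if_pos (dvd_mul_left t i), Nat.mul_div_cancel _ ht]
    exact hi

lemma l1_expand {t : ℕ} (ht : 0 < t) (F : ℤ[X]) : l1 (expand ℤ t F) = l1 F := by
  unfold l1
  rw [support_expand' ht, Finset.sum_image]
  · refine Finset.sum_congr rfl fun i _ => ?_
    rw [coeff_expand_mul ht]
  · intro a _ b _ h
    exact Nat.eq_of_mul_eq_mul_right ht h

/-- Vandermonde: a nonzero sparse polynomial cannot vanish on `α^(1+jN)` for many `j`. -/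
lemma exists_ne_zero_of_sparse (F : ℤ[X]) (hF : F ≠ 0) (α : ℂ) (hα : α ≠ 0)
    (hru : ∀ n : ℕ, 0 < n → α ^ n ≠ 1) (N : ℕ) (hN : 0 < N) :
    ∃ j < F.support.card, aeval (α ^ (1 + j * N)) F ≠ 0 := by
  by_contra hcon
  push Not at hcon
  set n := F.support.card with hn
  have hnpos : 0 < n := Finset.card_pos.mpr (support_nonempty.mpr hF)
  set e := F.support.orderEmbOfFin rfl with he
  let f : Fin n → ℂ := fun j => α ^ (N * e j)
  let v : Fin n → ℂ := fun j => (F.coeff (e j) : ℂ) * α ^ (e j)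
  have hf : Function.Injective f := by
    have key : ∀ a b : ℕ, a < b → α ^ (N * a) ≠ α ^ (N * b) := by
      intro a b hab h
      obtain ⟨c, rfl⟩ := Nat.exists_eq_add_of_lt hab
      have h2 : α ^ (N * (a + c + 1)) = α ^ (N * a) * α ^ (N * (c + 1)) := by
        rw [← pow_add]; ring_nf
      rw [h2] at h
      have h3 : α ^ (N * (c + 1)) = 1 := by
        have h4 : α ^ (N * a) ≠ 0 := pow_ne_zero _ hα
        field_simp at h
        exact h.symm
      exact hru _ (by positivity) h3
    intro i j hij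
    rcases lt_trichotomy (e i) (e j) with h | h | h
    · exact absurd hij (key _ _ h)
    · exact e.injective h
    · exact absurd hij.symm (key _ _ h)
  have hfv : ∀ i : Fin n, ∑ j, v j * f j ^ (i : ℕ) = 0 := by
    intro i
    have h0 := hcon i i.2
    rw [aeval_eq_sum_range' (n := F.natDegree + 1) (by omega)] at h0
    have h1 : ∑ s ∈ F.support, (F.coeff s : ℂ) * (α ^ (1 + (i : ℕ) * N)) ^ s = 0 := by
      rw [← h0]
      have hsub : F.support ⊆ Finset.range (F.natDegree + 1) := by
        intro s hs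
        rw [Finset.mem_range]
        have := le_natDegree_of_mem_supp s hs
        omega
      rw [← Finset.sum_subset hsub]
      · refine Finset.sum_congr rfl fun s _ => ?_
        simp
      · intro s _ hs
        rw [notMem_support_iff.mp hs]; simp
    have h2 : ∑ s ∈ F.support, (F.coeff s : ℂ) * (α ^ (1 + (i : ℕ) * N)) ^ s =
        ∑ j : Fin n, (F.coeff (e j) : ℂ) * (α ^ (1 + (i : ℕ) * N)) ^ (e j) := by
      have hmap := Finset.map_orderEmbOfFin_univ F.support rfl
      conv_lhs => rw [← hmap]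
      rw [Finset.sum_map]
      rfl
    rw [h2] at h1
    rw [← h1]
    refine Finset.sum_congr rfl fun j _ => ?_
    simp only [v, f]
    rw [mul_assoc, ← pow_mul, ← pow_add, ← pow_mul]
    ring_nf
  have hv := Matrix.eq_zero_of_forall_pow_sum_mul_pow_eq_zero hf hfv
  have h0 := congrFun hv ⟨0, hnpos⟩
  simp only [v, Pi.zero_apply, mul_eq_zero, pow_eq_zero_iff', Int.cast_eq_zero] at h0
  rcases h0 with h | h
  · have := F.support.orderEmbOfFin_mem rfl ⟨0, hnpos⟩
    exact (mem_support_iff.mp this) h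
  · exact hα h.1

lemma chain_exists (F : ℤ[X]) (α : ℂ) (h1 : aeval α F = 0) :
    ∀ m : ℕ, 0 < m → aeval (α ^ m) F ≠ 0 →
      ∃ t q : ℕ, 0 < t ∧ q.Prime ∧ t * q ∣ m ∧ aeval (α ^ t) F = 0 ∧ aeval (α ^ (t * q)) F ≠ 0 := by
  intro m
  induction m using Nat.strong_induction_on with
  | _ m ih =>
    intro hm hne
    have hm1 : m ≠ 1 := by
      rintro rfl
      rw [pow_one] at hne
      exact hne h1
    have hq := Nat.minFac_prime hm1
    obtain ⟨t, ht⟩ := Nat.minFac_dvd m
    have ht0 : 0 < t := by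
      rcases Nat.eq_zero_or_pos t with h | h
      · rw [h] at ht; omega
      · exact h
    have htm : m = t * m.minFac := by rw [mul_comm]; exact ht
    by_cases h0 : aeval (α ^ t) F = 0
    · exact ⟨t, m.minFac, ht0, hq, by rw [← htm], h0, by rw [← htm]; exact hne⟩
    · have hlt : t < m := by
        have := hq.two_le
        nlinarith
      obtain ⟨t', q', ht', hq', hd, ha, hb⟩ := ih t hlt ht0 h0
      exact ⟨t', q', ht', hq', hd.trans ⟨m.minFac, htm⟩, ha, hb⟩

lemma eq_minpoly_of_root (g : ℤ[X]) (hg : g.Monic) (hirr : Irreducible g) (α : ℂ)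
    (hroot : aeval α g = 0) : g = minpoly ℤ α := by
  have hint : IsIntegral ℤ α := ⟨g, hg, hroot⟩
  have hd := minpoly.isIntegrallyClosed_dvd hint hroot
  have hm := minpoly.monic hint
  obtain ⟨c, hc⟩ := hd
  rcases hirr.isUnit_or_isUnit hc with h | h
  · exact absurd h (minpoly.not_isUnit ℤ α)
  · have : c = 1 := by
      have hc' : c.Monic := by
        refine hm.of_mul_monic_left ?_
        rw [← hc]; exact hg
      exact hc'.eq_one_of_isUnit h
    rw [hc, this, mul_one]

lemma dvd_of_root (g : ℤ[X]) (hg : g.Monic) (hirr : Irreducible g) (α : ℂ)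
    (hroot : aeval α g = 0) (G : ℤ[X]) (hG : aeval α G = 0) : g ∣ G := by
  have hint : IsIntegral ℤ α := ⟨g, hg, hroot⟩
  rw [eq_minpoly_of_root g hg hirr α hroot]
  exact minpoly.isIntegrallyClosed_dvd hint hG

lemma exists_C_mul_of_map_eq_zero (q : ℕ) (P : ℤ[X])
    (h : P.map (Int.castRingHom (ZMod q)) = 0) : ∃ W : ℤ[X], P = C (q : ℤ) * W := by
  have : C (q : ℤ) ∣ P := by
    rw [C_dvd_iff_dvd_coeff]
    intro i
    have h1 : (P.map (Int.castRingHom (ZMod q))).coeff i = 0 := by rw [h]; simp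
    rw [coeff_map] at h1
    exact (ZMod.intCast_zmod_eq_zero_iff_dvd _ _).mp (by simpa using h1)
  exact this

lemma expand_sub_pow (q : ℕ) [Fact q.Prime] (G : ℤ[X]) :
    ∃ W : ℤ[X], expand ℤ q G = G ^ q + C (q : ℤ) * W := by
  obtain ⟨W, hW⟩ := exists_C_mul_of_map_eq_zero q (expand ℤ q G - G ^ q) (by
    rw [Polynomial.map_sub, map_expand, Polynomial.map_pow, ZMod.expand_card, sub_self])
  exact ⟨W, by rw [← hW]; ring⟩

/-- Dobrowolski type estimate. -/
theorem dobrowolski_sparse (g : ℤ[X]) (hg : g.Monic) (hirr : Irreducible g) (α : ℂ)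
    (hroot : aeval α g = 0) (hα : α ≠ 0) (hru : ∀ n : ℕ, 0 < n → α ^ n ≠ 1)
    (F : ℤ[X]) (hF : F ≠ 0) (hgF : g ∣ F) (B J : ℕ) (hB : l1 F ≤ B) (hB1 : 1 ≤ B)
    (hJ : F.support.card ≤ J) (E : ℕ) (hE : F.natDegree ≤ E) :
    (1 + 1 / (B : ℝ)) ^ g.natDegree ≤ MM g ^ ((1 + J * B.factorial) * E) := by
  set N := B.factorial with hN
  have hNpos : 0 < N := B.factorial_pos
  obtain ⟨j, hj, hne⟩ := exists_ne_zero_of_sparse F hF α hα hru N hNpos
  have hFα : aeval α F = 0 := by
    obtain ⟨c, rfl⟩ := hgF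
    rw [map_mul, hroot, zero_mul]
  obtain ⟨t, q, ht, hq, hd, h0, h1⟩ := chain_exists F α hFα (1 + j * N) (by omega) hne
  haveI : Fact q.Prime := ⟨hq⟩
  have hqB : B + 1 ≤ q := by
    by_contra hlt
    have hle : q ≤ B := by omega
    have hdN : q ∣ N := (hq.dvd_factorial).mpr hle
    have hd2 : q ∣ 1 + j * N := (dvd_mul_left q t).trans hd
    have : q ∣ 1 := (Nat.dvd_add_left (hdN.mul_left j)).mp hd2
    exact hq.one_lt.ne' (Nat.dvd_one.mp this)
  set G := expand ℤ t F with hGdef
  have hgG : g ∣ G := by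
    apply dvd_of_root g hg hirr α hroot
    rw [hGdef, expand_aeval]; exact h0
  obtain ⟨W, hW⟩ := expand_sub_pow q G
  obtain ⟨c, hc⟩ := hgG
  have hq0 : q ≠ 0 := hq.ne_zero
  have hF' : expand ℤ (q * t) F = C (q : ℤ) * W + g * (c * G ^ (q - 1)) := by
    rw [expand_mul, ← hGdef, hW]
    have : G ^ q = G * G ^ (q - 1) := by
      rw [← pow_succ']; congr 1; omega
    rw [this]
    nth_rewrite 1 [hc]
    ring
  have hndvd : ¬ g ∣ expand ℤ (q * t) F := by
    rintro ⟨c', hc'⟩
    apply h1
    rw [mul_comm t q, ← expand_aeval, hc', map_mul, hroot, zero_mul]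
  have hgd : g.natDegree ≠ 0 := by
    intro h
    have := hg.natDegree_eq_zero.mp h
    rw [this] at hirr
    exact not_irreducible_one hirr
  have hg0 : g ≠ 0 := hg.ne_zero
  have hFdeg : g.natDegree ≤ F.natDegree := natDegree_le_of_dvd hgF hF
  have hqt : 0 < q * t := Nat.mul_pos hq.pos ht
  have hdegE : (expand ℤ (q * t) F).natDegree ≤ F.natDegree * (q * t) := by
    rw [natDegree_expand]
  have hE' : g.natDegree ≤ F.natDegree * (q * t) := by
    calc g.natDegree ≤ F.natDegree := hFdeg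
      _ = F.natDegree * 1 := by ring
      _ ≤ _ := Nat.mul_le_mul_left _ hqt
  have hmain := main_resultant g (expand ℤ (q * t) F) W (c * G ^ (q - 1)) hg hirr q hF' hndvd
    (F.natDegree * (q * t)) hdegE hE'
  rw [l1_expand hqt] at hmain
  have hMM : 1 ≤ MM g := MM_one_le hg0
  have hBpos : (0 : ℝ) < B := by exact_mod_cast hB1
  have hle1 : MM g ^ (F.natDegree * (q * t)) ≤ MM g ^ ((1 + J * N) * E) := by
    apply pow_le_pow_right₀ hMM
    have h2 : q * t ≤ 1 + J * N := by
      calc q * t = t * q := by ring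
        _ ≤ 1 + j * N := Nat.le_of_dvd (by omega) hd
        _ ≤ 1 + J * N := by
            have : j ≤ J := by omega
            nlinarith
    calc F.natDegree * (q * t) ≤ E * (1 + J * N) := Nat.mul_le_mul hE h2
      _ = _ := by ring
  have h3 : ((q : ℝ) / B) ^ g.natDegree ≤ MM g ^ ((1 + J * N) * E) := by
    rw [div_pow, div_le_iff₀ (by positivity)]
    calc (q : ℝ) ^ g.natDegree ≤ l1 F ^ g.natDegree * MM g ^ (F.natDegree * (q * t)) := hmain
      _ ≤ (B : ℝ) ^ g.natDegree * MM g ^ ((1 + J * N) * E) := by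
          have := l1_nonneg F
          gcongr
      _ = _ := by ring
  refine le_trans ?_ h3
  gcongr
  rw [le_div_iff₀ hBpos]
  have : ((B + 1 : ℕ) : ℝ) ≤ q := by exact_mod_cast hqB
  push_cast at this
  field_simp
  linarith

end Pool.Agent.Lib.MP_7ab245_nt
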