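import Mathlib

/-! Iterated sumsets, division with controlled support and a pigeonhole construction. -/

set_option autoImplicit false

open Polynomial
open scoped Pointwise

namespace Pool.Agent.Lib.MP_7ab245_nt

/-- The `L`-fold sumset of `I`. -/
def SS (I : Finset ℕ) : ℕ → Finset ℕ
  | 0 => {0}
  | (L + 1) => SS I L + I

lemma SS_nonempty {I : Finset ℕ} (hI : I.Nonempty) (L : ℕ) : (SS I L).Nonempty := by
  induction L with
  | zero => simp [SS]
  | succ L ih => exact ih.add hI

lemma SS_card_mono {I : Finset ℕ} (hI : I.Nonempty) (L : ℕ) :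
    (SS I L).card ≤ (SS I (L + 1)).card := by
  simp only [SS]
  exact Finset.card_le_card_add_right hI

lemma SS_card_mono' {I : Finset ℕ} (hI : I.Nonempty) {a b : ℕ} (h : a ≤ b) :
    (SS I a).card ≤ (SS I b).card := by
  induction h with
  | refl => exact le_rfl
  | step _ ih => exact ih.trans (SS_card_mono hI _)

lemma SS_add (I : Finset ℕ) (a b : ℕ) : SS I a + SS I b = SS I (a + b) := by
  induction b with
  | zero => rw [SS, Finset.singleton_zero, add_zero, add_zero]
  | succ b ih => rw [SS, ← add_assoc, ih, ← add_assoc, SS]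

lemma SS_le {I : Finset ℕ} {n : ℕ} (hn : ∀ i ∈ I, i ≤ n) (L : ℕ) :
    ∀ s ∈ SS I L, s ≤ L * n := by
  induction L with
  | zero => simp [SS]
  | succ L ih =>
    intro s hs
    rw [SS, Finset.mem_add] at hs
    obtain ⟨a, ha, b, hb, rfl⟩ := hs
    have := ih a ha
    have := hn b hb
    nlinarith

lemma SS_repr (I : Finset ℕ) (L : ℕ) :
    ∀ s ∈ SS I L, ∃ c : ℕ → ℕ, (∀ i, c i ≤ L) ∧ s = ∑ i ∈ I, c i * i := by
  induction L with
  | zero =>
    intro s hs
    simp only [SS, Finset.mem_singleton] at hs
    exact ⟨fun _ => 0, by simp, by simp [hs]⟩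
  | succ L ih =>
    intro s hs
    rw [SS, Finset.mem_add] at hs
    obtain ⟨a, ha, b, hb, rfl⟩ := hs
    obtain ⟨c, hc, rfl⟩ := ih a ha
    refine ⟨fun i => c i + if i = b then 1 else 0, ?_, ?_⟩
    · intro i
      have := hc i
      dsimp only
      split_ifs <;> omega
    · simp only [add_mul, Finset.sum_add_distrib, ite_mul, one_mul, zero_mul,
        Finset.sum_ite_eq', if_pos hb]

lemma SS_card_le (I : Finset ℕ) (L : ℕ) : (SS I L).card ≤ (L + 1) ^ I.card := by
  classical
  let Φ : (I → Fin (L + 1)) → ℕ := fun c => ∑ i : I, (c i : ℕ) * (i : ℕ)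
  have hsub : SS I L ⊆ (Finset.univ : Finset (I → Fin (L + 1))).image Φ := by
    intro s hs
    obtain ⟨c, hc, rfl⟩ := SS_repr I L s hs
    rw [Finset.mem_image]
    refine ⟨fun i => ⟨c i, by have := hc i; omega⟩, Finset.mem_univ _, ?_⟩
    exact Finset.sum_coe_sort I (fun i => c i * i)
  calc (SS I L).card ≤ ((Finset.univ : Finset (I → Fin (L + 1))).image Φ).card :=
        Finset.card_le_card hsub
    _ ≤ (Finset.univ : Finset (I → Fin (L + 1))).card := Finset.card_image_le
    _ = (L + 1) ^ I.card := by simp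

lemma support_mul_mem (f g : ℤ[X]) (n : ℕ) (hn : n ∈ (f * g).support) :
    ∃ i ∈ f.support, ∃ j ∈ g.support, i + j = n := by
  rw [mem_support_iff, coeff_mul] at hn
  obtain ⟨⟨i, j⟩, hij, hne⟩ := Finset.exists_ne_zero_of_sum_ne_zero hn
  rw [Finset.HasAntidiagonal.mem_antidiagonal] at hij
  refine ⟨i, mem_support_iff.mpr (left_ne_zero_of_mul hne), j,
    mem_support_iff.mpr (right_ne_zero_of_mul hne), hij⟩

lemma support_pow_subset (h : ℤ[X]) (V : ℕ) : (h ^ V).support ⊆ SS h.support V := by
  induction V with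
  | zero =>
    intro n hn
    rw [pow_zero, mem_support_iff, coeff_one] at hn
    simp only [SS, Finset.mem_singleton]
    by_contra h0
    exact hn (if_neg h0)
  | succ V ih =>
    intro n hn
    rw [pow_succ] at hn
    obtain ⟨i, hi, j, hj, rfl⟩ := support_mul_mem _ _ _ hn
    rw [SS]
    exact Finset.add_mem_add (ih hi) hj

lemma two_mul_pow_le (e : ℕ) (he : 1 ≤ e) : 2 * e ^ (e + 1) ≤ (e + 1) ^ (e + 1) := by
  have he' : (0 : ℝ) < e := by exact_mod_cast he
  have h1 : (1 : ℝ) + ((e + 1 : ℕ) : ℝ) * (1 / e) ≤ (1 + 1 / (e : ℝ)) ^ (e + 1) :=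
    one_add_mul_le_pow (by have : (0:ℝ) ≤ 1 / e := by positivity
                           linarith) _
  have h2 : (2 : ℝ) ≤ (1 + 1 / (e : ℝ)) ^ (e + 1) := by
    refine le_trans ?_ h1
    push_cast
    have : (1 : ℝ) ≤ ((e : ℝ) + 1) * (1 / e) := by
      field_simp
      linarith
    linarith
  have h3 : (2 : ℝ) * e ^ (e + 1) ≤ (e + 1) ^ (e + 1) := by
    calc (2 : ℝ) * e ^ (e + 1) ≤ (1 + 1 / (e : ℝ)) ^ (e + 1) * e ^ (e + 1) := by gcongr
      _ = ((1 + 1 / (e : ℝ)) * e) ^ (e + 1) := by rw [mul_pow]
      _ = (e + 1) ^ (e + 1) := by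
        congr 1
        field_simp
  exact_mod_cast h3

/-- Growth lemma: some sumset in a bounded range is almost stable. -/
lemma growth (I : Finset ℕ) (k e v : ℕ) (hk : I.card ≤ k) (he : 1 ≤ e)
    (hv : 1 ≤ v) (hbig : ((e + 1) * v * ((e + 1) * v) + 1) ^ k ≤ 2 ^ v) :
    ∃ L, (e + 1) * v ≤ L ∧ L ≤ (e + 1) * v * ((e + 1) * v) ∧
      e * (SS I L).card ≤ (e + 1) * (SS I (L - (e + 1) * v)).card := by
  set V := (e + 1) * v with hV
  by_contra hcon
  push Not at hcon
  have hVpos : 0 < V := by positivity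
  have key : ∀ t : ℕ, t ≤ V → (e + 1) ^ t ≤ e ^ t * (SS I (V * t)).card ∧
      (1 ≤ t → (e + 1) ^ t < e ^ t * (SS I (V * t)).card) := by
    intro t
    induction t with
    | zero => intro _; simp [SS]
    | succ t ih =>
      intro ht
      have h1 := (ih (by omega)).1
      have h2 := hcon (V * (t + 1)) (by nlinarith) (by nlinarith)
      have h3 : V * (t + 1) - V = V * t := by
        rw [mul_add, mul_one, Nat.add_sub_cancel]
      rw [h3] at h2
      have h4 : (e + 1) ^ (t + 1) < e ^ (t + 1) * (SS I (V * (t + 1))).card := by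
        calc (e + 1) ^ (t + 1) = (e + 1) * (e + 1) ^ t := by ring
          _ ≤ (e + 1) * (e ^ t * (SS I (V * t)).card) := by gcongr
          _ = e ^ t * ((e + 1) * (SS I (V * t)).card) := by ring
          _ < e ^ t * (e * (SS I (V * (t + 1))).card) := by
              have : 0 < e ^ t := by positivity
              exact Nat.mul_lt_mul_of_pos_left h2 this
          _ = _ := by ring
      exact ⟨h4.le, fun _ => h4⟩
  have h5 := (key V le_rfl).2 hVpos
  have h6 : (SS I (V * V)).card ≤ 2 ^ v := by
    calc (SS I (V * V)).card ≤ (V * V + 1) ^ I.card := SS_card_le I _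
      _ ≤ (V * V + 1) ^ k := Nat.pow_le_pow_right (by positivity) hk
      _ ≤ 2 ^ v := hbig
  have h7 : 2 ^ v * e ^ V ≤ (e + 1) ^ V := by
    have := two_mul_pow_le e he
    calc 2 ^ v * e ^ V = (2 * e ^ (e + 1)) ^ v := by
          rw [mul_pow, ← pow_mul]
      _ ≤ ((e + 1) ^ (e + 1)) ^ v := Nat.pow_le_pow_left this v
      _ = (e + 1) ^ V := by rw [← pow_mul]
  have h8 : e ^ V * (SS I (V * V)).card ≤ e ^ V * 2 ^ v := Nat.mul_le_mul_left _ h6
  have : (e + 1) ^ V < (e + 1) ^ V := by
    calc (e + 1) ^ V < e ^ V * (SS I (V * V)).card := h5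
      _ ≤ e ^ V * 2 ^ v := h8
      _ = 2 ^ v * e ^ V := by ring
      _ ≤ _ := h7
  exact lt_irrefl _ this

/-- division by a monic polynomial with controlled support -/
lemma div_support (H0 : ℤ[X]) (hm : H0.Monic) (S' : Finset ℕ) :
    ∀ (S : Finset ℕ), (∀ s ∈ S', ∀ t ∈ H0.support, s + t ∈ S) → ∀ G : ℤ[X], G.support ⊆ S →
      ∃ R Q : ℤ[X], G = R + H0 * Q ∧ R.support ⊆ S \ S'.image (fun s => s + H0.natDegree) := by
  induction S' using Finset.induction_on_max with
  | empty =>
    intro S _ G hG
    exact ⟨G, 0, by simp, by simpa using hG⟩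
  | insert m T hmax ih =>
    intro S hS G hG
    set N := H0.natDegree with hN
    set c := G.coeff (m + N) with hc
    set G1 := G - H0 * (monomial m c) with hG1
    have hG1S : G1.support ⊆ S.erase (m + N) := by
      intro n hn
      rw [Finset.mem_erase]
      constructor
      · rintro rfl
        rw [mem_support_iff, hG1, coeff_sub, add_comm m N, coeff_mul_monomial] at hn
        apply hn
        have : H0.coeff N = 1 := hm
        rw [this, one_mul, hc, add_comm m N, sub_self]
      · by_contra hnS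
        rw [mem_support_iff, hG1, coeff_sub] at hn
        have h1 : G.coeff n = 0 := by
          by_contra h; exact hnS (hG (mem_support_iff.mpr h))
        rw [h1, zero_sub, neg_ne_zero, ← mem_support_iff] at hn
        obtain ⟨i, hi, j, hj, rfl⟩ := support_mul_mem _ _ _ hn
        have hjm : j = m := by
          rw [mem_support_iff, coeff_monomial] at hj
          by_contra hne
          exact hj (if_neg (fun h => hne h.symm))
        subst hjm
        apply hnS
        rw [add_comm]
        exact hS j (Finset.mem_insert_self _ _) i hi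
    have hS2 : ∀ s ∈ T, ∀ t ∈ H0.support, s + t ∈ S.erase (m + N) := by
      intro s hs t ht
      rw [Finset.mem_erase]
      refine ⟨?_, hS s (Finset.mem_insert_of_mem hs) t ht⟩
      have h1 := hmax s hs
      have h2 := le_natDegree_of_mem_supp t ht
      omega
    obtain ⟨R, Q, hRQ, hR⟩ := ih (S.erase (m + N)) hS2 G1 hG1S
    refine ⟨R, Q + monomial m c, ?_, ?_⟩
    · rw [mul_add, ← add_assoc, ← hRQ, hG1]; ring
    · intro n hn
      have := hR hn
      rw [Finset.mem_sdiff, Finset.mem_erase] at this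
      rw [Finset.mem_sdiff]
      refine ⟨this.1.2, ?_⟩
      rw [Finset.image_insert, Finset.mem_insert, not_or]
      exact ⟨this.1.1, this.2⟩

/-- Pigeonhole construction. -/
lemma pigeon (H0 : ℤ[X]) (hm : H0.Monic) (S S' : Finset ℕ)
    (hS : ∀ s ∈ S', ∀ t ∈ H0.support, s + t ∈ S) (B M : ℕ) (hM : 0 < M)
    (hcard : M ^ (S.card - S'.card) < B ^ S.card) :
    ∃ F : ℤ[X], F ≠ 0 ∧ F.support ⊆ S ∧ (∀ i, |F.coeff i| < B) ∧
      ∃ A Q : ℤ[X], F = C (M : ℤ) * A + H0 * Q := by
  classical
  have : NeZero M := ⟨hM.ne'⟩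
  let G : (S → Fin B) → ℤ[X] := fun c => ∑ s : S, monomial (s : ℕ) ((c s : ℕ) : ℤ)
  have hcoeff : ∀ c : S → Fin B, ∀ n, (G c).coeff n = if h : n ∈ S then ((c ⟨n, h⟩ : ℕ) : ℤ) else 0 := by
    intro c n
    simp only [G, finsetSum_coeff, coeff_monomial]
    split_ifs with h
    · rw [Finset.sum_eq_single ⟨n, h⟩]
      · simp
      · intro b _ hb
        rw [if_neg]
        intro hbn
        exact hb (Subtype.ext hbn)
      · intro h'; exact absurd (Finset.mem_univ _) h'
    · refine Finset.sum_eq_zero fun b _ => ?_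
      rw [if_neg]
      rintro rfl
      exact h b.2
  have hGS : ∀ c, (G c).support ⊆ S := by
    intro c n hn
    rw [mem_support_iff, hcoeff] at hn
    by_contra h
    exact hn (dif_neg h)
  have hdiv := fun c => div_support H0 hm S' S hS (G c) (hGS c)
  choose R Q hRQ hR using hdiv
  set T := S \ S'.image (fun s => s + H0.natDegree) with hT
  have hN : H0.natDegree ∈ H0.support := natDegree_mem_support_of_nonzero hm.ne_zero
  have hTcard : T.card = S.card - S'.card := by
    rw [hT, Finset.card_sdiff_of_subset, Finset.card_image_of_injective]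
    · intro a b hab
      simpa using hab
    · intro x hx
      rw [Finset.mem_image] at hx
      obtain ⟨s, hs, rfl⟩ := hx
      exact hS s hs _ hN
  let Ψ : (S → Fin B) → (T → ZMod M) := fun c t => ((R c).coeff t : ZMod M)
  have hlt : Fintype.card (T → ZMod M) < Fintype.card (S → Fin B) := by
    simp only [Fintype.card_fun, ZMod.card, Fintype.card_fin, Fintype.card_coe]
    rw [hTcard]; exact hcard
  obtain ⟨c, c', hne, heq⟩ := Fintype.exists_ne_map_eq_of_card_lt Ψ hlt
  refine ⟨G c - G c', ?_, ?_, ?_, ?_⟩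
  · intro h0
    apply hne
    funext s
    have h1 : (G c - G c').coeff s = 0 := by rw [h0]; simp
    rw [coeff_sub, hcoeff, hcoeff, dif_pos s.2, dif_pos s.2] at h1
    apply Fin.ext
    have : (((c s : ℕ) : ℤ)) = ((c' s : ℕ) : ℤ) := by
      have h2 := sub_eq_zero.mp h1
      simpa using h2
    exact_mod_cast this
  · intro n hn
    by_contra h
    rw [mem_support_iff, coeff_sub, hcoeff, hcoeff, dif_neg h, dif_neg h, sub_zero] at hn
    exact hn rfl
  · intro i
    rw [coeff_sub, hcoeff, hcoeff]
    split_ifs with h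
    · have h1 := (c ⟨i, h⟩).2
      have h2 := (c' ⟨i, h⟩).2
      rw [abs_lt]
      constructor <;> omega
    · have hB : 0 < B := by
        by_contra hB0
        have : B = 0 := by omega
        subst this
        rcases Nat.eq_zero_or_pos S.card with h0 | h0
        · rw [h0] at hcard; simp at hcard
        · rw [zero_pow h0.ne'] at hcard
          exact absurd hcard (by omega)
      simpa using hB
  · have hRR : ∃ W : ℤ[X], R c - R c' = C (M : ℤ) * W := by
      have : C (M : ℤ) ∣ R c - R c' := by
        rw [C_dvd_iff_dvd_coeff]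
        intro i
        by_cases hi : i ∈ T
        · have := congrFun heq ⟨i, hi⟩
          simp only [Ψ] at this
          rw [coeff_sub]
          rw [← ZMod.intCast_zmod_eq_zero_iff_dvd]
          push_cast
          rw [this, sub_self]
        · have h1 : (R c).coeff i = 0 := by
            by_contra h; exact hi (hR c (mem_support_iff.mpr h))
          have h2 : (R c').coeff i = 0 := by
            by_contra h; exact hi (hR c' (mem_support_iff.mpr h))
          rw [coeff_sub, h1, h2]; simp
      exact this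
    obtain ⟨W, hW⟩ := hRR
    refine ⟨W, Q c - Q c', ?_⟩
    rw [← hW]
    nth_rewrite 1 [hRQ c, hRQ c']
    ring

end Pool.Agent.Lib.MP_7ab245_nt
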