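import Mathlib
import Pool.Agent.Lib.MP_7ab245_nt.Sumset
import Pool.Agent.Lib.MP_7ab245_nt.Dob

/-! The auxiliary polynomial attached to a sparse polynomial. -/

set_option autoImplicit false

open Polynomial
open scoped Pointwise

namespace Pool.Agent.Lib.MP_7ab245_nt

lemma exists_big (k e : ℕ) : ∃ v : ℕ, 1 ≤ v ∧
    ((e + 1) * v * ((e + 1) * v) + 1) ^ k ≤ 2 ^ v := by
  set c : ℝ := (((e + 1) * (e + 1) + 1 : ℕ) : ℝ) ^ k with hc
  have hcpos : 0 < c := by positivity
  have h1 := tendsto_pow_const_div_const_pow_of_one_lt (2 * k) (r := (2 : ℝ)) (by norm_num)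
  have h2 : ∀ᶠ n : ℕ in Filter.atTop, (n : ℝ) ^ (2 * k) / 2 ^ n < 1 / c :=
    h1.eventually (gt_mem_nhds (by positivity))
  obtain ⟨v, hv1, hv2⟩ := (h2.and (Filter.eventually_ge_atTop 1)).exists
  refine ⟨v, hv2, ?_⟩
  have hvpos : (1 : ℝ) ≤ v := by exact_mod_cast hv2
  rw [div_lt_div_iff₀ (by positivity) hcpos] at hv1
  have h3 : (((e + 1) * v * ((e + 1) * v) + 1 : ℕ) : ℝ) ≤
      ((((e + 1) * (e + 1) + 1 : ℕ) : ℝ)) * (v : ℝ) ^ 2 := by
    push_cast
    nlinarith [sq_nonneg ((v : ℝ) - 1)]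
  have h4 : ((((e + 1) * v * ((e + 1) * v) + 1) ^ k : ℕ) : ℝ) ≤ ((2 ^ v : ℕ) : ℝ) := by
    push_cast at h3 ⊢
    calc ((((e : ℝ) + 1) * v * ((e + 1) * v) + 1) ^ k : ℝ)
        ≤ ((((e : ℝ) + 1) * (e + 1) + 1) * (v : ℝ) ^ 2) ^ k := by gcongr
      _ = (v : ℝ) ^ (2 * k) * c := by
          rw [mul_pow, ← pow_mul, hc]; push_cast; ring
      _ ≤ 2 ^ v := by linarith
  exact_mod_cast h4

lemma exists_aux (k e : ℕ) (he : 1 ≤ e) : ∃ v : ℕ, 1 ≤ v ∧
    ∀ p : ℕ, 2 ≤ p → ∀ h : ℤ[X], h.Monic → h.support.card ≤ k →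
      ∃ F : ℤ[X], F ≠ 0 ∧ F.natDegree ≤ (e + 1) * v * ((e + 1) * v) * h.natDegree ∧
        l1 F ≤ (p : ℝ) ^ (2 * v) ∧ F.support.card ≤ 2 ^ v ∧
        ∃ A Q : ℤ[X], F = C (((p ^ ((e + 1) * v) : ℕ)) : ℤ) * A + h ^ ((e + 1) * v) * Q := by
  obtain ⟨v, hv, hbig⟩ := exists_big k e
  refine ⟨v, hv, fun p hp h hm hk => ?_⟩
  set V := (e + 1) * v with hV
  obtain ⟨L, hL1, hL2, hL3⟩ := growth h.support k e v hk he hv hbig
  have hI : h.support.Nonempty := support_nonempty.mpr hm.ne_zero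
  set S := SS h.support L
  set S' := SS h.support (L - V)
  have hS0 : S.Nonempty := SS_nonempty hI _
  have hSpos : 0 < S.card := hS0.card_pos
  have hSS : ∀ s ∈ S', ∀ t ∈ (h ^ V).support, s + t ∈ S := by
    intro s hs t ht
    have := Finset.add_mem_add hs (support_pow_subset h V ht)
    rw [SS_add, Nat.sub_add_cancel hL1] at this
    exact this
  have hle : S'.card ≤ S.card := SS_card_mono' hI (Nat.sub_le _ _)
  have hcard : (p ^ V) ^ (S.card - S'.card) < (p ^ v + 1) ^ S.card := by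
    have h1 : (e + 1) * (S.card - S'.card) ≤ S.card := by
      have : (e + 1) * (S.card - S'.card) = (e + 1) * S.card - (e + 1) * S'.card :=
        Nat.mul_sub _ _ _
      rw [this]
      have h2 : (e + 1) * S.card = e * S.card + S.card := by ring
      omega
    calc (p ^ V) ^ (S.card - S'.card) = p ^ (v * ((e + 1) * (S.card - S'.card))) := by
          rw [← pow_mul]; congr 1; rw [hV]; ring
      _ ≤ p ^ (v * S.card) := Nat.pow_le_pow_right (by omega) (Nat.mul_le_mul_left _ h1)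
      _ = (p ^ v) ^ S.card := by rw [pow_mul]
      _ < (p ^ v + 1) ^ S.card := Nat.pow_lt_pow_left (Nat.lt_succ_self _) hSpos.ne'
  obtain ⟨F, hF0, hFS, hFc, A, Q, hFAQ⟩ :=
    pigeon (h ^ V) (hm.pow V) S S' hSS (p ^ v + 1) (p ^ V) (by positivity) hcard
  have hScard : S.card ≤ 2 ^ v := by
    calc S.card ≤ (L + 1) ^ h.support.card := SS_card_le _ _
      _ ≤ (L + 1) ^ k := Nat.pow_le_pow_right (by omega) hk
      _ ≤ (V * V + 1) ^ k := Nat.pow_le_pow_left (Nat.succ_le_succ hL2) k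
      _ ≤ 2 ^ v := hbig
  have hFcard : F.support.card ≤ 2 ^ v := (Finset.card_le_card hFS).trans hScard
  refine ⟨F, hF0, ?_, ?_, hFcard, A, Q, hFAQ⟩
  · have hmem := hFS (natDegree_mem_support_of_nonzero hF0)
    have h1 := SS_le (I := h.support) (n := h.natDegree)
      (fun i hi => le_natDegree_of_mem_supp i hi) L _ hmem
    exact h1.trans (Nat.mul_le_mul_right _ hL2)
  · have h1 : l1 F ≤ F.support.card * (p : ℝ) ^ v := by
      unfold l1
      have : ∀ i ∈ F.support, |(F.coeff i : ℝ)| ≤ (p : ℝ) ^ v := by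
        intro i _
        have h2 := hFc i
        have h3 : |F.coeff i| ≤ ((p ^ v : ℕ) : ℤ) := by push_cast at h2 ⊢; omega
        have h4 : ((|F.coeff i| : ℤ) : ℝ) ≤ (((p ^ v : ℕ) : ℤ) : ℝ) := by exact_mod_cast h3
        push_cast at h4
        exact h4
      have := Finset.sum_le_card_nsmul _ _ _ this
      simpa using this
    calc l1 F ≤ F.support.card * (p : ℝ) ^ v := h1
      _ ≤ (2 : ℝ) ^ v * (p : ℝ) ^ v := by
          gcongr
          exact_mod_cast hFcard
      _ ≤ (p : ℝ) ^ v * (p : ℝ) ^ v := by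
          gcongr
          exact_mod_cast hp
      _ = (p : ℝ) ^ (2 * v) := by rw [← pow_add]; congr 1; ring

/-- monic integral lift of a polynomial mod p with the same support -/
lemma exists_lift (p : ℕ) [Fact p.Prime] (H : (ZMod p)[X]) (hH : H ≠ 0) :
    ∃ h : ℤ[X], h.Monic ∧ h.support = H.support ∧ h.natDegree = H.natDegree ∧
      h.map (Int.castRingHom (ZMod p)) = C (H.leadingCoeff⁻¹) * H := by
  have hlc : H.leadingCoeff ≠ 0 := leadingCoeff_ne_zero.mpr hH
  set H1 : (ZMod p)[X] := C (H.leadingCoeff⁻¹) * H with hH1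
  let h : ℤ[X] := ∑ i ∈ H.support, monomial i (((H1.coeff i).val : ℕ) : ℤ)
  have hcoeff : ∀ n, h.coeff n = (((H1.coeff n).val : ℕ) : ℤ) := by
    intro n
    simp only [h, finsetSum_coeff, coeff_monomial]
    rw [Finset.sum_ite_eq']
    split_ifs with hn
    · rfl
    · rw [notMem_support_iff] at hn
      rw [hH1, coeff_C_mul, hn]; simp
  have hsupp : h.support = H.support := by
    ext n
    rw [mem_support_iff, mem_support_iff, hcoeff, hH1, coeff_C_mul, Nat.cast_ne_zero, Ne,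
      ZMod.val_eq_zero, mul_eq_zero]
    have : H.leadingCoeff⁻¹ ≠ 0 := inv_ne_zero hlc
    tauto
  have hnd : h.natDegree = H.natDegree := by
    rw [natDegree_eq_support_max', natDegree_eq_support_max']
    · simp only [hsupp]
    · exact hH
    · intro h0
      apply hH
      rw [← support_eq_empty, ← hsupp, h0, support_zero]
  refine ⟨h, ?_, hsupp, hnd, ?_⟩
  · rw [Monic, leadingCoeff, hnd, hcoeff, hH1, coeff_C_mul]
    have : H.leadingCoeff⁻¹ * H.coeff H.natDegree = 1 := inv_mul_cancel₀ hlc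
    rw [this]
    have : Fact (1 < p) := ⟨(Fact.out : p.Prime).one_lt⟩
    rw [ZMod.val_one]; rfl
  · ext n
    rw [coeff_map, hcoeff]
    simp

end Pool.Agent.Lib.MP_7ab245_nt
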