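import Mathlib
import Pool.Agent.Lib.MP_7ab245_nt.Res
import Pool.Agent.Lib.MP_7ab245_nt.Dob

/-! p-adic lower bound for resultants under a divisibility condition mod `p`
which only concerns a factor. -/

set_option autoImplicit false

open Polynomial

namespace Pool.Agent.Lib.MP_7ab245_nt

section basics

variable (p : ℕ) [hp : Fact p.Prime]

lemma norm_intCast_eq (n : ℤ) : ‖(n : PadicAlgCl p)‖ = ‖(n : ℚ_[p])‖ := by
  rw [← PadicAlgCl.norm_extends, map_intCast]

lemma norm_intCast_le_one (n : ℤ) : ‖(n : PadicAlgCl p)‖ ≤ 1 := by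
  rw [norm_intCast_eq]; exact Padic.norm_int_le_one n

lemma norm_p_eq : ‖(p : PadicAlgCl p)‖ = (p : ℝ)⁻¹ := by
  have := norm_intCast_eq p (p : ℤ)
  push_cast at this
  rw [this, Padic.norm_p]

lemma norm_eval_int_le_one (P : ℤ[X]) (β : PadicAlgCl p) (hβ : ‖β‖ ≤ 1) :
    ‖(P.map (Int.castRingHom (PadicAlgCl p))).eval β‖ ≤ 1 := by
  rw [eval_map, eval₂_eq_sum, Polynomial.sum_def]
  refine IsUltrametricDist.norm_sum_le_of_forall_le_of_nonneg zero_le_one fun i _ => ?_
  rw [norm_mul, norm_pow]
  have h1 : ‖(Int.castRingHom (PadicAlgCl p)) (P.coeff i)‖ ≤ 1 := norm_intCast_le_one p _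
  have h2 : ‖β‖ ^ i ≤ 1 := pow_le_one₀ (norm_nonneg _) hβ
  calc _ ≤ (1 : ℝ) * 1 := by gcongr
    _ = 1 := by norm_num

lemma norm_root_le_one (g : ℤ[X]) (hg : g.Monic) (β : PadicAlgCl p)
    (hβ : (g.map (Int.castRingHom (PadicAlgCl p))).eval β = 0) : ‖β‖ ≤ 1 := by
  by_contra hcon
  push Not at hcon
  set φ := Int.castRingHom (PadicAlgCl p)
  have hgm : (g.map φ).Monic := hg.map _
  set d := (g.map φ).natDegree with hd
  have h1 : β ^ d = - ∑ i ∈ Finset.range d, (g.map φ).coeff i * β ^ i := by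
    have := hgm.as_sum
    rw [this, eval_add, eval_pow, eval_X, eval_finsetSum] at hβ
    simp only [eval_mul, eval_C, eval_pow, eval_X] at hβ
    exact eq_neg_of_add_eq_zero_left hβ
  have hd0 : d ≠ 0 := by
    intro h0
    have : g.map φ = 1 := hgm.natDegree_eq_zero.mp h0
    rw [this] at hβ
    simp at hβ
  have h2 : ‖β‖ ^ d ≤ ‖β‖ ^ (d - 1) := by
    rw [← norm_pow, h1, norm_neg]
    refine IsUltrametricDist.norm_sum_le_of_forall_le_of_nonneg (by positivity) fun i hi => ?_
    rw [Finset.mem_range] at hi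
    rw [norm_mul, norm_pow, coeff_map]
    have h3 : ‖φ (g.coeff i)‖ ≤ 1 := norm_intCast_le_one p _
    calc ‖φ (g.coeff i)‖ * ‖β‖ ^ i ≤ 1 * ‖β‖ ^ (d - 1) := by
          gcongr
          · exact hcon.le
          · omega
      _ = _ := one_mul _
  have h4 : ‖β‖ ^ (d - 1) < ‖β‖ ^ d := pow_lt_pow_right₀ hcon (by omega)
  exact absurd h2 (not_le.mpr h4)

/-- from a small `p`-adic norm to a large integer -/
lemma le_abs_of_norm_le (N : ℤ) (hN : N ≠ 0) (m : ℕ)
    (h : ‖(N : PadicAlgCl p)‖ ≤ ((p : ℝ)⁻¹) ^ m) : (p : ℝ) ^ m ≤ |(N : ℝ)| := by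
  rw [norm_intCast_eq] at h
  have h1 : ((p : ℝ)⁻¹) ^ m = (p : ℝ) ^ (-m : ℤ) := by
    rw [zpow_neg, zpow_natCast, inv_pow]
  rw [h1, Padic.norm_int_le_pow_iff_dvd] at h
  have h2 := Int.le_of_dvd (abs_pos.mpr hN) ((dvd_abs _ _).mpr h)
  calc (p : ℝ) ^ m = (((p : ℤ) ^ m : ℤ) : ℝ) := by push_cast; rfl
    _ ≤ ((|N| : ℤ) : ℝ) := by exact_mod_cast h2
    _ = |(N : ℝ)| := by push_cast; rfl

end basics

section algebra

variable {K : Type*} [Field K]

/-- The key algebraic identity. `β` are the distinct roots of `g`; `δ c = 1` or `p`. -/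
lemma key_identity (p : ℕ) (d : ℕ) (g h : ℤ[X]) (hg : g.Monic) (hgd : g.natDegree = d)
    (β : Fin d → K) (hβ : Function.Injective β)
    (hroot : ∀ i, (g.map (Int.castRingHom K)).eval (β i) = 0)
    (q : Fin d → ℤ[X]) (hqm : ∀ c, (q c).Monic) (hqd : ∀ c, (q c).natDegree = c)
    (a b : Fin d → ℤ[X]) (hb : ∀ c, (b c).natDegree < d) (δ : Fin d → ℤ)
    (hha : ∀ i c, (h.map (Int.castRingHom K)).eval (β i) * ((q c).map (Int.castRingHom K)).eval (β i)
      = (δ c : K) * ((a c).map (Int.castRingHom K)).eval (β i))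
    (hpb : ∀ c, C (p : ℤ) * q c = C (δ c) * b c) :
    ∃ Ψ : ℤ[X], ∏ i, (C ((h.map (Int.castRingHom K)).eval (β i)) + C (p : K) * X) =
      C ((∏ c, δ c : ℤ) : K) * Ψ.map (Int.castRingHom K) := by
  classical
  set φ := Int.castRingHom K with hφ
  -- reduce `a` modulo `g`
  set a' : Fin d → ℤ[X] := fun c => a c %ₘ g with ha'
  have ha'd : ∀ c, (a' c).natDegree < d := by
    intro c
    have hg1 : g ≠ 1 := by
      intro h1
      rw [h1, natDegree_one] at hgd
      exact absurd c.2 (by omega)
    rw [← hgd]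
    exact natDegree_modByMonic_lt _ hg hg1
  have ha'e : ∀ i c, ((a' c).map φ).eval (β i) = ((a c).map φ).eval (β i) := by
    intro i c
    have := modByMonic_add_div (a c) g
    conv_rhs => rw [← this]
    rw [Polynomial.map_add, Polynomial.map_mul, eval_add, eval_mul, hroot i, zero_mul, add_zero]
  -- matrices over `K[X]`
  let Van : Matrix (Fin d) (Fin d) K[X] := Matrix.of fun i k => C (β i ^ (k : ℕ))
  let U : Matrix (Fin d) (Fin d) K[X] := Matrix.of fun k c => C (φ ((q c).coeff k))
  let KZ : Matrix (Fin d) (Fin d) ℤ[X] := Matrix.of fun k c =>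
    C ((a' c).coeff k) + C ((b c).coeff k) * X
  let KK : Matrix (Fin d) (Fin d) K[X] := KZ.map (mapRingHom φ)
  let y : Fin d → K[X] := fun i => C ((h.map φ).eval (β i)) + C (p : K) * X
  have hexp : ∀ (P : ℤ[X]), P.natDegree < d → ∀ i,
      (P.map φ).eval (β i) = ∑ k : Fin d, β i ^ (k : ℕ) * φ (P.coeff k) := by
    intro P hP i
    rw [eval_eq_sum_range' (n := d) ((natDegree_map_le).trans_lt hP)]
    rw [Finset.sum_range]
    refine Finset.sum_congr rfl fun k _ => ?_
    rw [coeff_map, mul_comm]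
  have hVU : ∀ i c, (Van * U) i c = C (((q c).map φ).eval (β i)) := by
    intro i c
    rw [Matrix.mul_apply, hexp (q c) (by rw [hqd c]; exact c.2) i, map_sum]
    refine Finset.sum_congr rfl fun k _ => ?_
    simp only [Van, U, Matrix.of_apply]
    rw [← C_mul]
  have hVK : ∀ i c, (Van * KK) i c =
      C (((a c).map φ).eval (β i)) + C (((b c).map φ).eval (β i)) * X := by
    intro i c
    rw [Matrix.mul_apply, ← ha'e i c, hexp (a' c) (ha'd c) i, hexp (b c) (hb c) i, map_sum, map_sum,
      Finset.sum_mul, ← Finset.sum_add_distrib]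
    refine Finset.sum_congr rfl fun k _ => ?_
    have hKK : KK k c = C (φ ((a' c).coeff k)) + C (φ ((b c).coeff k)) * X := by
      simp [KK, KZ]
    rw [hKK]
    simp only [Van, Matrix.of_apply]
    rw [mul_add, ← C_mul, ← mul_assoc, ← C_mul]
  have hmat : Matrix.diagonal y * (Van * U) = (Van * KK) * Matrix.diagonal (fun c => C (δ c : K)) := by
    refine Matrix.ext fun i c => ?_
    rw [Matrix.diagonal_mul, Matrix.mul_diagonal, hVU, hVK]
    simp only [y]
    have h1 := hha i c
    have h2 : (p : K) * ((q c).map φ).eval (β i) = (δ c : K) * ((b c).map φ).eval (β i) := by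
      have := congrArg (fun P : ℤ[X] => (P.map φ).eval (β i)) (hpb c)
      simpa [hφ] using this
    calc (C ((h.map φ).eval (β i)) + C (p : K) * X) * C (((q c).map φ).eval (β i))
        = C ((h.map φ).eval (β i) * ((q c).map φ).eval (β i)) +
          C ((p : K) * ((q c).map φ).eval (β i)) * X := by
            rw [C_mul, C_mul]; ring
      _ = C ((δ c : K) * ((a c).map φ).eval (β i)) +
          C ((δ c : K) * ((b c).map φ).eval (β i)) * X := by rw [h1, h2]
      _ = _ := by rw [C_mul, C_mul]; ring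
  have hdetU : U.det = 1 := by
    have hU : U.IsUpperTriangular := by
      intro i j hij
      simp only [id] at hij
      simp only [U, Matrix.of_apply]
      rw [coeff_eq_zero_of_natDegree_lt, map_zero, C_0]
      rw [hqd j]
      exact hij
    rw [Matrix.det_of_isUpperTriangular hU]
    refine Finset.prod_eq_one fun i _ => ?_
    simp only [U, Matrix.of_apply]
    have : (q i).coeff i = 1 := by
      have := hqm i
      rw [Monic, leadingCoeff, hqd i] at this
      exact this
    rw [this, map_one, C_1]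
  have hdetV : Van.det ≠ 0 := by
    have hV : Van = (Matrix.vandermonde β).map (C : K →+* K[X]) := by
      refine Matrix.ext fun i k => ?_
      simp only [Van, Matrix.of_apply, Matrix.map_apply, Matrix.vandermonde_apply]
    rw [hV, ← RingHom.mapMatrix_apply, ← RingHom.map_det]
    intro h0
    rw [C_eq_zero] at h0
    exact (Matrix.det_vandermonde_ne_zero_iff.mpr hβ) h0
  have hdet := congrArg Matrix.det hmat
  rw [Matrix.det_mul, Matrix.det_mul, Matrix.det_mul, Matrix.det_mul, Matrix.det_diagonal,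
    Matrix.det_diagonal, hdetU, mul_one] at hdet
  have hfin : ∏ i, y i = (∏ c, C (δ c : K)) * KK.det := by
    apply mul_right_cancel₀ hdetV
    rw [hdet]; ring
  refine ⟨KZ.det, ?_⟩
  rw [hfin]
  congr 1
  · rw [← map_prod]
    congr 1
    push_cast
    rfl
  · have : KK.det = (mapRingHom φ) KZ.det := by
      rw [RingHom.map_det]; rfl
    rw [this, coe_mapRingHom]

end algebra

section gauss

variable (p : ℕ) [hp : Fact p.Prime]

lemma gaussNorm_prod {ι : Type*} (s : Finset ι) (f : ι → (PadicAlgCl p)[X]) :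
    (∏ i ∈ s, f i).gaussNorm (NormedField.toAbsoluteValue (PadicAlgCl p)) 1 =
      ∏ i ∈ s, (f i).gaussNorm (NormedField.toAbsoluteValue (PadicAlgCl p)) 1 := by
  classical
  induction s using Finset.induction_on with
  | empty =>
    rw [Finset.prod_empty, Finset.prod_empty, ← C_1, gaussNorm_C, map_one]
  | insert a s ha ih =>
    rw [Finset.prod_insert ha, Finset.prod_insert ha, gaussNorm_mul _ one_pos, ih]
    exact PadicAlgCl.isNonarchimedean p

/-- bound for the product of `max ‖h β‖ ‖p‖` over the roots of `g` -/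
lemma prod_max_le (g h : ℤ[X]) (hg : g.Monic) (hirr : Irreducible g)
    (G : (ZMod p)[X]) (hGg : G ∣ g.map (Int.castRingHom (ZMod p)))
    (hGh : G ∣ h.map (Int.castRingHom (ZMod p))) :
    ((g.map (Int.castRingHom (PadicAlgCl p))).roots.map
      (fun β => max ‖(h.map (Int.castRingHom (PadicAlgCl p))).eval β‖ (p : ℝ)⁻¹)).prod ≤
      ((p : ℝ)⁻¹) ^ G.natDegree := by
  classical
  set φ := Int.castRingHom (PadicAlgCl p) with hφ
  set ψ := Int.castRingHom (ZMod p) with hψ
  have hψs : Function.Surjective ψ := ZMod.ringHom_surjective ψ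
  set d := g.natDegree with hd
  set r := G.natDegree with hr
  have hgψ : (g.map ψ).Monic := hg.map ψ
  have hgψd : (g.map ψ).natDegree = d := hg.natDegree_map ψ
  obtain ⟨U0, hU0⟩ := hGg
  obtain ⟨W0, hW0⟩ := hGh
  have hG0 : G ≠ 0 := by
    rintro rfl
    rw [zero_mul] at hU0
    exact hgψ.ne_zero hU0
  have hU00 : U0 ≠ 0 := by
    rintro rfl
    rw [mul_zero] at hU0
    exact hgψ.ne_zero hU0
  have hrd : r + U0.natDegree = d := by
    rw [← hgψd, hU0, natDegree_mul hG0 hU00]
  set c0 := G.leadingCoeff with hc0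
  have hc00 : c0 ≠ 0 := leadingCoeff_ne_zero.mpr hG0
  set U1 : (ZMod p)[X] := C c0 * U0 with hU1
  have hU1m : U1.Monic := by
    rw [Monic, hU1, leadingCoeff_mul, leadingCoeff_C, hc0, ← leadingCoeff_mul, ← hU0]
    exact hgψ
  have hU1d : U1.natDegree = U0.natDegree := by rw [hU1, natDegree_C_mul hc00]
  obtain ⟨u, hu, hud, hum⟩ := lifts_and_natDegree_eq_and_monic (f := ψ) (p := U1)
    (by rw [mem_lifts]; exact map_surjective ψ hψs U1) hU1m
  obtain ⟨w, hw⟩ := map_surjective ψ hψs (C c0 * W0)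
  obtain ⟨s, hs⟩ := exists_C_mul_of_map_eq_zero p (h * u - g * w) (by
    rw [Polynomial.map_sub, Polynomial.map_mul, Polynomial.map_mul, hu, hw, hW0, hU1, hU0]
    ring)
  -- indexing of the roots
  have hsplit : (g.map φ).Splits := IsAlgClosed.splits _
  have hnodup : (g.map φ).roots.Nodup := by
    apply nodup_roots
    have hirrQ : Irreducible (g.map (algebraMap ℤ ℚ)) :=
      (hg.irreducible_iff_irreducible_map_fraction_map (K := ℚ)).mp hirr
    have hsep := hirrQ.separable
    have := hsep.map (f := algebraMap ℚ (PadicAlgCl p))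
    rw [Polynomial.map_map] at this
    have heq : (algebraMap ℚ (PadicAlgCl p)).comp (algebraMap ℤ ℚ) = φ := RingHom.ext_int _ _
    rwa [heq] at this
  have hcardm : (g.map φ).roots.card = d := by
    rw [splits_iff_card_roots.mp hsplit, hg.natDegree_map]
  set S := (g.map φ).roots.toFinset with hS
  have hScard : S.card = d := by
    rw [hS, Multiset.toFinset_card_of_nodup hnodup, hcardm]
  have hSval : S.val = (g.map φ).roots := by
    rw [hS, Multiset.toFinset_val, hnodup.dedup]
  let e : Fin d ≃ S := (finCongr hScard.symm).trans S.equivFin.symm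
  let β : Fin d → PadicAlgCl p := fun i => (e i : PadicAlgCl p)
  have hβinj : Function.Injective β := fun i j hij => e.injective (Subtype.ext hij)
  have hβroot : ∀ i, (g.map φ).eval (β i) = 0 := by
    intro i
    have h1 : (e i : PadicAlgCl p) ∈ S.val := (e i).2
    rw [hSval] at h1
    exact (mem_roots'.mp h1).2
  have hprod : ∀ f : PadicAlgCl p → ℝ, ((g.map φ).roots.map f).prod = ∏ i, f (β i) := by
    intro f
    have h1 : ∏ x : S, f x = ∏ x ∈ S, f x := Finset.prod_coe_sort S f
    have h2 : ∏ i, f (β i) = ∏ x : S, f x := Equiv.prod_comp e (fun x : S => f x)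
    rw [h2, h1, ← hSval]
    rfl
  -- the data
  set m := d - r with hm
  have hum' : u.natDegree = m := by rw [hud, hU1d]; omega
  let q : Fin d → ℤ[X] := fun c => if (c : ℕ) < m then X ^ (c : ℕ) else X ^ ((c : ℕ) - m) * u
  let a : Fin d → ℤ[X] := fun c => if (c : ℕ) < m then h * X ^ (c : ℕ) else s * X ^ ((c : ℕ) - m)
  let b : Fin d → ℤ[X] := fun c =>
    if (c : ℕ) < m then C (p : ℤ) * X ^ (c : ℕ) else X ^ ((c : ℕ) - m) * u
  let δ : Fin d → ℤ := fun c => if (c : ℕ) < m then 1 else p
  have hqm : ∀ c, (q c).Monic := by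
    intro c
    simp only [q]
    split_ifs
    · exact monic_X_pow _
    · exact (monic_X_pow _).mul hum
  have hqd : ∀ c, (q c).natDegree = c := by
    intro c
    simp only [q]
    split_ifs with hc
    · exact natDegree_X_pow _
    · rw [(monic_X_pow _).natDegree_mul hum, natDegree_X_pow, hum']
      omega
  have hbd : ∀ c, (b c).natDegree < d := by
    intro c
    simp only [b]
    split_ifs with hc
    · exact (natDegree_C_mul_X_pow_le _ _).trans_lt c.2
    · rw [(monic_X_pow _).natDegree_mul hum, natDegree_X_pow, hum']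
      omega
  have hha : ∀ i c, (h.map φ).eval (β i) * ((q c).map φ).eval (β i)
      = (δ c : PadicAlgCl p) * ((a c).map φ).eval (β i) := by
    intro i c
    simp only [q, a, δ]
    split_ifs with hc
    · simp
    · have h1 := congrArg (fun P : ℤ[X] => (P.map φ).eval (β i)) hs
      simp only [Polynomial.map_sub, Polynomial.map_mul, eval_sub, eval_mul, hβroot i, zero_mul,
        sub_zero, map_C, eval_C] at h1
      rw [Polynomial.map_mul, eval_mul, Polynomial.map_mul, eval_mul]
      calc (h.map φ).eval (β i) * (((X ^ ((c : ℕ) - m) : ℤ[X]).map φ).eval (β i) *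
              (u.map φ).eval (β i))
          = ((h.map φ).eval (β i) * (u.map φ).eval (β i)) *
              ((X ^ ((c : ℕ) - m) : ℤ[X]).map φ).eval (β i) := by ring
        _ = _ := by rw [h1]; simp [hφ]; ring
  have hpb : ∀ c, C (p : ℤ) * q c = C (δ c) * b c := by
    intro c
    simp only [q, b, δ]
    split_ifs with hc
    · simp
    · rfl
  obtain ⟨Ψ, hΨ⟩ := key_identity p d g h hg rfl β hβinj hβroot q hqm hqd a b hbd δ hha hpb
  have hδ : ∏ c, δ c = (p : ℤ) ^ r := by
    have h1 : ∏ c : Fin d, δ c = ∏ c ∈ Finset.range d, (if c < m then (1 : ℤ) else p) :=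
      (Fin.prod_univ_eq_prod_range (fun c => if c < m then (1 : ℤ) else p) d)
    have h2 : d = m + r := by omega
    rw [h1]
    rw [h2, Finset.prod_range_add]
    rw [Finset.prod_eq_one (s := Finset.range m)]
    · rw [one_mul]
      rw [Finset.prod_congr rfl (g := fun _ => (p : ℤ))]
      · simp
      · intro x _
        rw [if_neg (by omega)]
    · intro x hx
      rw [Finset.mem_range] at hx
      rw [if_pos hx]
  set v := NormedField.toAbsoluteValue (PadicAlgCl p) with hv
  have hna : IsNonarchimedean v := PadicAlgCl.isNonarchimedean p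
  rw [hprod]
  have hle : ∀ i, max ‖(h.map φ).eval (β i)‖ (p : ℝ)⁻¹ ≤
      (C ((h.map φ).eval (β i)) + C (p : PadicAlgCl p) * X).gaussNorm v 1 := by
    intro i
    apply max_le
    · have := le_gaussNorm (p := C ((h.map φ).eval (β i)) + C (p : PadicAlgCl p) * X) v
        (zero_le_one (α := ℝ)) 0
      rw [pow_zero, mul_one] at this
      simp only [coeff_add, coeff_C_zero, coeff_C_mul, coeff_X_zero, mul_zero, add_zero] at this
      exact this
    · have := le_gaussNorm (p := C ((h.map φ).eval (β i)) + C (p : PadicAlgCl p) * X) v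
        (zero_le_one (α := ℝ)) 1
      rw [one_pow, mul_one] at this
      simp only [coeff_add, coeff_C, one_ne_zero, if_false, zero_add, coeff_C_mul, coeff_X_one,
        mul_one] at this
      calc (p : ℝ)⁻¹ = ‖(p : PadicAlgCl p)‖ := (norm_p_eq p).symm
        _ ≤ _ := this
  calc ∏ i, max ‖(h.map φ).eval (β i)‖ (p : ℝ)⁻¹
      ≤ ∏ i, (C ((h.map φ).eval (β i)) + C (p : PadicAlgCl p) * X).gaussNorm v 1 := by
        apply Finset.prod_le_prod
        · intro i _
          exact le_max_of_le_right (by positivity)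
        · intro i _; exact hle i
    _ = (∏ i, (C ((h.map φ).eval (β i)) + C (p : PadicAlgCl p) * X)).gaussNorm v 1 :=
        (gaussNorm_prod p _ _).symm
    _ = (C (((p : ℤ) ^ r : ℤ) : PadicAlgCl p) * Ψ.map φ).gaussNorm v 1 := by rw [hΨ, hδ]
    _ = ‖(((p : ℤ) ^ r : ℤ) : PadicAlgCl p)‖ * (Ψ.map φ).gaussNorm v 1 := by
        rw [gaussNorm_mul hna one_pos, gaussNorm_C]; rfl
    _ ≤ ((p : ℝ)⁻¹) ^ r * 1 := by
        have h1 : ‖(((p : ℤ) ^ r : ℤ) : PadicAlgCl p)‖ = ((p : ℝ)⁻¹) ^ r := by
          push_cast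
          rw [norm_pow, norm_p_eq]
        rw [h1]
        gcongr
        obtain ⟨i, hi⟩ := exists_eq_gaussNorm v 1 (Ψ.map φ)
        rw [hi, one_pow, mul_one, coeff_map]
        exact norm_intCast_le_one p _
    _ = _ := mul_one _

/-- The `p`-adic lower bound for the resultant. -/
theorem partial_resultant (g h F A Q : ℤ[X]) (hg : g.Monic) (hirr : Irreducible g)
    (V : ℕ) (hF : F = C ((p ^ V : ℕ) : ℤ) * A + h ^ V * Q) (hgF : ¬ g ∣ F)
    (G : (ZMod p)[X]) (hGg : G ∣ g.map (Int.castRingHom (ZMod p)))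
    (hGh : G ∣ h.map (Int.castRingHom (ZMod p))) (E : ℕ) (hE : F.natDegree ≤ E) :
    (p : ℝ) ^ (V * G.natDegree) ≤ |((resultant g F g.natDegree E : ℤ) : ℝ)| := by
  set φ := Int.castRingHom (PadicAlgCl p) with hφ
  have hinj : Function.Injective φ := φ.injective_int
  have hdeg : (g.map φ).natDegree = g.natDegree := natDegree_map_eq_of_injective hinj g
  have hFdeg : (F.map φ).natDegree ≤ E := by
    rwa [natDegree_map_eq_of_injective hinj]
  have hs : (g.map φ).Splits := IsAlgClosed.splits _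
  have key := resultant_eq_prod_eval (g.map φ) (F.map φ) E hFdeg hs
  rw [hdeg, resultant_map_map, (hg.map φ).leadingCoeff, one_pow, one_mul] at key
  apply le_abs_of_norm_le p _ (resultant_ne_zero' g F hg hirr hgF E hE)
  have h1 : ((resultant g F g.natDegree E : ℤ) : PadicAlgCl p) =
      φ (resultant g F g.natDegree E) := rfl
  rw [h1, key]
  have h2 : ∀ β ∈ (g.map φ).roots, ‖(F.map φ).eval β‖ ≤
      (max ‖(h.map φ).eval β‖ (p : ℝ)⁻¹) ^ V := by
    intro β hβ
    have hβ0 : (g.map φ).eval β = 0 := (mem_roots'.mp hβ).2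
    have hβ1 := norm_root_le_one p g hg β hβ0
    rw [hF]
    simp only [Polynomial.map_add, Polynomial.map_mul, Polynomial.map_pow, map_C, eval_add,
      eval_mul, eval_pow, eval_C]
    refine (IsUltrametricDist.norm_add_le_max _ _).trans (max_le ?_ ?_)
    · rw [norm_mul]
      have h3 : ‖φ ((p ^ V : ℕ) : ℤ)‖ = ((p : ℝ)⁻¹) ^ V := by
        have : φ ((p ^ V : ℕ) : ℤ) = (p : PadicAlgCl p) ^ V := by simp [hφ]
        rw [this, norm_pow, norm_p_eq]
      rw [h3]
      calc ((p : ℝ)⁻¹) ^ V * ‖(A.map φ).eval β‖ ≤ ((p : ℝ)⁻¹) ^ V * 1 := by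
            gcongr; exact norm_eval_int_le_one p A β hβ1
        _ = ((p : ℝ)⁻¹) ^ V := mul_one _
        _ ≤ _ := by gcongr; exact le_max_right _ _
    · rw [norm_mul, norm_pow]
      calc ‖(h.map φ).eval β‖ ^ V * ‖(Q.map φ).eval β‖ ≤ ‖(h.map φ).eval β‖ ^ V * 1 := by
            gcongr; exact norm_eval_int_le_one p Q β hβ1
        _ = ‖(h.map φ).eval β‖ ^ V := mul_one _
        _ ≤ _ := by gcongr; exact le_max_left _ _
  have h3 : ‖(Multiset.map (fun x => eval x (F.map φ)) (g.map φ).roots).prod‖ ≤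
      (((g.map φ).roots.map (fun β => max ‖(h.map φ).eval β‖ (p : ℝ)⁻¹)).prod) ^ V := by
    revert h2
    generalize (g.map φ).roots = s
    induction s using Multiset.induction_on with
    | empty => intro _; simp
    | cons a s ih =>
      intro h2
      rw [Multiset.map_cons, Multiset.prod_cons, norm_mul, Multiset.map_cons, Multiset.prod_cons,
        mul_pow]
      apply mul_le_mul (h2 a (Multiset.mem_cons_self a s))
        (ih fun β hβ => h2 β (Multiset.mem_cons_of_mem hβ)) (norm_nonneg _)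
      exact pow_nonneg (le_max_of_le_right (by positivity)) _
  refine h3.trans ?_
  rw [mul_comm V, pow_mul]
  have h4 : 0 ≤ ((g.map φ).roots.map (fun β => max ‖(h.map φ).eval β‖ (p : ℝ)⁻¹)).prod := by
    apply Multiset.prod_nonneg
    intro x hx
    rw [Multiset.mem_map] at hx
    obtain ⟨β, _, rfl⟩ := hx
    exact le_max_of_le_right (by positivity)
  exact pow_le_pow_left₀ h4 (prod_max_le p g h hg hirr G hGg hGh) V

end gauss

end Pool.Agent.Lib.MP_7ab245_nt
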