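import Mathlib
import Pool.Agent.Lib.MP_7ab245_nt.Res
import Pool.Agent.Lib.MP_7ab245_nt.Dob
import Pool.Agent.Lib.MP_7ab245_nt.Packing

/-! If an irreducible polynomial of small Mahler measure divides a sparse polynomial, then it
divides a nonzero polynomial with the same set of exponents and with small coefficients. -/

set_option autoImplicit false

open Polynomial Module

namespace Pool.Agent.Lib.MP_7ab245_nt

lemma prod_small (Δ : ℤ[X]) (E : ℕ) (s : Multiset ℂ)
    (h : ∀ a ∈ s, ‖(Δ.map (Int.castRingHom ℂ)).eval a‖ ≤ (1 / 4) * (max 1 ‖a‖) ^ E) :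
    ‖(s.map (fun x => (Δ.map (Int.castRingHom ℂ)).eval x)).prod‖ ≤
      (1 / 4) ^ s.card * (s.map (fun a => max 1 ‖a‖)).prod ^ E := by
  induction s using Multiset.induction_on with
  | empty => simp
  | cons a s ih =>
    rw [Multiset.map_cons, Multiset.prod_cons, norm_mul, Multiset.card_cons,
      Multiset.map_cons, Multiset.prod_cons, mul_pow, pow_succ']
    have h3 := h a (Multiset.mem_cons_self a s)
    have h4 := ih (fun b hb => h b (Multiset.mem_cons_of_mem hb))
    calc _ ≤ ((1 / 4) * (max 1 ‖a‖) ^ E) *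
          ((1 / 4) ^ s.card * ((s.map (fun a => max 1 ‖a‖)).prod ^ E)) := by
          apply mul_le_mul h3 h4 (norm_nonneg _)
          positivity
      _ = _ := by ring

lemma exists_root_large (g Δ : ℤ[X]) (hg : g.Monic) (hirr : Irreducible g) (hΔ : ¬ g ∣ Δ)
    (hd : 0 < g.natDegree) (E : ℕ) (hE : Δ.natDegree ≤ E)
    (hM : MM g ^ E ≤ (2 : ℝ) ^ g.natDegree) :
    ∃ a ∈ (g.map (Int.castRingHom ℂ)).roots,
      (1 / 4) * (max 1 ‖a‖) ^ E ≤ ‖(Δ.map (Int.castRingHom ℂ)).eval a‖ := by
  by_contra hcon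
  push Not at hcon
  set φ := Int.castRingHom ℂ with hφ
  have hinj : Function.Injective φ := φ.injective_int
  have hdeg : (g.map φ).natDegree = g.natDegree := natDegree_map_eq_of_injective hinj g
  have hΔdeg : (Δ.map φ).natDegree ≤ E := by
    rwa [natDegree_map_eq_of_injective hinj]
  have hs : (g.map φ).Splits := IsAlgClosed.splits _
  have key := resultant_eq_prod_eval (g.map φ) (Δ.map φ) E hΔdeg hs
  rw [hdeg, resultant_map_map] at key
  have hlc : (g.map φ).leadingCoeff = 1 := (hg.map φ)
  have hcard : (g.map φ).roots.card = g.natDegree := by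
    rw [← hdeg]; exact (splits_iff_card_roots.mp hs)
  have hprod := prod_small Δ E (g.map φ).roots (fun a ha => (hcon a ha).le)
  have hMM : MM g = ‖(g.map φ).leadingCoeff‖ * ((g.map φ).roots.map (fun a => max 1 ‖a‖)).prod :=
    mahlerMeasure_eq_leadingCoeff_mul_prod_roots _
  rw [hlc, norm_one, one_mul] at hMM
  rw [hlc, one_pow, one_mul] at key
  have h1 : |((resultant g Δ g.natDegree E : ℤ) : ℝ)| = ‖φ (resultant g Δ g.natDegree E)‖ := by
    simp [hφ]
  have h2 := resultant_ne_zero' g Δ hg hirr hΔ E hE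
  have h3 : (1 : ℝ) ≤ |((resultant g Δ g.natDegree E : ℤ) : ℝ)| := by
    have : (1 : ℤ) ≤ |resultant g Δ g.natDegree E| := Int.one_le_abs h2
    have h4 : ((1 : ℤ) : ℝ) ≤ ((|resultant g Δ g.natDegree E| : ℤ) : ℝ) := by exact_mod_cast this
    push_cast at h4
    exact h4
  rw [h1, key] at h3
  rw [hcard, ← hMM] at hprod
  have h5 : (1 / 4 : ℝ) ^ g.natDegree * MM g ^ E ≤ (1 / 4 : ℝ) ^ g.natDegree * 2 ^ g.natDegree := by
    gcongr
  have h6 : (1 / 4 : ℝ) ^ g.natDegree * 2 ^ g.natDegree = (1 / 2) ^ g.natDegree := by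
    rw [← mul_pow]; norm_num
  have h7 : (1 / 2 : ℝ) ^ g.natDegree < 1 := pow_lt_one₀ (by norm_num) (by norm_num) hd.ne'
  linarith

theorem small_relation (g : ℤ[X]) (hg : g.Monic) (hirr : Irreducible g) (F : ℤ[X]) (hF : F ≠ 0)
    (hgF : g ∣ F) (J E : ℕ) (hJ : F.support.card ≤ J) (hE : F.natDegree ≤ E)
    (hM : MM g ^ E ≤ (2 : ℝ) ^ g.natDegree) :
    ∃ F' : ℤ[X], F' ≠ 0 ∧ g ∣ F' ∧ F'.natDegree ≤ E ∧ F'.support.card ≤ J ∧
      l1 F' ≤ ((J * (9 * J) ^ J : ℕ) : ℝ) := by
  classical
  have hgd : 0 < g.natDegree := by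
    rcases Nat.eq_zero_or_pos g.natDegree with h | h
    · have := hg.natDegree_eq_zero.mp h
      rw [this] at hirr
      exact absurd hirr not_irreducible_one
    · exact h
  set φ := Int.castRingHom ℂ with hφ
  set S := F.support with hS
  set N := S.card with hN
  have hNpos : 0 < N := Finset.card_pos.mpr (support_nonempty.mpr hF)
  set T := (9 * N) ^ N with hT
  have hTpos : 0 < T := by positivity
  let ι := {z : ℂ // z ∈ (g.map φ).roots.toFinset}
  let w : ι → ℝ := fun i => ((max 1 ‖i.1‖) ^ E)⁻¹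
  have hwpos : ∀ i, 0 < w i := fun i => by
    have : (0 : ℝ) < max 1 ‖i.1‖ := lt_of_lt_of_le one_pos (le_max_left _ _)
    positivity
  let v : S → (ι → ℂ) := fun s i => (w i : ℂ) * i.1 ^ (s : ℕ)
  have hvnorm : ∀ s, ‖v s‖ ≤ 1 := by
    intro s
    rw [pi_norm_le_iff_of_nonneg zero_le_one]
    intro i
    have hm1 : (1 : ℝ) ≤ max 1 ‖i.1‖ := le_max_left _ _
    have hsE : (s : ℕ) ≤ E := (le_natDegree_of_mem_supp _ s.2).trans hE
    simp only [v, norm_mul, norm_pow, Complex.norm_real, Real.norm_eq_abs, abs_of_pos (hwpos i)]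
    simp only [w]
    rw [inv_mul_le_iff₀ (by positivity), mul_one]
    calc ‖i.1‖ ^ (s : ℕ) ≤ (max 1 ‖i.1‖) ^ (s : ℕ) := by gcongr; exact le_max_right _ _
      _ ≤ _ := pow_le_pow_right₀ hm1 hsE
  -- evaluation
  have heval : ∀ (c : S → ℤ) (P : ℤ[X]), P = ∑ s : S, monomial (s : ℕ) (c s) →
      ∀ i : ι, (∑ s : S, ((c s : ℤ) : ℝ) • v s) i = (w i : ℂ) * (P.map φ).eval i.1 := by
    intro c P hP i
    rw [Finset.sum_apply, hP, Polynomial.map_sum, eval_finsetSum, Finset.mul_sum]
    refine Finset.sum_congr rfl fun s _ => ?_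
    simp only [Pi.smul_apply, v, map_monomial, eval_monomial, Complex.real_smul]
    have h0 : φ (c s) = ((c s : ℤ) : ℂ) := rfl
    rw [h0]
    push_cast
    ring
  -- the span has small dimension
  let W : Submodule ℝ (ι → ℂ) := Submodule.span ℝ (Set.range v)
  have hrank : finrank ℝ W < N := by
    have hnli : ¬ LinearIndependent ℝ v := by
      intro hli
      rw [Fintype.linearIndependent_iff] at hli
      have hz : ∑ s : S, ((F.coeff (s : ℕ) : ℤ) : ℝ) • v s = 0 := by
        funext i
        rw [heval (fun s => F.coeff (s : ℕ)) F]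
        · have hi : i.1 ∈ (g.map φ).roots := by
            have := i.2
            rwa [Multiset.mem_toFinset] at this
          have hroot : (g.map φ).eval i.1 = 0 := (mem_roots'.mp hi).2
          obtain ⟨q, hq⟩ := hgF
          rw [hq, Polynomial.map_mul, eval_mul, hroot]
          simp
        · conv_lhs => rw [F.as_sum_support]
          rw [← Finset.sum_coe_sort]
      obtain ⟨s, hs⟩ := Finset.card_pos.mp hNpos
      have := hli _ hz ⟨s, hs⟩
      have h2 : F.coeff s = 0 := by exact_mod_cast this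
      exact (Polynomial.mem_support_iff.mp hs) h2
    rw [linearIndependent_iff_card_le_finrank_span, not_le, Fintype.card_coe] at hnli
    exact hnli
  -- the points
  let P : (S → Fin T) → ℤ[X] := fun c => ∑ s : S, monomial (s : ℕ) (((c s : ℕ) : ℤ))
  by_cases hcol : ∃ c c' : S → Fin T, c ≠ c' ∧ g ∣ P c - P c'
  · obtain ⟨c, c', hcc, hd⟩ := hcol
    have hcoeff : ∀ (c : S → Fin T) (n : ℕ), (P c).coeff n =
        if h : n ∈ S then (((c ⟨n, h⟩ : ℕ)) : ℤ) else 0 := by
      intro c n
      simp only [P, finsetSum_coeff, coeff_monomial]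
      split_ifs with h
      · rw [Finset.sum_eq_single ⟨n, h⟩]
        · simp
        · intro b _ hb
          rw [if_neg]
          intro hbn
          exact hb (Subtype.ext hbn)
        · intro h'; exact absurd (Finset.mem_univ _) h'
      · apply Finset.sum_eq_zero
        intro b _
        rw [if_neg]
        rintro rfl
        exact h b.2
    have hsub : (P c - P c').support ⊆ S := by
      intro n hn
      by_contra hnS
      rw [Polynomial.mem_support_iff, coeff_sub, hcoeff, hcoeff, dif_neg hnS, dif_neg hnS] at hn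
      exact hn (sub_self _)
    have hne : P c - P c' ≠ 0 := by
      intro h0
      apply hcc
      funext s
      have h1 : (P c - P c').coeff (s : ℕ) = 0 := by rw [h0]; simp
      rw [coeff_sub, hcoeff, hcoeff, dif_pos s.2, dif_pos s.2] at h1
      apply Fin.ext
      have : (((c s : ℕ)) : ℤ) = ((c' s : ℕ) : ℤ) := by
        have := sub_eq_zero.mp h1
        exact this
      exact_mod_cast this
    refine ⟨P c - P c', hne, hd, ?_, (Finset.card_le_card hsub).trans hJ, ?_⟩
    · have hmem := hsub (natDegree_mem_support_of_nonzero hne)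
      exact (le_natDegree_of_mem_supp _ hmem).trans hE
    · have h1 : l1 (P c - P c') ≤ (P c - P c').support.card * (T : ℝ) := by
        unfold l1
        have : ∀ i ∈ (P c - P c').support, |((P c - P c').coeff i : ℝ)| ≤ (T : ℝ) := by
          intro i hi
          have hiS := hsub hi
          rw [coeff_sub, hcoeff, hcoeff, dif_pos hiS, dif_pos hiS]
          have h3 := (c ⟨i, hiS⟩).2
          have h4 := (c' ⟨i, hiS⟩).2
          have h5 : |((c ⟨i, hiS⟩ : ℕ) : ℤ) - ((c' ⟨i, hiS⟩ : ℕ) : ℤ)| ≤ (T : ℤ) := by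
            rw [abs_le]; constructor <;> omega
          have h6 : ((|((c ⟨i, hiS⟩ : ℕ) : ℤ) - ((c' ⟨i, hiS⟩ : ℕ) : ℤ)| : ℤ) : ℝ) ≤ ((T : ℤ) : ℝ) := by
            exact_mod_cast h5
          rw [Int.cast_abs] at h6
          exact_mod_cast h6
        have := Finset.sum_le_card_nsmul _ _ _ this
        simpa using this
      refine h1.trans ?_
      have h2 : (P c - P c').support.card * T ≤ J * (9 * J) ^ J := by
        have h3 : (P c - P c').support.card ≤ J := (Finset.card_le_card hsub).trans hJ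
        have h4 : T ≤ (9 * J) ^ J := by
          rw [hT]
          calc (9 * N) ^ N ≤ (9 * J) ^ N := Nat.pow_le_pow_left (Nat.mul_le_mul_left _ hJ) _
            _ ≤ (9 * J) ^ J := Nat.pow_le_pow_right (by omega) hJ
        exact Nat.mul_le_mul h3 h4
      exact_mod_cast h2
  · exfalso
    push Not at hcol
    let Φ : (S → Fin T) → W := fun c =>
      ⟨∑ s : S, (((c s : ℕ) : ℤ) : ℝ) • v s, by
        apply Submodule.sum_mem
        intro s _
        exact Submodule.smul_mem _ _ (Submodule.subset_span ⟨s, rfl⟩)⟩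
    have hsep : ∀ c c' : S → Fin T, c ≠ c' → 1 / 4 ≤ ‖Φ c - Φ c'‖ := by
      intro c c' hcc
      have hnd := hcol c c' hcc
      have hdegP : (P c - P c').natDegree ≤ E := by
        have : ∀ c : S → Fin T, (P c).natDegree ≤ E := by
          intro c
          apply natDegree_sum_le_of_forall_le
          intro s _
          exact (natDegree_monomial_le _).trans ((le_natDegree_of_mem_supp _ s.2).trans hE)
        exact (natDegree_sub_le _ _).trans (max_le (this c) (this c'))
      obtain ⟨a, ha, hle⟩ := exists_root_large g (P c - P c') hg hirr hnd hgd E hdegP hM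
      let i : ι := ⟨a, Multiset.mem_toFinset.mpr ha⟩
      have h1 : ‖(Φ c - Φ c' : W)‖ = ‖((Φ c : ι → ℂ) - (Φ c' : ι → ℂ))‖ := rfl
      rw [h1]
      refine le_trans ?_ (norm_le_pi_norm _ i)
      have h2 : ((Φ c : ι → ℂ) - (Φ c' : ι → ℂ)) i =
          (w i : ℂ) * ((P c - P c').map φ).eval a := by
        rw [Pi.sub_apply]
        have e1 := heval (fun s => ((c s : ℕ) : ℤ)) (P c) rfl i
        have e2 := heval (fun s => ((c' s : ℕ) : ℤ)) (P c') rfl i
        simp only [Φ]
        rw [e1, e2, Polynomial.map_sub, eval_sub]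
        ring
      rw [h2, norm_mul, Complex.norm_real, Real.norm_eq_abs, abs_of_pos (hwpos i)]
      have hm1 : (0 : ℝ) < max 1 ‖a‖ := lt_of_lt_of_le one_pos (le_max_left _ _)
      calc (1 / 4 : ℝ) = ((max 1 ‖a‖) ^ E)⁻¹ * ((1 / 4) * (max 1 ‖a‖) ^ E) := by
            field_simp
        _ ≤ _ := by
            simp only [w]
            gcongr
    have hinj : Function.Injective Φ := by
      intro c c' h
      by_contra hne
      have := hsep c c' hne
      rw [h, sub_self, norm_zero] at this
      norm_num at this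
    have hnorm : ∀ c, ‖Φ c‖ ≤ (N : ℝ) * T := by
      intro c
      have h1 : ‖(Φ c : W)‖ = ‖(Φ c : ι → ℂ)‖ := rfl
      rw [h1]
      simp only [Φ]
      refine (norm_sum_le _ _).trans ?_
      have h2 : ∀ s ∈ (Finset.univ : Finset S), ‖(((c s : ℕ) : ℤ) : ℝ) • v s‖ ≤ (T : ℝ) := by
        intro s _
        rw [norm_smul]
        have h3 : ‖((((c s : ℕ) : ℤ) : ℝ))‖ ≤ T := by
          rw [Int.cast_natCast, Real.norm_natCast]
          exact_mod_cast (c s).2.le
        calc _ ≤ (T : ℝ) * 1 := by
              apply mul_le_mul h3 (hvnorm s) (norm_nonneg _) (by positivity)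
          _ = T := mul_one _
      have := Finset.sum_le_card_nsmul _ _ _ h2
      rw [Finset.card_univ, Fintype.card_coe, nsmul_eq_mul] at this
      exact this
    have hpack := packing (Finset.univ.image Φ) ((N : ℝ) * T) (1 / 4) (by positivity) (by norm_num)
      (by
        intro x hx
        obtain ⟨c, _, rfl⟩ := Finset.mem_image.mp hx
        exact hnorm c)
      (by
        intro x hx y hy hxy
        obtain ⟨c, _, rfl⟩ := Finset.mem_image.mp hx
        obtain ⟨c', _, rfl⟩ := Finset.mem_image.mp hy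
        exact hsep c c' (fun h => hxy (by rw [h])))
    rw [Finset.card_image_of_injective _ hinj, Finset.card_univ, Fintype.card_fun, Fintype.card_fin,
      Fintype.card_coe] at hpack
    set r := finrank ℝ W with hr
    have hr' : r ≤ N - 1 := by omega
    have hNT : (1 : ℝ) ≤ (N : ℝ) * T := by
      have : 1 ≤ N * T := Nat.mul_pos hNpos hTpos
      exact_mod_cast this
    have h8 : ((T : ℝ)) ^ N ≤ (9 * N * T) ^ r := by
      have h9 : ((T ^ N : ℕ) : ℝ) * ((1 / 4 : ℝ) / 2) ^ r ≤ ((9 / 8) * ((N : ℝ) * T)) ^ r := by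
        refine hpack.trans ?_
        gcongr
        linarith
      have h10 : ((9 / 8) * ((N : ℝ) * T)) ^ r = (9 * N * T) ^ r * ((1 / 4 : ℝ) / 2) ^ r := by
        rw [← mul_pow]; congr 1; ring
      rw [h10] at h9
      have h11 : (0 : ℝ) < ((1 / 4 : ℝ) / 2) ^ r := by positivity
      have := le_of_mul_le_mul_right h9 h11
      exact_mod_cast this
    have h12 : ((T : ℝ)) ^ N ≤ (9 * N * T) ^ (N - 1) := by
      refine h8.trans (pow_le_pow_right₀ ?_ hr')
      nlinarith
    have h13 : T ^ N ≤ (9 * N * T) ^ (N - 1) := by exact_mod_cast h12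
    have h14 : T ^ N = T * T ^ (N - 1) := by
      rw [← pow_succ']; congr 1; omega
    rw [h14, mul_pow] at h13
    have h15 : T ≤ (9 * N) ^ (N - 1) := Nat.le_of_mul_le_mul_right h13 (by positivity)
    have h16 : (9 * N) ^ (N - 1) < (9 * N) ^ N := Nat.pow_lt_pow_right (by omega) (by omega)
    omega

end Pool.Agent.Lib.MP_7ab245_nt
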