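import Mathlib
import Pool.Agent.Lib.MP_7ab245_nt.AuxPoly
import Pool.Agent.Lib.MP_7ab245_nt.PadicPart
import Pool.Agent.Lib.MP_7ab245_nt.SmallRel

/-! Lower bound for irreducible polynomials sharing mod `p` a large factor with a sparse one,
and the passage to arbitrary polynomials. -/

set_option autoImplicit false

open Polynomial

namespace Pool.Agent.Lib.MP_7ab245_nt

lemma MM_mul (f g : ℤ[X]) : MM (f * g) = MM f * MM g := by
  unfold MM
  rw [Polynomial.map_mul, mahlerMeasure_mul]

lemma log_MM_nonneg {g : ℤ[X]} (hg : g ≠ 0) : 0 ≤ Real.log (MM g) :=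
  Real.log_nonneg (MM_one_le hg)

theorem core (k e : ℕ) (he : 1 ≤ e) : ∃ c : ℝ, 0 < c ∧ ∀ (p : ℕ) [_hp : Fact p.Prime],
    ∀ g : ℤ[X], g.Monic → Irreducible g → ∀ α : ℂ, aeval α g = 0 → α ≠ 0 →
      (∀ n : ℕ, 0 < n → α ^ n ≠ 1) → ∀ H : (ZMod p)[X], H ≠ 0 → H.support.card ≤ k →
      ∀ G : (ZMod p)[X], G ∣ g.map (Int.castRingHom (ZMod p)) → G ∣ H →
      3 * g.natDegree ≤ (e + 1) * G.natDegree →
      c * g.natDegree ≤ H.natDegree * Real.log (MM g) := by
  obtain ⟨v, hv, haux'⟩ := exists_aux k e he
  set V := (e + 1) * v with hV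
  have hVpos : 0 < V := by positivity
  set J := 2 ^ v with hJ
  set B := J * (9 * J) ^ J with hB
  have hBpos : 0 < B := by positivity
  have hlog2 : 0 < Real.log 2 := Real.log_pos (by norm_num)
  have hlogB : 0 < Real.log (1 + 1 / (B : ℝ)) := by
    apply Real.log_pos
    have : (0 : ℝ) < 1 / B := by positivity
    linarith
  set D : ℝ := ((1 + J * B.factorial : ℕ) : ℝ) with hD
  have hDpos : 0 < D := by
    rw [hD]; exact_mod_cast (by positivity : 0 < 1 + J * B.factorial)
  set c1 : ℝ := v * Real.log 2 / (V * V) with hc1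
  set c2 : ℝ := Real.log (1 + 1 / (B : ℝ)) / (D * (V * V)) with hc2
  set c3 : ℝ := Real.log 2 / (V * V) with hc3
  have hVR : (0 : ℝ) < V := by exact_mod_cast hVpos
  have hvR : (0 : ℝ) < v := by exact_mod_cast (by omega : 0 < v)
  have hc1pos : 0 < c1 := by positivity
  have hc2pos : 0 < c2 := by positivity
  have hc3pos : 0 < c3 := by positivity
  refine ⟨min c1 (min c2 c3), lt_min hc1pos (lt_min hc2pos hc3pos), ?_⟩
  intro p hp g hg hirr α hroot hα hru H hH hHk G hGg hGH hdeg
  have hp2 : 2 ≤ p := hp.out.two_le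
  have haux := haux' p hp2
  have hlogp : Real.log 2 ≤ Real.log p :=
    Real.log_le_log (by norm_num) (by exact_mod_cast hp2)
  obtain ⟨h, hhm, hhs, hhd, hhmap⟩ := exists_lift p H hH
  obtain ⟨F, hF0, hFd, hFl1, hFc, A, Q, hFAQ⟩ := haux h hhm (by rw [hhs]; exact hHk)
  have hg0 : g ≠ 0 := hg.ne_zero
  have hMM1 : 1 ≤ MM g := MM_one_le hg0
  have hMMpos : 0 < MM g := by linarith
  have hlogMM : 0 ≤ Real.log (MM g) := log_MM_nonneg hg0
  set n := H.natDegree with hn
  set d := g.natDegree with hd
  rw [hhd] at hFd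
  have hGh : G ∣ h.map (Int.castRingHom (ZMod p)) := by
    rw [hhmap]; exact hGH.mul_left _
  by_cases hgF : g ∣ F
  · by_cases hsm : MM g ^ (V * V * n) ≤ (2 : ℝ) ^ d
    · obtain ⟨F', hF'0, hgF', hF'd, hF'c, hF'l1⟩ :=
        small_relation g hg hirr F hF0 hgF J (V * V * n) hFc hFd hsm
      have h1 := dobrowolski_sparse g hg hirr α hroot hα hru F' hF'0 hgF' B J
        hF'l1 hBpos hF'c (V * V * n) hF'd
      have h2 := Real.log_le_log (by positivity) h1
      rw [Real.log_pow, Real.log_pow] at h2
      have h3 : (((1 + J * B.factorial) * (V * V * n) : ℕ) : ℝ) = D * (V * V) * n := by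
        rw [hD]; push_cast; ring
      rw [h3] at h2
      calc min c1 (min c2 c3) * d ≤ c2 * d := by
            gcongr; exact (min_le_right _ _).trans (min_le_left _ _)
        _ = (d * Real.log (1 + 1 / (B : ℝ))) / (D * (V * V)) := by rw [hc2]; ring
        _ ≤ (D * (V * V) * n * Real.log (MM g)) / (D * (V * V)) := by gcongr
        _ = n * Real.log (MM g) := by field_simp
    · push Not at hsm
      have h2 := Real.log_le_log (by positivity) hsm.le
      rw [Real.log_pow, Real.log_pow] at h2
      push_cast at h2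
      calc min c1 (min c2 c3) * d ≤ c3 * d := by
            gcongr; exact (min_le_right _ _).trans (min_le_right _ _)
        _ = (d * Real.log 2) / (V * V) := by rw [hc3]; ring
        _ ≤ (V * V * n * Real.log (MM g)) / (V * V) := by gcongr
        _ = n * Real.log (MM g) := by field_simp
  · have h1 := partial_resultant p g h F A Q hg hirr V hFAQ hgF G hGg hGh (V * V * n) hFd
    have h2 := abs_resultant_le g F (V * V * n) hFd
    have h3 : (p : ℝ) ^ (V * G.natDegree) ≤ ((p : ℝ) ^ (2 * v)) ^ d * MM g ^ (V * V * n) := by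
      refine h1.trans (h2.trans ?_)
      have := l1_nonneg F
      gcongr
    have hp0 : (0 : ℝ) < p := by exact_mod_cast (by omega : 0 < p)
    have h4 := Real.log_le_log (by positivity) h3
    rw [Real.log_mul (by positivity) (by positivity), Real.log_pow, Real.log_pow, Real.log_pow,
      Real.log_pow] at h4
    have h5 : (3 : ℝ) * d ≤ (e + 1) * G.natDegree := by exact_mod_cast hdeg
    have h6 : (v : ℝ) * (3 * d) * Real.log p ≤ ((V * G.natDegree : ℕ) : ℝ) * Real.log p := by
      apply mul_le_mul_of_nonneg_right _ (by linarith)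
      rw [hV]; push_cast
      calc (v : ℝ) * (3 * d) ≤ v * ((e + 1) * G.natDegree) := by gcongr
        _ = _ := by ring
    have h7 : (v : ℝ) * d * Real.log p ≤ V * V * n * Real.log (MM g) := by
      push_cast at h4 h6
      nlinarith
    calc min c1 (min c2 c3) * d ≤ c1 * d := by gcongr; exact min_le_left _ _
      _ = (v * d * Real.log 2) / (V * V) := by rw [hc1]; ring
      _ ≤ (v * d * Real.log p) / (V * V) := by gcongr
      _ ≤ (V * V * n * Real.log (MM g)) / (V * V) := by gcongr
      _ = n * Real.log (MM g) := by field_simp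

/-- additive form for all monic polynomials -/
theorem core_monic (k e : ℕ) (he : 1 ≤ e) : ∃ c : ℝ, 0 < c ∧ ∀ (p : ℕ) [_hp : Fact p.Prime],
    ∀ H : (ZMod p)[X], H ≠ 0 → H.support.card ≤ k →
    ∀ f : ℤ[X], f.Monic → f.coeff 0 ≠ 0 → (∀ m : ℕ, 0 < m → ¬ cyclotomic m ℤ ∣ f) →
      ∀ G : (ZMod p)[X], G ∣ f.map (Int.castRingHom (ZMod p)) → G ∣ H →
      c * (G.natDegree - 3 / ((e : ℝ) + 1) * f.natDegree) ≤ H.natDegree * Real.log (MM f) := by
  obtain ⟨c, hc, hcore'⟩ := core k e he
  refine ⟨c, hc, ?_⟩
  intro p hp H hH hHk f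
  have hcore := @hcore' p hp
  induction hN : f.natDegree using Nat.strong_induction_on generalizing f with
  | _ N ih =>
    intro hf hf0 hcyc G hGf hGH
    have heR : (0 : ℝ) < (e : ℝ) + 1 := by positivity
    by_cases hN0 : N = 0
    · have hf1 : f = 1 := hf.natDegree_eq_zero.mp (by rw [hN, hN0])
      have hG : G.natDegree = 0 := by
        rw [hf1, Polynomial.map_one] at hGf
        exact natDegree_eq_zero_of_isUnit (isUnit_of_dvd_one hGf)
      rw [hG, hN0, hf1]
      simp [MM]
    · -- pick a monic irreducible factor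
      have hfu : ¬ IsUnit f := by
        intro hu
        exact hN0 (by rw [← hN]; exact natDegree_eq_zero_of_isUnit hu)
      obtain ⟨g0, hg0irr, hg0f⟩ := WfDvdMonoid.exists_irreducible_factor hfu hf.ne_zero
      obtain ⟨f0, hf0eq⟩ := hg0f
      have hlc : g0.leadingCoeff * f0.leadingCoeff = 1 := by
        rw [← leadingCoeff_mul, ← hf0eq]; exact hf
      -- normalise
      obtain ⟨g, f', hgm, hfm', hgirr, hfgf⟩ : ∃ g f' : ℤ[X], g.Monic ∧ f'.Monic ∧
          Irreducible g ∧ f = g * f' := by
        rcases Int.eq_one_or_neg_one_of_mul_eq_one' hlc with ⟨h1, h2⟩ | ⟨h1, h2⟩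
        · exact ⟨g0, f0, h1, h2, hg0irr, hf0eq⟩
        · refine ⟨-g0, -f0, ?_, ?_, ?_, ?_⟩
          · rw [Monic, leadingCoeff_neg, h1]; norm_num
          · rw [Monic, leadingCoeff_neg, h2]; norm_num
          · exact (Associated.neg_left (Associated.refl g0)).symm.irreducible hg0irr
          · rw [hf0eq]; ring
      have hgdeg : g.natDegree ≠ 0 := by
        intro h
        have := hgm.natDegree_eq_zero.mp h
        rw [this] at hgirr
        exact not_irreducible_one hgirr
      have hdegsum : g.natDegree + f'.natDegree = N := by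
        rw [← hN, hfgf, hgm.natDegree_mul hfm']
      have hcoeff0 : g.coeff 0 * f'.coeff 0 ≠ 0 := by
        rw [← mul_coeff_zero, ← hfgf]; exact hf0
      have hcycg : ∀ m : ℕ, 0 < m → ¬ cyclotomic m ℤ ∣ g := fun m hm hd =>
        hcyc m hm (hfgf ▸ hd.mul_right f')
      have hcycf' : ∀ m : ℕ, 0 < m → ¬ cyclotomic m ℤ ∣ f' := fun m hm hd =>
        hcyc m hm (hfgf ▸ hd.mul_left g)
      -- split G
      rw [hfgf, Polynomial.map_mul] at hGf
      obtain ⟨G1, G2, hG1, hG2, hG12⟩ := exists_dvd_and_dvd_of_dvd_mul hGf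
      have hmapne : (g.map (Int.castRingHom (ZMod p))) * (f'.map (Int.castRingHom (ZMod p))) ≠ 0 :=
        ((hgm.map _).mul (hfm'.map _)).ne_zero
      have hG0 : G ≠ 0 := fun h0 => hmapne (by rw [h0] at hGf; exact zero_dvd_iff.mp hGf)
      have hG10 : G1 ≠ 0 := by rintro rfl; rw [zero_mul] at hG12; exact hG0 hG12
      have hG20 : G2 ≠ 0 := by rintro rfl; rw [mul_zero] at hG12; exact hG0 hG12
      have hGdeg : G.natDegree = G1.natDegree + G2.natDegree := by
        rw [hG12, natDegree_mul hG10 hG20]
      have hG1H : G1 ∣ H := (hG12 ▸ dvd_mul_right G1 G2 : G1 ∣ G).trans hGH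
      have hG2H : G2 ∣ H := (hG12 ▸ dvd_mul_left G2 G1 : G2 ∣ G).trans hGH
      have ih' := ih f'.natDegree (by omega) f' rfl hfm' (right_ne_zero_of_mul hcoeff0) hcycf'
        G2 hG2 hG2H
      have hmine : c * (G1.natDegree - 3 / ((e : ℝ) + 1) * g.natDegree) ≤
          H.natDegree * Real.log (MM g) := by
        by_cases hcase : 3 * g.natDegree ≤ (e + 1) * G1.natDegree
        · -- root
          have hgne : (g.map (Int.castRingHom ℂ)).degree ≠ 0 := by
            rw [degree_map_eq_of_injective (Int.castRingHom ℂ).injective_int]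
            intro h0
            exact hgdeg (natDegree_eq_of_degree_eq_some h0)
          obtain ⟨α, hα⟩ := Splits.exists_eval_eq_zero
            (IsAlgClosed.splits (g.map (Int.castRingHom ℂ))) hgne
          have hαroot : aeval α g = 0 := by
            rw [aeval_def, ← eval_map]
            exact hα
          have hα0 : α ≠ 0 := by
            rintro rfl
            rw [← coeff_zero_eq_aeval_zero'] at hαroot
            have h1 : g.coeff 0 ≠ 0 := left_ne_zero_of_mul hcoeff0
            apply h1
            have h2 : ((g.coeff 0 : ℤ) : ℂ) = 0 := by simpa using hαroot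
            exact_mod_cast h2
          have hru : ∀ n : ℕ, 0 < n → α ^ n ≠ 1 := by
            intro n hn h1
            have hfin : 0 < orderOf α := orderOf_pos_iff.mpr (isOfFinOrder_iff_pow_eq_one.mpr ⟨n, hn, h1⟩)
            have hprim := IsPrimitiveRoot.orderOf α
            have h2 := cyclotomic_eq_minpoly hprim hfin
            have h3 := eq_minpoly_of_root g hgm hgirr α hαroot
            exact hcycg _ hfin (by rw [h2, ← h3])
          have := hcore g hgm hgirr α hαroot hα0 hru H hH hHk G1 hG1 hG1H hcase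
          refine le_trans ?_ this
          have hG1le : G1.natDegree ≤ g.natDegree := by
            have := natDegree_le_of_dvd hG1 (hgm.map _).ne_zero
            rwa [hgm.natDegree_map] at this
          have hG1leR : (G1.natDegree : ℝ) ≤ g.natDegree := by exact_mod_cast hG1le
          apply mul_le_mul_of_nonneg_left _ hc.le
          have : 0 ≤ 3 / ((e : ℝ) + 1) * g.natDegree := by positivity
          linarith
        · push Not at hcase
          have h1 : ((e : ℝ) + 1) * G1.natDegree ≤ 3 * g.natDegree := by exact_mod_cast hcase.le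
          have h2 : (G1.natDegree : ℝ) - 3 / ((e : ℝ) + 1) * g.natDegree ≤ 0 := by
            rw [sub_nonpos, div_mul_eq_mul_div, le_div_iff₀ heR]
            linarith
          have h3 : 0 ≤ (H.natDegree : ℝ) * Real.log (MM g) :=
            mul_nonneg (by positivity) (log_MM_nonneg hgm.ne_zero)
          nlinarith
      have hlogmul : Real.log (MM f) = Real.log (MM g) + Real.log (MM f') := by
        rw [hfgf, MM_mul, Real.log_mul]
        · have := MM_one_le hgm.ne_zero; linarith
        · have := MM_one_le hfm'.ne_zero; linarith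
      rw [hlogmul, hGdeg, ← hdegsum]
      push_cast
      nlinarith

end Pool.Agent.Lib.MP_7ab245_nt
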