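import Mathlib

set_option autoImplicit false

namespace Pool.Agent.Lib.MP_7ab245_nt.Energy

open Polynomial Finset
open scoped ComplexOrder

/-! ### Hadamard's inequality -/

theorem hadamard_normalized {n : ℕ} (B : Matrix (Fin n) (Fin n) ℂ)
    (hB : ∀ i, ∑ j, ‖B i j‖ ^ 2 = 1) : ‖B.det‖ ^ 2 ≤ 1 := by
  classical
  have hpos : (B * B.conjTranspose).PosSemidef := Matrix.posSemidef_self_mul_conjTranspose B
  have hH := hpos.isHermitian
  have hdet : ((‖B.det‖ ^ 2 : ℝ) : ℂ) = (B * B.conjTranspose).det := by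
    rw [Matrix.det_mul, Matrix.det_conjTranspose, Complex.star_def, Complex.mul_conj']
    push_cast
    rfl
  have htr : (B * B.conjTranspose).trace = (n : ℂ) := by
    rw [Matrix.trace]
    have : ∀ i, (B * B.conjTranspose).diag i = 1 := by
      intro i
      rw [Matrix.diag_apply, Matrix.mul_apply]
      have h1 : ∀ j, B i j * B.conjTranspose j i = ((‖B i j‖ ^ 2 : ℝ) : ℂ) := by
        intro j
        rw [Matrix.conjTranspose_apply, Complex.star_def, Complex.mul_conj']
        push_cast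
        rfl
      simp_rw [h1]
      rw [← Complex.ofReal_sum, hB i]
      simp
    simp_rw [this]
    simp
  have hsum : ∑ i, hH.eigenvalues i = n := by
    have := hH.trace_eq_sum_eigenvalues
    rw [htr] at this
    apply Complex.ofReal_injective
    rw [Complex.ofReal_sum, Complex.ofReal_natCast, this]
    rfl
  have hprod : ‖B.det‖ ^ 2 = ∏ i, hH.eigenvalues i := by
    have := hH.det_eq_prod_eigenvalues
    rw [← hdet] at this
    apply Complex.ofReal_injective
    rw [Complex.ofReal_prod, this]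
    rfl
  rw [hprod]
  calc ∏ i, hH.eigenvalues i ≤ ∏ i : Fin n, Real.exp (hH.eigenvalues i - 1) := by
        apply Finset.prod_le_prod
        · intro i _
          exact hpos.eigenvalues_nonneg i
        · intro i _
          have := Real.add_one_le_exp (hH.eigenvalues i - 1)
          linarith
    _ = 1 := by
        rw [← Real.exp_sum, Finset.sum_sub_distrib, hsum]
        simp

theorem hadamard {n : ℕ} (A : Matrix (Fin n) (Fin n) ℂ) :
    ‖A.det‖ ^ 2 ≤ ∏ i, ∑ j, ‖A i j‖ ^ 2 := by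
  classical
  by_cases h0 : ∃ i, ∑ j, ‖A i j‖ ^ 2 = 0
  · obtain ⟨i, hi⟩ := h0
    have hrow : ∀ j, A i j = 0 := by
      intro j
      have := (Finset.sum_eq_zero_iff_of_nonneg (fun j _ => by positivity)).1 hi j (Finset.mem_univ j)
      simpa using this
    have : A.det = 0 := Matrix.det_eq_zero_of_row_eq_zero i hrow
    rw [this, norm_zero]
    have : (0 : ℝ) ≤ ∏ i, ∑ j, ‖A i j‖ ^ 2 :=
      Finset.prod_nonneg fun i _ => Finset.sum_nonneg fun j _ => by positivity
    simpa using this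
  · push Not at h0
    set r : Fin n → ℝ := fun i => Real.sqrt (∑ j, ‖A i j‖ ^ 2) with hr
    have hnn : ∀ i, 0 ≤ ∑ j, ‖A i j‖ ^ 2 := fun i => Finset.sum_nonneg fun j _ => by positivity
    have hpos : ∀ i, 0 < r i := fun i => Real.sqrt_pos.2 (lt_of_le_of_ne (hnn i) (Ne.symm (h0 i)))
    have hr2 : ∀ i, r i ^ 2 = ∑ j, ‖A i j‖ ^ 2 := fun i => Real.sq_sqrt (hnn i)
    set B : Matrix (Fin n) (Fin n) ℂ := Matrix.of fun i j => ((r i)⁻¹ : ℂ) * A i j with hBdef
    have hB : ∀ i, ∑ j, ‖B i j‖ ^ 2 = 1 := by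
      intro i
      have : ∀ j, ‖B i j‖ ^ 2 = (r i ^ 2)⁻¹ * ‖A i j‖ ^ 2 := by
        intro j
        rw [hBdef, Matrix.of_apply, norm_mul, mul_pow, norm_inv, Complex.norm_real,
          Real.norm_of_nonneg (hpos i).le, inv_pow]
      simp_rw [this]
      rw [← Finset.mul_sum, ← hr2 i]
      exact inv_mul_cancel₀ (pow_ne_zero 2 (hpos i).ne')
    have hdet : B.det = (∏ i, ((r i)⁻¹ : ℂ)) * A.det := by
      rw [hBdef]
      exact Matrix.det_mul_column (fun i => ((r i)⁻¹ : ℂ)) A
    have h1 := hadamard_normalized B hB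
    rw [hdet, norm_mul, mul_pow] at h1
    have h2 : ‖∏ i, ((r i)⁻¹ : ℂ)‖ = ∏ i, (r i)⁻¹ := by
      rw [norm_prod]
      apply Finset.prod_congr rfl
      intro i _
      rw [norm_inv, Complex.norm_real, Real.norm_of_nonneg (hpos i).le]
    rw [h2, Finset.prod_inv_distrib, inv_pow, ← Finset.prod_pow] at h1
    have h3 : (0 : ℝ) < ∏ i, r i ^ 2 := Finset.prod_pos fun i _ => pow_pos (hpos i) 2
    have h4 : ∏ i, r i ^ 2 = ∏ i, ∑ j, ‖A i j‖ ^ 2 := Finset.prod_congr rfl fun i _ => hr2 i
    rw [← h4]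
    rw [inv_mul_le_iff₀ h3, mul_one] at h1
    exact h1

/-- Upper bound for a Vandermonde determinant. -/
theorem vandermonde_le {n : ℕ} (v : Fin n → ℂ) :
    ‖(Matrix.vandermonde v).det‖ ^ 2 ≤ (n : ℝ) ^ n * (∏ i, max 1 ‖v i‖) ^ (2 * (n - 1)) := by
  refine (hadamard _).trans ?_
  have h1 : ∀ i, ∑ j : Fin n, ‖Matrix.vandermonde v i j‖ ^ 2 ≤ n * (max 1 ‖v i‖) ^ (2 * (n - 1)) := by
    intro i
    calc ∑ j : Fin n, ‖Matrix.vandermonde v i j‖ ^ 2
        ≤ ∑ _j : Fin n, (max 1 ‖v i‖) ^ (2 * (n - 1)) := by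
          apply Finset.sum_le_sum
          intro j _
          rw [Matrix.vandermonde_apply, norm_pow, ← pow_mul]
          calc ‖v i‖ ^ ((j : ℕ) * 2) ≤ (max 1 ‖v i‖) ^ ((j : ℕ) * 2) :=
                pow_le_pow_left₀ (norm_nonneg _) (le_max_right _ _) _
            _ ≤ (max 1 ‖v i‖) ^ (2 * (n - 1)) := by
                apply pow_le_pow_right₀ (le_max_left _ _)
                have := j.2
                omega
      _ = n * (max 1 ‖v i‖) ^ (2 * (n - 1)) := by simp
  calc ∏ i, ∑ j : Fin n, ‖Matrix.vandermonde v i j‖ ^ 2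
      ≤ ∏ i, ((n : ℝ) * (max 1 ‖v i‖) ^ (2 * (n - 1))) :=
        Finset.prod_le_prod (fun i _ => Finset.sum_nonneg fun j _ => by positivity) fun i _ => h1 i
    _ = (n : ℝ) ^ n * (∏ i, max 1 ‖v i‖) ^ (2 * (n - 1)) := by
        rw [Finset.prod_mul_distrib, Finset.prod_pow]
        simp

/-! ### Symmetric functions of the roots are integers -/

theorem symm_int {n : ℕ} (f : ℤ[X]) (α : Fin n → ℂ)
    (hα : f.map (algebraMap ℤ ℂ) = ((univ.val.map α).map fun t => X - C t).prod)
    (P : MvPolynomial (Fin n) ℤ) (hP : P.IsSymmetric) :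
    ∃ z : ℤ, MvPolynomial.aeval α P = (z : ℂ) := by
  classical
  obtain ⟨Q, hQ⟩ := MvPolynomial.esymmAlgHom_surjective (σ := Fin n) (n := n) ℤ
    (by simp) (⟨P, hP⟩ : MvPolynomial.symmetricSubalgebra (Fin n) ℤ)
  have hQ' : MvPolynomial.aeval (fun i : Fin n => MvPolynomial.esymm (Fin n) ℤ (i + 1)) Q = P := by
    rw [← MvPolynomial.esymmAlgHom_apply, hQ]
  have hes : ∀ i : Fin n, ∃ z : ℤ,
      MvPolynomial.aeval α (MvPolynomial.esymm (Fin n) ℤ (i + 1)) = (z : ℂ) := by
    intro i
    rw [MvPolynomial.aeval_esymm_eq_multiset_esymm]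
    set s : Multiset ℂ := univ.val.map α with hs
    have hcard : Multiset.card s = n := by simp [hs]
    have hk : n - (i + 1) ≤ Multiset.card s := by omega
    have h1 := Multiset.prod_X_sub_C_coeff s hk
    rw [← hα, coeff_map] at h1
    have h2 : Multiset.card s - (n - (i + 1)) = i + 1 := by
      have := i.2
      omega
    rw [h2] at h1
    refine ⟨(-1) ^ ((i : ℕ) + 1) * f.coeff (n - (i + 1)), ?_⟩
    push_cast
    rw [show ((f.coeff (n - (↑i + 1)) : ℤ) : ℂ) = (algebraMap ℤ ℂ) (f.coeff (n - (↑i + 1))) from rfl, h1,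
      ← mul_assoc, ← mul_pow]
    norm_num
  choose z hz using hes
  refine ⟨MvPolynomial.aeval z Q, ?_⟩
  rw [← hQ']
  have h3 : MvPolynomial.aeval α (MvPolynomial.aeval (fun i : Fin n =>
      MvPolynomial.esymm (Fin n) ℤ (i + 1)) Q)
      = MvPolynomial.aeval (fun i => ((z i : ℤ) : ℂ)) Q := by
    rw [← AlgHom.comp_apply]
    congr 1
    apply MvPolynomial.algHom_ext
    intro i
    simp [hz i]
  rw [h3]
  have h4 : MvPolynomial.aeval (fun i => ((z i : ℤ) : ℂ)) Q
      = (Int.castRingHom ℂ) (MvPolynomial.aeval z Q) := by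
    rw [MvPolynomial.aeval_def, MvPolynomial.aeval_def]
    rw [MvPolynomial.hom_eval₂]
    congr 1
  rw [h4]
  rfl

/-- The square of the determinant of integer polynomials in the roots is an integer. -/
theorem det_sq_int {n : ℕ} (f : ℤ[X]) (α : Fin n → ℂ)
    (hα : f.map (algebraMap ℤ ℂ) = ((univ.val.map α).map fun t => X - C t).prod)
    (c : Fin n → ℤ[X]) :
    ∃ z : ℤ, (Matrix.of fun i j => aeval (α i) (c j)).det ^ 2 = (z : ℂ) := by
  classical
  set A : Matrix (Fin n) (Fin n) (MvPolynomial (Fin n) ℤ) :=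
    Matrix.of fun i j => aeval (MvPolynomial.X i) (c j) with hA
  have hsymm : (A.det ^ 2).IsSymmetric := by
    intro e
    rw [map_pow]
    have h1 : MvPolynomial.rename e A.det = (A.submatrix e id).det := by
      rw [AlgHom.map_det]
      congr 1
      ext i j : 2
      simp only [hA, AlgHom.mapMatrix_apply, Matrix.map_apply, Matrix.of_apply,
        Matrix.submatrix_apply, id]
      rw [← aeval_algHom_apply, MvPolynomial.rename_X]
    rw [h1, Matrix.det_permute, mul_pow]
    have h2 : (((Equiv.Perm.sign e : ℤˣ) : ℤ) : MvPolynomial (Fin n) ℤ) ^ 2 = 1 := by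
      rw [← Int.cast_pow]
      have : ((Equiv.Perm.sign e : ℤˣ) : ℤ) ^ 2 = 1 := by
        rcases Int.units_eq_one_or (Equiv.Perm.sign e) with h | h <;> rw [h] <;> norm_num
      rw [this, Int.cast_one]
    rw [h2, one_mul]
  obtain ⟨z, hz⟩ := symm_int f α hα _ hsymm
  refine ⟨z, ?_⟩
  rw [← hz, map_pow]
  congr 1
  rw [AlgHom.map_det]
  congr 1
  ext i j : 2
  simp only [hA, AlgHom.mapMatrix_apply, Matrix.map_apply, Matrix.of_apply]
  rw [← aeval_algHom_apply, MvPolynomial.aeval_X]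

/-! ### The energy inequality -/

/-- General energy inequality: monic polynomials `P j` of degree `j` whose values at the `N`-th
powers of the roots of `f` are divisible by `m ^ a j`. -/
theorem energy_gen_aux {n : ℕ} (f : ℤ[X]) (m N : ℕ) (α : Fin n → ℂ)
    (hα : f.map (algebraMap ℤ ℂ) = ((univ.val.map α).map fun t => X - C t).prod)
    (P : Fin n → ℤ[X]) (hP : ∀ j, (P j).Monic) (hPdeg : ∀ j, (P j).natDegree = j)
    (a : Fin n → ℕ) (c : Fin n → ℤ[X])
    (h : ∀ j, f ∣ (P j).comp (X ^ N) - C ((m : ℤ) ^ a j) * c j)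
    (hdist : Function.Injective fun i => α i ^ N) :
    (m : ℝ) ^ (2 * ∑ j, a j) ≤
      (n : ℝ) ^ n * (∏ i, max 1 ‖α i ^ N‖) ^ (2 * (n - 1)) := by
  classical
  set β : Fin n → ℂ := fun i => α i ^ N with hβ
  set p : Fin n → ℂ[X] := fun j => (P j).map (algebraMap ℤ ℂ) with hp
  have hmonic : ∀ j, (p j).Monic := fun j => (hP j).map _
  have hdeg : ∀ j, (p j).natDegree = j := by
    intro j
    rw [hp]
    simp only
    rw [(hP j).natDegree_map, hPdeg]
  have hdet := Matrix.det_eval_matrixOfPolynomials_eq_det_vandermonde β p hdeg hmonic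
  -- roots are roots
  have hroot : ∀ i, aeval (α i) f = 0 := by
    intro i
    rw [aeval_def, ← eval_map, hα, eval_multiset_prod, Multiset.map_map, Multiset.map_map]
    apply Multiset.prod_eq_zero
    rw [Multiset.mem_map]
    exact ⟨i, by simp, by simp⟩
  have hentry : ∀ i j, (p j).eval (β i) = (m : ℂ) ^ (a j) * aeval (α i) (c j) := by
    intro i j
    obtain ⟨q, hq⟩ := h j
    have h1 := congrArg (aeval (α i)) hq
    rw [map_sub, aeval_comp, map_mul, map_mul, hroot i, zero_mul, map_pow, aeval_X,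
      aeval_C, sub_eq_zero] at h1
    rw [hp]
    simp only
    rw [eval_map, ← aeval_def, hβ]
    simp only
    rw [h1]
    congr 1
    push_cast
    simp
  have hdet2 : (Matrix.vandermonde β).det =
      (m : ℂ) ^ (∑ j, a j) * (Matrix.of fun i j => aeval (α i) (c j)).det := by
    rw [hdet]
    have : (Matrix.of fun i j => (p j).eval (β i)) =
        Matrix.of fun (i j : Fin n) => (m : ℂ) ^ (a j) *
          (Matrix.of fun (i j : Fin n) => aeval (α i) (c j)) i j := by
      ext i j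
      simp only [Matrix.of_apply]
      exact hentry i j
    rw [this, Matrix.det_mul_row, Finset.prod_pow_eq_pow_sum]
  have hne : (Matrix.vandermonde β).det ≠ 0 := Matrix.det_vandermonde_ne_zero_iff.2 hdist
  obtain ⟨z, hz⟩ := det_sq_int f α hα c
  have hz0 : z ≠ 0 := by
    rintro rfl
    apply hne
    rw [hdet2]
    have : (Matrix.of fun i j => aeval (α i) (c j)).det = 0 := by
      have h5 : (Matrix.of fun i j => aeval (α i) (c j)).det ^ 2 = 0 := by rw [hz]; simp
      exact pow_eq_zero_iff (two_ne_zero) |>.1 h5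
    rw [this, mul_zero]
  have hone : (1 : ℝ) ≤ ‖(Matrix.of fun i j => aeval (α i) (c j)).det‖ ^ 2 := by
    rw [← norm_pow, hz, Complex.norm_intCast]
    exact_mod_cast Int.one_le_abs hz0
  calc (m : ℝ) ^ (2 * ∑ j, a j)
      ≤ (m : ℝ) ^ (2 * ∑ j, a j) *
          ‖(Matrix.of fun i j => aeval (α i) (c j)).det‖ ^ 2 :=
        le_mul_of_one_le_right (by positivity) hone
    _ = ‖(Matrix.vandermonde β).det‖ ^ 2 := by
        rw [hdet2, norm_mul, mul_pow, norm_pow, Complex.norm_natCast, ← pow_mul, mul_comm 2]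
    _ ≤ _ := vandermonde_le β

/-- Enumeration of the complex roots of a monic integer polynomial. -/
theorem exists_roots (f : ℤ[X]) (hf : f.Monic) :
    ∃ α : Fin f.natDegree → ℂ, univ.val.map α = (f.map (algebraMap ℤ ℂ)).roots ∧
      f.map (algebraMap ℤ ℂ) = ((univ.val.map α).map fun t => X - C t).prod := by
  classical
  set F := f.map (algebraMap ℤ ℂ) with hF
  have hFm : F.Monic := hf.map _
  have hsplit : F = (F.roots.map fun a => X - C a).prod := by
    have := (IsAlgClosed.splits F).eq_prod_roots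
    rw [hFm.leadingCoeff, C_1, one_mul] at this
    exact this
  have hcard : Multiset.card F.roots = f.natDegree := by
    rw [IsAlgClosed.card_roots_eq_natDegree, hF, hf.natDegree_map]
  obtain ⟨l, hl⟩ : ∃ l : List ℂ, (l : Multiset ℂ) = F.roots := ⟨F.roots.toList, by simp⟩
  have hlen : l.length = f.natDegree := by rw [← hcard, ← hl, Multiset.coe_card]
  have hmap : (univ.val.map fun i : Fin l.length => l.get i) = F.roots := by
    rw [← hl, Fin.univ_val_map]
    simp
  rw [← hlen]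
  exact ⟨fun i => l.get i, hmap, by rw [hmap]; exact hsplit⟩

theorem prod_max_eq (f : ℤ[X]) (hf : f.Monic) (N : ℕ) {n : ℕ} (α : Fin n → ℂ)
    (hmap : univ.val.map α = (f.map (algebraMap ℤ ℂ)).roots) :
    ∏ i, max 1 ‖α i ^ N‖ = (f.map (algebraMap ℤ ℂ)).mahlerMeasure ^ N := by
  have hFm : (f.map (algebraMap ℤ ℂ)).Monic := hf.map _
  rw [mahlerMeasure_eq_leadingCoeff_mul_prod_roots, hFm.leadingCoeff, norm_one, one_mul, ← hmap,
    Multiset.map_map]
  have : (Multiset.map ((fun a => max 1 ‖a‖) ∘ α) univ.val).prod = ∏ i, max 1 ‖α i‖ := rfl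
  rw [this, ← Finset.prod_pow]
  apply Finset.prod_congr rfl
  intro i _
  rw [norm_pow]
  rcases le_total ‖α i‖ 1 with h | h
  · rw [max_eq_left h, max_eq_left (pow_le_one₀ (norm_nonneg _) h), one_pow]
  · rw [max_eq_right h, max_eq_right (one_le_pow₀ h)]

theorem injective_pow (f : ℤ[X]) (N : ℕ) {n : ℕ} (α : Fin n → ℂ)
    (hmap : univ.val.map α = (f.map (algebraMap ℤ ℂ)).roots)
    (hdist : ((f.map (algebraMap ℤ ℂ)).roots.map (· ^ N)).Nodup) :
    Function.Injective fun i => α i ^ N := by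
  rw [← hmap, Multiset.map_map] at hdist
  have := (Multiset.nodup_map_iff_inj_on (univ.nodup)).1 hdist
  intro i j hij
  exact this i (by simp) j (by simp) hij

/-- General energy inequality, in terms of the Mahler measure. -/
theorem energy_gen (f : ℤ[X]) (hf : f.Monic) (m N : ℕ)
    (P : Fin f.natDegree → ℤ[X]) (hP : ∀ j, (P j).Monic) (hPdeg : ∀ j, (P j).natDegree = j)
    (a : Fin f.natDegree → ℕ)
    (h : ∀ j, ∃ c, f ∣ (P j).comp (X ^ N) - C ((m : ℤ) ^ a j) * c)
    (hdist : ((f.map (algebraMap ℤ ℂ)).roots.map (· ^ N)).Nodup) :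
    (m : ℝ) ^ (2 * ∑ j, a j) ≤
      (f.natDegree : ℝ) ^ f.natDegree *
        (f.map (algebraMap ℤ ℂ)).mahlerMeasure ^ (2 * N * (f.natDegree - 1)) := by
  obtain ⟨α, hmap, hα⟩ := exists_roots f hf
  choose c hc using h
  have hE := energy_gen_aux f m N α hα P hP hPdeg a c hc (injective_pow f N α hmap hdist)
  rw [prod_max_eq f hf N α hmap, ← pow_mul] at hE
  convert hE using 3
  ring

end Pool.Agent.Lib.MP_7ab245_nt.Energy
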