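import Mathlib

set_option autoImplicit false

namespace Pool.Agent.Lib.MP_7ab245_nt.Energy

open Finset

theorem sum_div_exact (D : ℕ) (hD : 0 < D) (G : ℕ) :
    (D : ℤ) * (2 * ∑ i ∈ range G, ((i / D : ℕ) : ℤ)) + G * D - G ^ 2 =
      ((G % D : ℕ) : ℤ) * (D - ((G % D : ℕ) : ℤ)) := by
  induction G with
  | zero => simp
  | succ G ih =>
    rw [Finset.sum_range_succ]
    have h1 : (G : ℤ) = D * ((G / D : ℕ) : ℤ) + ((G % D : ℕ) : ℤ) := by
      exact_mod_cast (Nat.div_add_mod G D).symm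
    have h2 : (G + 1) % D = (G % D + 1) % D := by
      rw [Nat.mod_add_mod]
    have h3 : G % D < D := Nat.mod_lt _ hD
    rw [h2]
    rcases Nat.lt_or_ge (G % D + 1) D with h | h
    · rw [Nat.mod_eq_of_lt h]
      push_cast at ih h1 ⊢
      linear_combination ih - 2 * h1
    · have h4 : G % D + 1 = D := by omega
      rw [h4, Nat.mod_self]
      have h5 : ((G % D : ℕ) : ℤ) + 1 = D := by exact_mod_cast h4
      push_cast at ih h1 h5 ⊢
      linear_combination ih - 2 * h1 + (- ((G:ℤ) % D) - 1) * h5 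

theorem sum_div_ge (D : ℕ) (hD : 0 < D) (G : ℕ) :
    (G : ℝ) * (G / D - 1) ≤ ((2 * ∑ i ∈ range G, i / D : ℕ) : ℝ) := by
  have h := sum_div_exact D hD G
  have h3 : G % D < D := Nat.mod_lt _ hD
  have h4 : (0 : ℤ) ≤ ((G % D : ℕ) : ℤ) * (D - ((G % D : ℕ) : ℤ)) := by
    apply mul_nonneg (by positivity)
    have : ((G % D : ℕ) : ℤ) < D := by exact_mod_cast h3
    linarith
  rw [← h] at h4
  have h5 : (0 : ℝ) ≤ (D : ℝ) * (2 * ∑ i ∈ range G, ((i / D : ℕ) : ℝ)) + G * D - G ^ 2 := by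
    exact_mod_cast h4
  have hD' : (0 : ℝ) < D := by exact_mod_cast hD
  have h6 : (G : ℝ) * (G / D - 1) = (G ^ 2 - G * D) / D := by
    field_simp
  rw [h6, div_le_iff₀ hD']
  push_cast
  linarith

/-- Real arithmetic: from the energy inequality to the lower bound. -/
theorem arith (m n G D N S : ℕ) (hm : 2 ≤ m) (hn : 0 < n) (hD : 0 < D) (M : ℝ) (hM : 1 ≤ M)
    (hS : (G : ℝ) * (G / D - 1) ≤ (S : ℝ))
    (hE : (m : ℝ) ^ S ≤ (n : ℝ) ^ n * M ^ (2 * N * (n - 1)))
    (ε C δ : ℝ) (hε : 0 < ε) (hC : 0 < C) (hδ0 : 0 < δ) (hδ : δ < 1) (hG : ε * n ≤ G)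
    (hND : (N : ℝ) * D ≤ C * G) (hlog : (D : ℝ) * (1 + Real.logb m n / ε) ≤ δ * G) :
    (m : ℝ) ^ ((1 - δ) * ε / (2 * C)) ≤ M := by
  have hm1 : (1 : ℝ) < m := by exact_mod_cast (by omega : 1 < m)
  have hn0 : (0 : ℝ) < n := by exact_mod_cast hn
  have hn1 : (1 : ℝ) ≤ n := by exact_mod_cast hn
  have hD0 : (0 : ℝ) < D := by exact_mod_cast hD
  have hM0 : 0 < M := by linarith
  set L := Real.logb m n with hL
  set x := Real.logb m M with hx
  have hL0 : 0 ≤ L := Real.logb_nonneg hm1 hn1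
  have hx0 : 0 ≤ x := Real.logb_nonneg hm1 hM
  have hG0 : (0 : ℝ) < G := lt_of_lt_of_le (by positivity) hG
  -- take logarithms
  have h1 : (S : ℝ) ≤ n * L + (2 * N * (n - 1) : ℕ) * x := by
    have h := Real.logb_le_logb_of_le hm1 (by positivity) hE
    rw [Real.logb_mul (by positivity) (by positivity), Real.logb_pow, Real.logb_pow,
      Real.logb_pow, Real.logb_self_eq_one hm1, mul_one] at h
    exact h
  have h2 : ((2 * N * (n - 1) : ℕ) : ℝ) * x ≤ 2 * N * n * x := by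
    apply mul_le_mul_of_nonneg_right _ hx0
    have : 2 * N * (n - 1) ≤ 2 * N * n := Nat.mul_le_mul_left _ (Nat.sub_le _ _)
    exact_mod_cast this
  have hLε : 0 ≤ L / ε := by positivity
  have hDG : (D : ℝ) ≤ G := by nlinarith
  have hGD : 0 ≤ (G : ℝ) / D - 1 := by
    rw [sub_nonneg, le_div_iff₀ hD0]
    linarith
  have h3 : ε * n * ((G : ℝ) / D - 1) ≤ n * L + 2 * N * n * x := by
    calc ε * n * ((G : ℝ) / D - 1) ≤ (G : ℝ) * (G / D - 1) :=
          mul_le_mul_of_nonneg_right hG hGD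
      _ ≤ S := hS
      _ ≤ _ := by linarith
  have h4 : ε * ((G : ℝ) / D - 1) ≤ L + 2 * N * x := by
    have : n * (ε * ((G : ℝ) / D - 1)) ≤ n * (L + 2 * N * x) := by linarith
    exact le_of_mul_le_mul_left this hn0
  -- δ ε G / D ≥ ε + L
  have h5 : ε + L ≤ δ * ε * (G / D) := by
    have : (D : ℝ) * (ε + L) ≤ D * (δ * ε * (G / D)) := by
      have e1 : (D : ℝ) * (ε + L) = ε * (D * (1 + L / ε)) := by field_simp
      have e2 : (D : ℝ) * (δ * ε * (G / D)) = ε * (δ * G) := by field_simp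
      rw [e1, e2]
      exact mul_le_mul_of_nonneg_left hlog hε.le
    exact le_of_mul_le_mul_left this hD0
  have h6 : (1 - δ) * ε * (G / D) ≤ 2 * N * x := by linarith
  have h7 : (1 - δ) * ε * G ≤ 2 * (N * D) * x := by
    have : (1 - δ) * ε * (G / D) * D ≤ 2 * N * x * D := mul_le_mul_of_nonneg_right h6 hD0.le
    have e1 : (1 - δ) * ε * ((G : ℝ) / D) * D = (1 - δ) * ε * G := by field_simp
    rw [e1] at this
    linarith
  have h8 : (1 - δ) * ε * G ≤ 2 * (C * G) * x := by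
    refine h7.trans ?_
    apply mul_le_mul_of_nonneg_right _ hx0
    linarith
  have h9 : (1 - δ) * ε / (2 * C) ≤ x := by
    rw [div_le_iff₀ (by positivity)]
    have : G * ((1 - δ) * ε) ≤ G * (x * (2 * C)) := by linarith
    exact le_of_mul_le_mul_left this hG0
  calc (m : ℝ) ^ ((1 - δ) * ε / (2 * C)) ≤ (m : ℝ) ^ x :=
        Real.rpow_le_rpow_of_exponent_le hm1.le h9
    _ = M := Real.rpow_logb (by linarith) hm1.ne' hM0

end Pool.Agent.Lib.MP_7ab245_nt.Energy
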