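import Mathlib

set_option autoImplicit false

namespace Pool.Agent.Lib.MP_7ab245_nt.Energy

open Polynomial Finset

theorem map_eq_zero_iff_dvd (m : ℕ) (x : ℤ[X]) :
    x.map (Int.castRingHom (ZMod m)) = 0 ↔ C (m : ℤ) ∣ x := by
  rw [Polynomial.C_dvd_iff_dvd_coeff]
  constructor
  · intro h0 i
    have := congrArg (fun q => coeff q i) h0
    simp only [coeff_map, coeff_zero] at this
    exact (ZMod.intCast_zmod_eq_zero_iff_dvd _ _).1 this
  · intro h
    ext i
    rw [coeff_map, coeff_zero]
    exact (ZMod.intCast_zmod_eq_zero_iff_dvd _ _).2 (h i)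

/-- Hensel lifting of a coprime monic factorisation, modulo powers of an arbitrary `m ≥ 2`. -/
theorem hensel (m : ℕ) (hm : 2 ≤ m) (f g₀ h₀ : ℤ[X]) (hf : f.Monic) (hg : g₀.Monic)
    (hh : h₀.Monic)
    (hfac : f.map (Int.castRingHom (ZMod m)) =
      g₀.map (Int.castRingHom (ZMod m)) * h₀.map (Int.castRingHom (ZMod m)))
    (hcop : IsCoprime (g₀.map (Int.castRingHom (ZMod m))) (h₀.map (Int.castRingHom (ZMod m))))
    (k : ℕ) :
    ∃ g h e : ℤ[X], g.Monic ∧ h.Monic ∧ g.natDegree = g₀.natDegree ∧
      h.natDegree = h₀.natDegree ∧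
      g.map (Int.castRingHom (ZMod m)) = g₀.map (Int.castRingHom (ZMod m)) ∧
      h.map (Int.castRingHom (ZMod m)) = h₀.map (Int.castRingHom (ZMod m)) ∧
      f = g * h + C ((m : ℤ) ^ (k + 1)) * e := by
  have : Fact (1 < m) := ⟨by omega⟩
  have : Nontrivial (ZMod m) := ZMod.nontrivial m
  set φ := Int.castRingHom (ZMod m) with hφ
  have hsurj : Function.Surjective (Polynomial.map φ) :=
    Polynomial.map_surjective _ (ZMod.ringHom_surjective _)
  have hmZ : (m : ℤ) ≠ 0 := by exact_mod_cast (by omega : m ≠ 0)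
  have hdegf : f.natDegree = g₀.natDegree + h₀.natDegree := by
    rw [← hf.natDegree_map φ, hfac, (hg.map φ).natDegree_mul (hh.map φ), hg.natDegree_map,
      hh.natDegree_map]
  induction k with
  | zero =>
    have h0 : (f - g₀ * h₀).map φ = 0 := by
      rw [Polynomial.map_sub, Polynomial.map_mul, hfac, sub_self]
    obtain ⟨e, he⟩ := (map_eq_zero_iff_dvd m _).1 h0
    exact ⟨g₀, h₀, e, hg, hh, rfl, rfl, rfl, rfl, by rw [zero_add, pow_one, ← he]; ring⟩
  | succ k ih =>
    obtain ⟨g, h, e, hgm, hhm, hgd, hhd, hgr, hhr, hfe⟩ := ih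
    obtain ⟨s', t', hst⟩ := hcop
    obtain ⟨s, rfl⟩ := hsurj s'
    obtain ⟨t, rfl⟩ := hsurj t'
    have hck : ((m : ℤ) ^ (k + 1)) ≠ 0 := pow_ne_zero _ hmZ
    -- degree of e
    have hgh : (g * h).Monic := hgm.mul hhm
    have hghd : (g * h).natDegree = f.natDegree := by
      rw [hgm.natDegree_mul hhm, hgd, hhd, hdegf]
    have hgh_deg : (g * h).degree = f.degree := by
      rw [degree_eq_natDegree hgh.ne_zero, degree_eq_natDegree hf.ne_zero, hghd]
    have hedeg : e.degree < f.degree := by
      have h1 : f - g * h = C ((m : ℤ) ^ (k + 1)) * e := by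
        rw [hfe]; ring
      have h2 : (f - g * h).degree < f.degree :=
        degree_sub_lt_left hgh_deg.symm hf.ne_zero (by rw [hf.leadingCoeff, hgh.leadingCoeff])
      rw [h1, degree_C_mul hck] at h2
      exact h2
    set a := (t * e) %ₘ g with ha
    have hadeg : a.degree < g.degree := degree_modByMonic_lt _ hgm
    set b := (e - a * h) /ₘ g with hb
    set r := (e - a * h) %ₘ g with hr
    have hbr : r + g * b = e - a * h := modByMonic_add_div _ _
    have hfdeg : f.degree = g.degree + h.degree := by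
      rw [← hgh_deg, hhm.degree_mul]
    have hahdeg : (a * h).degree < f.degree := by
      rw [hhm.degree_mul, hfdeg]
      rcases eq_or_ne a 0 with h0 | h0
      · rw [h0, degree_zero, WithBot.bot_add]
        rw [degree_eq_natDegree hgm.ne_zero, degree_eq_natDegree hhm.ne_zero]
        exact WithBot.bot_lt_coe _
      · rw [degree_eq_natDegree h0, degree_eq_natDegree hgm.ne_zero] at hadeg
        rw [degree_eq_natDegree hgm.ne_zero, degree_eq_natDegree hhm.ne_zero,
          degree_eq_natDegree h0]
        norm_cast at hadeg ⊢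
        omega
    have hbdeg : b.degree < h.degree := by
      have h1 : (e - a * h).degree < f.degree :=
        (degree_sub_le _ _).trans_lt (max_lt hedeg hahdeg)
      rcases eq_or_ne b 0 with h0 | h0
      · rw [h0, degree_zero, degree_eq_natDegree hhm.ne_zero]
        exact WithBot.bot_lt_coe _
      · have h2 : g.degree ≤ (e - a * h).degree := by
          by_contra hlt
          push Not at hlt
          exact h0 ((divByMonic_eq_zero_iff hgm).2 hlt)
        have h3 := degree_add_divByMonic hgm h2
        rw [← hb] at h3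
        rw [← h3, hfdeg] at h1
        rw [degree_eq_natDegree h0, degree_eq_natDegree hgm.ne_zero,
          degree_eq_natDegree hhm.ne_zero] at h1
        rw [degree_eq_natDegree h0, degree_eq_natDegree hhm.ne_zero]
        norm_cast at h1 ⊢
        omega
    -- r ≡ 0 mod m
    have hr0 : r.map φ = 0 := by
      have h1 : a.map φ = (t.map φ * e.map φ) - g.map φ * (((t * e) /ₘ g).map φ) := by
        have := congrArg (Polynomial.map φ) (modByMonic_add_div (t * e) g)
        rw [Polynomial.map_add, Polynomial.map_mul, Polynomial.map_mul, ← ha] at this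
        rw [← this]; ring
      have h2 : (e - a * h).map φ = g.map φ * (s.map φ * e.map φ + h.map φ *
          (((t * e) /ₘ g).map φ)) := by
        rw [Polynomial.map_sub, Polynomial.map_mul, h1]
        have h3 : s.map φ * g.map φ + t.map φ * h.map φ = 1 := by rw [hgr, hhr]; exact hst
        linear_combination (-(e.map φ)) * h3
      rw [hr, map_modByMonic _ hgm, h2]
      exact (modByMonic_eq_zero_iff_dvd (hgm.map φ)).2 (dvd_mul_right _ _)
    obtain ⟨r', hr'⟩ := (map_eq_zero_iff_dvd m _).1 hr0
    refine ⟨g + C ((m : ℤ) ^ (k + 1)) * a, h + C ((m : ℤ) ^ (k + 1)) * b,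
      r' - C ((m : ℤ) ^ k) * a * b, ?_, ?_, ?_, ?_, ?_, ?_, ?_⟩
    · apply hgm.add_of_left
      rw [degree_C_mul hck]
      exact hadeg
    · apply hhm.add_of_left
      rw [degree_C_mul hck]
      exact hbdeg
    · rw [natDegree_add_eq_left_of_degree_lt, hgd]
      rw [degree_C_mul hck]
      exact hadeg
    · rw [natDegree_add_eq_left_of_degree_lt, hhd]
      rw [degree_C_mul hck]
      exact hbdeg
    · rw [Polynomial.map_add, Polynomial.map_mul, map_C, ← hgr]
      simp [hφ]
    · rw [Polynomial.map_add, Polynomial.map_mul, map_C, ← hhr]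
      simp [hφ]
    · have hbr2 : e = a * h + b * g + C (m : ℤ) * r' := by
        rw [← hr']
        linear_combination -hbr
      have e1 : C ((m : ℤ) ^ (k + 1 + 1)) = C (m : ℤ) * C (m : ℤ) * C ((m : ℤ) ^ k) := by
        rw [← C_mul, ← C_mul]; congr 1; ring
      have e2 : C ((m : ℤ) ^ (k + 1)) = C (m : ℤ) * C ((m : ℤ) ^ k) := by
        rw [← C_mul]; congr 1; ring
      rw [e2] at hfe
      rw [e1, e2]
      linear_combination hfe + C (m : ℤ) * C ((m : ℤ) ^ k) * hbr2

/-- A monic polynomial whose roots are the `N`-th powers of those of `h`. -/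
theorem exists_power_poly (h : ℤ[X]) (hh : h.Monic) (N : ℕ) :
    ∃ H : ℤ[X], H.Monic ∧ H.natDegree = h.natDegree ∧ h ∣ H.comp (X ^ N) := by
  let A := AdjoinRoot h
  let pb := AdjoinRoot.powerBasis' hh
  have : Module.Free ℤ A := Module.Free.of_basis pb.basis
  have : Module.Finite ℤ A := Module.Finite.of_basis pb.basis
  let L : A →ₗ[ℤ] A := Algebra.lmul ℤ A (AdjoinRoot.root h ^ N)
  refine ⟨L.charpoly, LinearMap.charpoly_monic L, ?_, ?_⟩
  · rw [LinearMap.charpoly_natDegree, Module.finrank_eq_card_basis pb.basis, Fintype.card_fin]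
    exact AdjoinRoot.powerBasis'_dim hh
  · have h1 := LinearMap.aeval_self_charpoly L
    have h2 : aeval L L.charpoly = Algebra.lmul ℤ A (aeval (AdjoinRoot.root h ^ N) L.charpoly) := by
      rw [← aeval_algHom_apply]
    rw [h2] at h1
    have h3 : aeval (AdjoinRoot.root h ^ N) L.charpoly = 0 := by
      have := congrArg (fun T : A →ₗ[ℤ] A => T 1) h1
      simpa using this
    have h4 : aeval (AdjoinRoot.root h) (L.charpoly.comp (X ^ N)) = 0 := by
      rw [aeval_comp, map_pow, aeval_X]
      exact h3
    rw [AdjoinRoot.aeval_eq, AdjoinRoot.mk_eq_zero] at h4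
    exact h4

end Pool.Agent.Lib.MP_7ab245_nt.Energy
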