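import Mathlib
import Pool.Agent.Lib.MP_7ab245_nt.Energy
import Pool.Agent.Lib.MP_7ab245_nt.HenselFactor

set_option autoImplicit false

namespace Pool.Agent.Lib.MP_7ab245_nt.Energy

open Polynomial Finset

/-- Energy inequality for a polynomial with a factor modulo `m` dividing `ρ(X ^ N)`. -/
theorem energy_factor (m N : ℕ) (hm : 2 ≤ m) (f g₀ h₀ ρ : ℤ[X]) (hf : f.Monic) (hg₀ : g₀.Monic)
    (hh₀ : h₀.Monic) (hρ : ρ.Monic)
    (hfac : f.map (Int.castRingHom (ZMod m)) =
      g₀.map (Int.castRingHom (ZMod m)) * h₀.map (Int.castRingHom (ZMod m)))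
    (hcop : IsCoprime (g₀.map (Int.castRingHom (ZMod m))) (h₀.map (Int.castRingHom (ZMod m))))
    (hdvd : g₀.map (Int.castRingHom (ZMod m)) ∣ (ρ.comp (X ^ N)).map (Int.castRingHom (ZMod m)))
    (hdist : ((f.map (algebraMap ℤ ℂ)).roots.map (· ^ N)).Nodup) :
    (m : ℝ) ^ (2 * ∑ i ∈ range g₀.natDegree, i / ρ.natDegree) ≤
      (f.natDegree : ℝ) ^ f.natDegree *
        (f.map (algebraMap ℤ ℂ)).mahlerMeasure ^ (2 * N * (f.natDegree - 1)) := by
  classical
  have : Fact (1 < m) := ⟨by omega⟩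
  have : Nontrivial (ZMod m) := ZMod.nontrivial m
  have hdegf : f.natDegree = h₀.natDegree + g₀.natDegree := by
    rw [← hf.natDegree_map (Int.castRingHom (ZMod m)), hfac,
      (hg₀.map _).natDegree_mul (hh₀.map _), hg₀.natDegree_map,
      hh₀.natDegree_map, add_comm]
  obtain ⟨g, h, e, hgm, hhm, hgd, hhd, hgr, hhr, hfe⟩ :=
    hensel m hm f g₀ h₀ hf hg₀ hh₀ hfac hcop f.natDegree
  obtain ⟨H, hHm, hHd, w, hw⟩ := exists_power_poly h hhm N
  -- ρ(X^N) = g q + m u
  obtain ⟨q', hq'⟩ := hdvd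
  obtain ⟨q, rfl⟩ := Polynomial.map_surjective (Int.castRingHom (ZMod m))
    (ZMod.ringHom_surjective _) q'
  have h0 : (ρ.comp (X ^ N) - g * q).map (Int.castRingHom (ZMod m)) = 0 := by
    rw [Polynomial.map_sub, Polynomial.map_mul, hgr, hq', sub_self]
  obtain ⟨u, hu⟩ := (map_eq_zero_iff_dvd m _).1 h0
  set D := ρ.natDegree with hD
  set G := g₀.natDegree with hG
  set E := h₀.natDegree with hE
  set P : ℕ → ℤ[X] := fun j => if j < E then X ^ j else
    H * ρ ^ ((j - E) / D) * X ^ ((j - E) % D) with hP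
  set a : ℕ → ℕ := fun j => if j < E then 0 else (j - E) / D with ha
  have hmain := energy_gen f hf m N (fun j => P j) ?_ ?_ (fun j => a j) ?_ hdist
  · have hsum : ∑ j : Fin f.natDegree, a j = ∑ i ∈ range G, i / D := by
      rw [Fin.sum_univ_eq_sum_range, hdegf, Finset.sum_range_add]
      have h1 : ∑ x ∈ range E, a x = 0 := by
        apply Finset.sum_eq_zero
        intro x hx
        simp only [ha, if_pos (Finset.mem_range.1 hx)]
      rw [h1, zero_add]
      apply Finset.sum_congr rfl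
      intro x _
      simp only [ha]
      rw [if_neg (by omega), Nat.add_sub_cancel_left]
    rw [hsum] at hmain
    exact hmain
  · intro j
    simp only [hP]
    split_ifs
    · exact monic_X_pow _
    · exact (hHm.mul (hρ.pow _)).mul (monic_X_pow _)
  · intro j
    simp only [hP]
    split_ifs with hj
    · exact natDegree_X_pow _
    · rw [(hHm.mul (hρ.pow _)).natDegree_mul (monic_X_pow _), hHm.natDegree_mul (hρ.pow _),
        hρ.natDegree_pow, natDegree_X_pow, ← hD, hHd, hhd, add_assoc, mul_comm,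
        Nat.div_add_mod]
      omega
  · intro j
    simp only [hP, ha]
    split_ifs with hj
    · exact ⟨(X ^ (j : ℕ) : ℤ[X]).comp (X ^ N), by simp⟩
    · set k := (↑j - E) / D with hk
      set b := (↑j - E) % D with hb
      have hkn : k ≤ f.natDegree + 1 := by
        have h1 : k ≤ (↑j : ℕ) - E := Nat.div_le_self _ _
        have h2 := j.2
        omega
      obtain ⟨l, hl⟩ := Nat.exists_eq_add_of_le hkn
      have hρN : ρ.comp (X ^ N) = g * q + C (m : ℤ) * u := by rw [← hu]; ring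
      obtain ⟨y, hy⟩ := sub_dvd_pow_sub_pow (g * q + C (m : ℤ) * u) (C (m : ℤ) * u) k
      have hy2 : (g * q + C (m : ℤ) * u) ^ k = (C (m : ℤ) * u) ^ k + g * q * y := by
        linear_combination hy
      refine ⟨h * w * u ^ k * (X ^ N) ^ b - C ((m : ℤ) ^ l) * (e * w * q * y * (X ^ N) ^ b), ?_⟩
      refine ⟨w * q * y * (X ^ N) ^ b, ?_⟩
      have e1 : C ((m : ℤ) ^ (f.natDegree + 1)) = C ((m : ℤ) ^ k) * C ((m : ℤ) ^ l) := by
        rw [← C_mul, ← pow_add, hl]
      have e2 : C ((m : ℤ) ^ k) = (C (m : ℤ)) ^ k := by rw [C_pow]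
      rw [mul_comp, mul_comp, pow_comp, pow_comp, X_comp, hw, hρN, hy2, mul_pow]
      rw [e1] at hfe
      rw [← e2]
      linear_combination (-(w * q * y * (X ^ N) ^ b)) * hfe

end Pool.Agent.Lib.MP_7ab245_nt.Energy
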