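import Mathlib
import Pool.Agent.Lib.MP_7ab245_nt.EnergyFactor
import Pool.Agent.Lib.MP_7ab245_nt.EnergyArith

set_option autoImplicit false

namespace Pool.Agent.Results.MP_7ab245_nt.EnergyPowerMod

open Polynomial

/-- Let `f` be a monic integer polynomial of degree `n ≥ 1`, let `m ≥ 2`, and suppose that modulo
`m` it factors as `g * h` with `g`, `h` monic and coprime modulo `m`, where `g` divides
`ρ(X ^ N)` modulo `m` for some monic `ρ`. Assume that the `N`-th powers of the complex roots of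
`f` are pairwise distinct. If `deg g ≥ ε n`, `N * deg ρ ≤ K * deg g` and
`deg ρ * (1 + log_m n / ε) ≤ δ * deg g`, then `M(f) ≥ m ^ ((1 - δ) ε / (2 K))`. -/
theorem result (m N : ℕ) (hm : 2 ≤ m) (f g h ρ : ℤ[X]) (hf : f.Monic) (hn : 0 < f.natDegree)
    (hg : g.Monic) (hh : h.Monic) (hρ : ρ.Monic)
    (hfac : f.map (Int.castRingHom (ZMod m)) =
      g.map (Int.castRingHom (ZMod m)) * h.map (Int.castRingHom (ZMod m)))
    (hcop : IsCoprime (g.map (Int.castRingHom (ZMod m))) (h.map (Int.castRingHom (ZMod m))))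
    (hdvd : g.map (Int.castRingHom (ZMod m)) ∣ (ρ.comp (X ^ N)).map (Int.castRingHom (ZMod m)))
    (hdist : ((f.map (algebraMap ℤ ℂ)).roots.map (· ^ N)).Nodup)
    (ε K δ : ℝ) (hε : 0 < ε) (hK : 0 < K) (hδ0 : 0 < δ) (hδ : δ < 1)
    (hG : ε * f.natDegree ≤ g.natDegree)
    (hND : (N : ℝ) * ρ.natDegree ≤ K * g.natDegree)
    (hlog : (ρ.natDegree : ℝ) * (1 + Real.logb m f.natDegree / ε) ≤ δ * g.natDegree) :
    (m : ℝ) ^ ((1 - δ) * ε / (2 * K)) ≤ (f.map (algebraMap ℤ ℂ)).mahlerMeasure := by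
  have hE := Pool.Agent.Lib.MP_7ab245_nt.Energy.energy_factor m N hm f g h ρ hf hg hh hρ hfac
    hcop hdvd hdist
  have hGpos : 0 < g.natDegree := by
    have h1 : (0 : ℝ) < ε * f.natDegree := by
      have : (0 : ℝ) < f.natDegree := by exact_mod_cast hn
      positivity
    exact_mod_cast h1.trans_le hG
  have hD : 0 < ρ.natDegree := by
    rcases Nat.eq_zero_or_pos ρ.natDegree with h0 | h0
    · exfalso
      have : Fact (1 < m) := ⟨by omega⟩
      have : Nontrivial (ZMod m) := ZMod.nontrivial m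
      have h1 : ρ = 1 := hρ.natDegree_eq_zero.1 h0
      rw [h1, one_comp, Polynomial.map_one] at hdvd
      have h2 := (hg.map (Int.castRingHom (ZMod m))).eq_one_of_isUnit (isUnit_of_dvd_one hdvd)
      have h3 := hg.natDegree_map (Int.castRingHom (ZMod m))
      rw [h2, natDegree_one] at h3
      omega
    · exact h0
  have hM : 1 ≤ (f.map (algebraMap ℤ ℂ)).mahlerMeasure := by
    apply one_le_mahlerMeasure_of_one_le_norm_leadingCoeff
    rw [(hf.map (algebraMap ℤ ℂ)).leadingCoeff, norm_one]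
  exact Pool.Agent.Lib.MP_7ab245_nt.Energy.arith m f.natDegree g.natDegree ρ.natDegree N _ hm hn
    hD _ hM (Pool.Agent.Lib.MP_7ab245_nt.Energy.sum_div_ge _ hD _) hE ε K δ hε hK hδ0 hδ hG hND
    hlog

end Pool.Agent.Results.MP_7ab245_nt.EnergyPowerMod
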