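import Mathlib

set_option autoImplicit false

namespace Pool.Agent.Lib.MP_7ab245_nt.Energy

open Polynomial Finset

theorem card_filter_count_map {A B : Type*} [DecidableEq A] [DecidableEq B] (s : Multiset A)
    (σ : A → B) (hσ : Function.Injective σ) (K : ℕ) :
    Multiset.card ((s.map σ).filter fun r => K ≤ (s.map σ).count r) =
      Multiset.card (s.filter fun r => K ≤ s.count r) := by
  rw [Multiset.filter_map, Multiset.card_map]
  congr 1
  apply Multiset.filter_congr
  intro x _
  simp only [Function.comp]
  rw [Multiset.count_map_eq_count' _ _ hσ]

theorem card_filter_roots_splitting {F L : Type*} [Field F] [Field L] [Algebra F L]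
    [DecidableEq L] (f : F[X]) [DecidableEq f.SplittingField]
    (h : (f.map (algebraMap F L)).Splits) (K : ℕ) :
    Multiset.card ((f.map (algebraMap F L)).roots.filter
        fun r => K ≤ (f.map (algebraMap F L)).roots.count r) =
      Multiset.card ((f.map (algebraMap F f.SplittingField)).roots.filter
        fun r => K ≤ (f.map (algebraMap F f.SplittingField)).roots.count r) := by
  have hr : (f.map (algebraMap F L)).roots =
      (f.map (algebraMap F f.SplittingField)).roots.map (SplittingField.lift f h) := by
    have h1 := (SplittingField.splits f).roots_map (SplittingField.lift f h : _ →+* L)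
    rw [Polynomial.map_map] at h1
    have h2 : ((SplittingField.lift f h : f.SplittingField →ₐ[F] L) : f.SplittingField →+* L).comp
        (algebraMap F f.SplittingField) = algebraMap F L :=
      (SplittingField.lift f h).comp_algebraMap
    rw [h2] at h1
    exact h1
  rw [hr]
  exact card_filter_count_map _ _ (SplittingField.lift f h).injective K

/-- The number of roots of multiplicity at least `K` does not depend on the splitting field. -/
theorem card_filter_roots_eq {F L₁ L₂ : Type*} [Field F] [Field L₁] [Field L₂] [Algebra F L₁]
    [Algebra F L₂] [DecidableEq L₁] [DecidableEq L₂] (f : F[X])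
    (h₁ : (f.map (algebraMap F L₁)).Splits) (h₂ : (f.map (algebraMap F L₂)).Splits) (K : ℕ) :
    Multiset.card ((f.map (algebraMap F L₁)).roots.filter
        fun r => K ≤ (f.map (algebraMap F L₁)).roots.count r) =
      Multiset.card ((f.map (algebraMap F L₂)).roots.filter
        fun r => K ≤ (f.map (algebraMap F L₂)).roots.count r) := by
  classical
  rw [card_filter_roots_splitting f h₁, card_filter_roots_splitting f h₂]

end Pool.Agent.Lib.MP_7ab245_nt.Energy
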