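import Mathlib
import Pool.Agent.Lib.MP_7ab245_nt.Mono.Main
import Pool.Agent.Lib.MP_7ab245_nt.Mono.DobroFull

/-!
Lehmer's problem and the number of monomials: the Mahler measure of an integer polynomial with
`k` nonzero coefficients is either at most one or at least `1 + c / k ^ 6`.
-/

set_option autoImplicit false

open Polynomial

namespace Pool.Agent.Lib.MP_7ab245_nt.MonomialCount

theorem result : ∃ c : ℝ, 0 < c ∧ ∀ f : ℤ[X],
    1 < (f.map (Int.castRingHom ℂ)).mahlerMeasure →
    1 + c / (f.support.card : ℝ) ^ 6 ≤ (f.map (Int.castRingHom ℂ)).mahlerMeasure := by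
  obtain ⟨c, hc, h⟩ := Pool.Agent.Lib.MP_7ab245_nt.Mono.main_of_dobrowolski
    Pool.Agent.Lib.MP_7ab245_nt.Mono.dobrowolski_full
  exact ⟨c, hc, fun f hf => h _ f le_rfl hf⟩

end Pool.Agent.Lib.MP_7ab245_nt.MonomialCount
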