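import Mathlib

set_option autoImplicit false

namespace Pool.Agent.Lib.MP_7ab245_nt.Energy

open Polynomial Finset

section Padic

variable (p : ℕ) [hp : Fact p.Prime]

/-- The valuation ring of the algebraic closure of `ℚ_p`. -/
noncomputable abbrev OO : ValuationSubring (PadicAlgCl p) :=
  (PadicAlgCl.valued p).v.valuationSubring

/-- Its residue field. -/
noncomputable abbrev kk : Type := IsLocalRing.ResidueField (OO p)

theorem mem_OO {x : PadicAlgCl p} : x ∈ OO p ↔ ‖x‖ ≤ 1 := by
  rw [Valuation.mem_valuationSubring_iff, ← NNReal.coe_le_coe, PadicAlgCl.valuation_coe]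
  simp

theorem norm_le_one (x : OO p) : ‖(x : PadicAlgCl p)‖ ≤ 1 := (mem_OO p).1 x.2

theorem residue_eq_zero {x : OO p} :
    IsLocalRing.residue (OO p) x = 0 ↔ ‖(x : PadicAlgCl p)‖ < 1 := by
  rw [IsLocalRing.residue_eq_zero_iff, IsLocalRing.mem_maximalIdeal, mem_nonunits_iff]
  constructor
  · intro h
    refine lt_of_le_of_ne (norm_le_one p x) fun h1 => h ?_
    have hx0 : (x : PadicAlgCl p) ≠ 0 := by
      intro h0
      rw [h0, norm_zero] at h1
      exact zero_ne_one h1
    have hinv : (x : PadicAlgCl p)⁻¹ ∈ OO p := by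
      rw [mem_OO, norm_inv, h1, inv_one]
    refine IsUnit.of_mul_eq_one (⟨(x : PadicAlgCl p)⁻¹, hinv⟩ : OO p) ?_
    exact Subtype.ext (mul_inv_cancel₀ hx0)
  · rintro h ⟨u, rfl⟩
    have h1 : ((u : OO p) : PadicAlgCl p) * ((u⁻¹ : (OO p)ˣ) : OO p) = 1 := by
      rw [← MulMemClass.coe_mul, Units.mul_inv, OneMemClass.coe_one]
    have h2 := congrArg norm h1
    rw [norm_mul, norm_one] at h2
    have h3 := norm_le_one p ((u⁻¹ : (OO p)ˣ) : OO p)
    nlinarith [norm_nonneg (((u⁻¹ : (OO p)ˣ) : OO p) : PadicAlgCl p),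
      norm_nonneg ((u : OO p) : PadicAlgCl p)]

theorem norm_eq_one_of_residue_ne {x : OO p} (h : IsLocalRing.residue (OO p) x ≠ 0) :
    ‖(x : PadicAlgCl p)‖ = 1 := by
  refine le_antisymm (norm_le_one p x) ?_
  by_contra hlt
  push Not at hlt
  exact h ((residue_eq_zero p).2 hlt)

theorem norm_p : ‖((p : OO p) : PadicAlgCl p)‖ = (p : ℝ)⁻¹ := by
  have h := PadicAlgCl.valuation_p p
  have h2 : ((Valued.v ((p : ℕ) : PadicAlgCl p) : NNReal) : ℝ) = ‖((p : ℕ) : PadicAlgCl p)‖ :=
    PadicAlgCl.valuation_coe p _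
  rw [h] at h2
  push_cast at h2 ⊢
  rw [← h2, one_div]

theorem residue_p : ((p : ℕ) : kk p) = 0 := by
  have h : IsLocalRing.residue (OO p) ((p : ℕ) : OO p) = 0 := by
    rw [residue_eq_zero, norm_p]
    have : (1 : ℝ) < p := by exact_mod_cast hp.out.one_lt
    exact inv_lt_one_of_one_lt₀ this
  rw [map_natCast] at h
  exact h

noncomputable instance charP_kk : CharP (kk p) p := by
  refine (CharP.charP_iff_prime_eq_zero hp.out).2 (residue_p p)

noncomputable instance algebra_kk : Algebra (ZMod p) (kk p) := ZMod.algebra (kk p) p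

/-- Roots of a monic integer polynomial lie in the valuation ring. -/
theorem exists_roots_OO (f : ℤ[X]) (hf : f.Monic) :
    ∃ α : Fin f.natDegree → OO p,
      f.map (algebraMap ℤ (PadicAlgCl p)) =
        ((univ.val.map fun i => (α i : PadicAlgCl p)).map fun t => X - C t).prod ∧
      f.map (algebraMap ℤ (OO p)) = ((univ.val.map α).map fun t => X - C t).prod := by
  classical
  set F := f.map (algebraMap ℤ (PadicAlgCl p)) with hF
  have hFm : F.Monic := hf.map _
  have hsplit : F = (F.roots.map fun a => X - C a).prod := by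
    have := (IsAlgClosed.splits F).eq_prod_roots
    rw [hFm.leadingCoeff, C_1, one_mul] at this
    exact this
  have hcard : Multiset.card F.roots = f.natDegree := by
    rw [IsAlgClosed.card_roots_eq_natDegree, hF, hf.natDegree_map]
  obtain ⟨l, hl⟩ : ∃ l : List (PadicAlgCl p), (l : Multiset (PadicAlgCl p)) = F.roots :=
    ⟨F.roots.toList, by simp⟩
  have hlen : l.length = f.natDegree := by rw [← hcard, ← hl, Multiset.coe_card]
  have hmap : (univ.val.map fun i : Fin l.length => l.get i) = F.roots := by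
    rw [← hl, Fin.univ_val_map]
    simp
  have hmem : ∀ i : Fin l.length, l.get i ∈ OO p := by
    intro i
    have h1 : l.get i ∈ F.roots := by
      rw [← hl]
      exact Multiset.mem_coe.2 (l.get_mem i)
    have h2 : eval₂ (algebraMap ℤ (PadicAlgCl p)) (l.get i) f = 0 := by
      have := (mem_roots'.1 h1).2
      rw [IsRoot.def, hF, eval_map] at this
      exact this
    have h3 : IsIntegral (PadicAlgCl.valued p).v.integer (l.get i) := by
      have : IsIntegral ℤ (l.get i) := ⟨f, hf, h2⟩
      exact this.tower_top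
    exact (Valuation.integer.integers (PadicAlgCl.valued p).v).mem_of_integral h3
  rw [← hlen]
  refine ⟨fun i => ⟨l.get i, hmem i⟩, ?_, ?_⟩
  · simp only
    rw [hmap]
    exact hsplit
  · apply Polynomial.map_injective (algebraMap (OO p) (PadicAlgCl p)) Subtype.val_injective
    rw [Polynomial.map_map]
    have h1 : (algebraMap (OO p) (PadicAlgCl p)).comp (algebraMap ℤ (OO p)) =
        algebraMap ℤ (PadicAlgCl p) := RingHom.ext_int _ _
    rw [h1, Polynomial.map_multiset_prod, Multiset.map_map, Multiset.map_map]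
    rw [← hF, hsplit, ← hmap, Multiset.map_map]
    congr 1
    apply Multiset.map_congr rfl
    intro i _
    simp only [Function.comp, Polynomial.map_sub, map_X, map_C]
    rfl

end Padic

end Pool.Agent.Lib.MP_7ab245_nt.Energy
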