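import Mathlib
import Pool.Agent.Lib.MP_7ab245_nt.PadicRoots
import Pool.Agent.Lib.MP_7ab245_nt.HenselFactor

set_option autoImplicit false

namespace Pool.Agent.Lib.MP_7ab245_nt.Energy

open Polynomial Finset

section Padic

variable (p : ℕ) [hp : Fact p.Prime]

theorem residue_aeval (x : OO p) (g : ℤ[X]) :
    IsLocalRing.residue (OO p) (aeval x g) =
      aeval (IsLocalRing.residue (OO p) x) (g.map (Int.castRingHom (ZMod p))) := by
  rw [aeval_def, aeval_def, hom_eval₂, eval₂_map]
  congr 1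
  exact RingHom.ext_int _ _

/-- If the residue of a root `x` of `f` is `r`, then `π(x)` is small, `π` being a lift of the
minimal polynomial of `r`. -/
theorem small_value (f g h w : ℤ[X]) (e : ℕ) (hf : f = g ^ e * h + C (p : ℤ) * w)
    (x : OO p) (hx : aeval x f = 0) (hh : IsLocalRing.residue (OO p) (aeval x h) ≠ 0) :
    ‖((aeval x g : OO p) : PadicAlgCl p)‖ ^ e ≤ (p : ℝ)⁻¹ := by
  have h1 : (aeval x g) ^ e * aeval x h = -((p : OO p) * aeval x w) := by
    rw [hf] at hx
    simp only [map_add, map_mul, map_pow, aeval_C] at hx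
    have : (algebraMap ℤ (OO p)) (p : ℤ) = (p : OO p) := by simp
    rw [this] at hx
    exact eq_neg_of_add_eq_zero_left hx
  have h2 := congrArg (fun t : OO p => ‖(t : PadicAlgCl p)‖) h1
  rw [MulMemClass.coe_mul, SubmonoidClass.coe_pow, norm_mul, norm_pow,
    norm_eq_one_of_residue_ne p hh, mul_one, NegMemClass.coe_neg, norm_neg, MulMemClass.coe_mul,
    norm_mul, norm_p] at h2
  rw [h2]
  exact mul_le_of_le_one_right (by positivity) (norm_le_one p _)

theorem close_roots (f : ℤ[X]) (hf : f.Monic) (x y : OO p) (hx : aeval x f = 0)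
    (hy : aeval y f = 0) (hxy : IsLocalRing.residue (OO p) x = IsLocalRing.residue (OO p) y)
    [DecidableEq (kk p)] (e : ℕ)
    (he : ((f.map (Int.castRingHom (ZMod p))).map (algebraMap (ZMod p) (kk p))).roots.count
      (IsLocalRing.residue (OO p) x) ≤ e) :
    ‖(x : PadicAlgCl p) - y‖ ^ e ≤ (p : ℝ)⁻¹ := by
  set r := IsLocalRing.residue (OO p) x with hr
  set fb := f.map (Int.castRingHom (ZMod p)) with hfb
  have hfbm : fb.Monic := hf.map _
  have hroot : aeval r fb = 0 := by
    rw [hr, ← residue_aeval, hx, map_zero]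
  have hint : IsIntegral (ZMod p) r := ⟨fb, hfbm, hroot⟩
  set π := minpoly (ZMod p) r with hπ
  have hπirr : Irreducible π := minpoly.irreducible hint
  have hπsep : π.Separable := PerfectField.separable_of_irreducible hπirr
  have hfin : FiniteMultiplicity π fb :=
    FiniteMultiplicity.of_not_isUnit hπirr.not_isUnit hfbm.ne_zero
  obtain ⟨hb, hfac, hndvd⟩ := hfin.exists_eq_pow_mul_and_not_dvd
  set e' := multiplicity π fb with he'
  have hsurj : Function.Surjective (Polynomial.map (Int.castRingHom (ZMod p))) :=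
    Polynomial.map_surjective _ (ZMod.ringHom_surjective _)
  obtain ⟨g, hg⟩ := hsurj π
  obtain ⟨h, hh⟩ := hsurj hb
  have h0 : (f - g ^ e' * h).map (Int.castRingHom (ZMod p)) = 0 := by
    rw [Polynomial.map_sub, Polynomial.map_mul, Polynomial.map_pow, hg, hh, ← hfb, ← hfac,
      sub_self]
  obtain ⟨w, hw⟩ := (map_eq_zero_iff_dvd p _).1 h0
  have hfeq : f = g ^ e' * h + C (p : ℤ) * w := by rw [← hw]; ring
  have hbr : aeval r hb ≠ 0 := fun h2 => hndvd (minpoly.dvd _ _ h2)
  have hxs := small_value p f g h w e' hfeq x hx (by rw [residue_aeval, hh, ← hr]; exact hbr)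
  have hys := small_value p f g h w e' hfeq y hy
    (by rw [residue_aeval, hh, ← hxy]; exact hbr)
  -- derivative
  have hder : IsLocalRing.residue (OO p) (aeval x (derivative g)) ≠ 0 := by
    rw [residue_aeval, ← derivative_map, hg, ← hr]
    exact hπsep.aeval_derivative_ne_zero (minpoly.aeval _ _)
  obtain ⟨k, hk⟩ := binomExpansion (g.map (algebraMap ℤ (OO p))) x (y - x)
  rw [add_sub_cancel, derivative_map] at hk
  simp only [eval_map_algebraMap] at hk
  have hk2 : aeval y g - aeval x g = (y - x) * (aeval x (derivative g) + k * (y - x)) := by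
    rw [hk]; ring
  have hunit : ‖((aeval x (derivative g) + k * (y - x) : OO p) : PadicAlgCl p)‖ = 1 := by
    apply norm_eq_one_of_residue_ne
    rw [map_add, map_mul, map_sub, ← hxy, ← hr, sub_self, mul_zero, add_zero]
    exact hder
  have hk3 := congrArg (fun t : OO p => ‖(t : PadicAlgCl p)‖) hk2
  rw [MulMemClass.coe_mul, norm_mul, hunit, mul_one] at hk3
  have hle : ‖(x : PadicAlgCl p) - y‖ ≤
      max ‖((aeval y g : OO p) : PadicAlgCl p)‖ ‖((aeval x g : OO p) : PadicAlgCl p)‖ := by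
    rw [norm_sub_rev]
    have : ((y - x : OO p) : PadicAlgCl p) = (y : PadicAlgCl p) - x := rfl
    rw [← this, ← hk3]
    have h5 : ((aeval y g - aeval x g : OO p) : PadicAlgCl p) =
        ((aeval y g : OO p) : PadicAlgCl p) + -((aeval x g : OO p) : PadicAlgCl p) := by
      rw [← sub_eq_add_neg]
      rfl
    rw [h5]
    refine (IsUltrametricDist.norm_add_le_max _ _).trans ?_
    rw [norm_neg]
  have hle2 : ‖(x : PadicAlgCl p) - y‖ ^ e' ≤ (p : ℝ)⁻¹ := by
    refine (pow_le_pow_left₀ (norm_nonneg _) hle e').trans ?_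
    rcases max_cases ‖((aeval y g : OO p) : PadicAlgCl p)‖ ‖((aeval x g : OO p) : PadicAlgCl p)‖
      with ⟨h1, _⟩ | ⟨h1, _⟩
    · rw [h1]; exact hys
    · rw [h1]; exact hxs
  have hecount : e' ≤ e := by
    refine le_trans ?_ he
    rw [count_roots, le_rootMultiplicity_iff ((hfbm.map _).ne_zero)]
    have h1 : (X - C r) ∣ π.map (algebraMap (ZMod p) (kk p)) := by
      rw [dvd_iff_isRoot, IsRoot.def, eval_map_algebraMap]
      exact minpoly.aeval _ _
    have h2 : (π.map (algebraMap (ZMod p) (kk p))) ^ e' ∣ fb.map (algebraMap (ZMod p) (kk p)) := by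
      rw [← Polynomial.map_pow]
      exact Polynomial.map_dvd _ ⟨hb, hfac⟩
    exact (pow_dvd_pow_of_dvd h1 e').trans h2
  refine (pow_le_pow_of_le_one (norm_nonneg _) ?_ hecount).trans hle2
  have : (x : PadicAlgCl p) - y = ((x - y : OO p) : PadicAlgCl p) := rfl
  rw [this]
  exact norm_le_one p _

/-- Raising to a power of `p` brings close elements closer. -/
theorem close_pow (x y : OO p) (j e : ℕ) (hxy : ‖(x : PadicAlgCl p) - y‖ ^ e ≤ (p : ℝ)⁻¹)
    (hK : p ^ j ≤ e) :
    ‖(x : PadicAlgCl p) ^ p ^ j - (y : PadicAlgCl p) ^ p ^ j‖ ^ e ≤ ((p : ℝ)⁻¹) ^ p ^ j := by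
  obtain ⟨r, hr⟩ := exists_add_pow_prime_pow_eq hp.out y (x - y) j
  have hr2 : x ^ p ^ j - y ^ p ^ j = (x - y) ^ p ^ j + (p : OO p) * (y * (x - y) * r) := by
    have : x = y + (x - y) := by ring
    rw [← this] at hr
    rw [hr]; ring
  have h1 : (x : PadicAlgCl p) ^ p ^ j - (y : PadicAlgCl p) ^ p ^ j =
      ((x : PadicAlgCl p) - y) ^ p ^ j + ((p : OO p) : PadicAlgCl p) *
        ((y * (x - y) * r : OO p) : PadicAlgCl p) := by
    have := congrArg (Subtype.val : OO p → PadicAlgCl p) hr2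
    push_cast at this ⊢
    exact this
  have hp0 : (0 : ℝ) ≤ (p : ℝ)⁻¹ := by positivity
  have hp1 : (p : ℝ)⁻¹ ≤ 1 := by
    apply inv_le_one_of_one_le₀
    exact_mod_cast hp.out.one_lt.le
  rw [h1]
  have h2 : ‖((x : PadicAlgCl p) - y) ^ p ^ j + ((p : OO p) : PadicAlgCl p) *
        ((y * (x - y) * r : OO p) : PadicAlgCl p)‖ ≤
      max (‖(x : PadicAlgCl p) - y‖ ^ p ^ j) (p : ℝ)⁻¹ := by
    refine (IsUltrametricDist.norm_add_le_max _ _).trans ?_
    apply max_le_max
    · rw [norm_pow]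
    · rw [norm_mul, norm_p]
      exact mul_le_of_le_one_right hp0 (norm_le_one p _)
  refine (pow_le_pow_left₀ (norm_nonneg _) h2 e).trans ?_
  rcases max_cases (‖(x : PadicAlgCl p) - y‖ ^ p ^ j) (p : ℝ)⁻¹ with ⟨h3, _⟩ | ⟨h3, _⟩
  · rw [h3, ← pow_mul, mul_comm, pow_mul]
    exact pow_le_pow_left₀ (by positivity) hxy _
  · rw [h3]
    exact pow_le_pow_of_le_one hp0 hp1 hK

end Padic

end Pool.Agent.Lib.MP_7ab245_nt.Energy
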