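import Mathlib
import Pool.Agent.Lib.MP_7ab245_nt.Energy

set_option autoImplicit false

namespace Pool.Agent.Lib.MP_7ab245_nt.Energy

open Polynomial Finset

/-- A symmetric function of the roots is a universal integer expression in the coefficients. -/
theorem symm_eval {K : Type*} [Field K] {n : ℕ} (f : ℤ[X]) (α : Fin n → K)
    (hα : f.map (algebraMap ℤ K) = ((univ.val.map α).map fun t => X - C t).prod)
    (Q : MvPolynomial (Fin n) ℤ) :
    MvPolynomial.aeval α (MvPolynomial.aeval
      (fun i : Fin n => MvPolynomial.esymm (Fin n) ℤ (i + 1)) Q) =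
    ((MvPolynomial.aeval (fun i : Fin n => (-1) ^ ((i : ℕ) + 1) * f.coeff (n - (i + 1))) Q : ℤ) :
      K) := by
  classical
  set z : Fin n → ℤ := fun i => (-1) ^ ((i : ℕ) + 1) * f.coeff (n - (i + 1)) with hzdef
  have hz : ∀ i : Fin n,
      MvPolynomial.aeval α (MvPolynomial.esymm (Fin n) ℤ (i + 1)) = (z i : K) := by
    intro i
    rw [MvPolynomial.aeval_esymm_eq_multiset_esymm]
    set s : Multiset K := univ.val.map α with hs
    have hcard : Multiset.card s = n := by simp [hs]
    have hk : n - (i + 1) ≤ Multiset.card s := by omega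
    have h1 := Multiset.prod_X_sub_C_coeff s hk
    rw [← hα, coeff_map] at h1
    have h2 : Multiset.card s - (n - (i + 1)) = i + 1 := by
      have := i.2
      omega
    rw [h2] at h1
    rw [hzdef]
    push_cast
    rw [show ((f.coeff (n - (↑i + 1)) : ℤ) : K) = (algebraMap ℤ K) (f.coeff (n - (↑i + 1))) by simp,
      h1, ← mul_assoc, ← mul_pow]
    norm_num
  have h3 : MvPolynomial.aeval α (MvPolynomial.aeval (fun i : Fin n =>
      MvPolynomial.esymm (Fin n) ℤ (i + 1)) Q)
      = MvPolynomial.aeval (fun i => ((z i : ℤ) : K)) Q := by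
    rw [← AlgHom.comp_apply]
    congr 1
    apply MvPolynomial.algHom_ext
    intro i
    simp [hz i]
  rw [h3]
  have h4 : MvPolynomial.aeval (fun i => ((z i : ℤ) : K)) Q
      = (Int.castRingHom K) (MvPolynomial.aeval z Q) := by
    rw [MvPolynomial.aeval_def, MvPolynomial.aeval_def]
    rw [MvPolynomial.hom_eval₂]
    congr 1
  rw [h4]
  rfl

/-- The discriminant of the polynomial with roots `α i ^ N` is the same integer in every field in
which `f` splits. -/
theorem vandermonde_int (n N : ℕ) (f : ℤ[X]) :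
    ∃ z : ℤ, ∀ (K : Type) [Field K] (α : Fin n → K),
      f.map (algebraMap ℤ K) = ((univ.val.map α).map fun t => X - C t).prod →
      (Matrix.vandermonde fun i => α i ^ N).det ^ 2 = (z : K) := by
  classical
  set A : Matrix (Fin n) (Fin n) (MvPolynomial (Fin n) ℤ) :=
    Matrix.vandermonde fun i => MvPolynomial.X i ^ N with hA
  have hsymm : (A.det ^ 2).IsSymmetric := by
    intro e
    rw [map_pow]
    have h1 : MvPolynomial.rename e A.det = (A.submatrix e id).det := by
      rw [AlgHom.map_det]
      congr 1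
      ext i j : 2
      simp only [hA, AlgHom.mapMatrix_apply, Matrix.map_apply, Matrix.vandermonde_apply,
        Matrix.submatrix_apply, id]
      rw [map_pow, map_pow, MvPolynomial.rename_X]
    rw [h1, Matrix.det_permute, mul_pow]
    have h2 : (((Equiv.Perm.sign e : ℤˣ) : ℤ) : MvPolynomial (Fin n) ℤ) ^ 2 = 1 := by
      rw [← Int.cast_pow]
      have : ((Equiv.Perm.sign e : ℤˣ) : ℤ) ^ 2 = 1 := by
        rcases Int.units_eq_one_or (Equiv.Perm.sign e) with h | h <;> rw [h] <;> norm_num
      rw [this, Int.cast_one]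
    rw [h2, one_mul]
  obtain ⟨Q, hQ⟩ := MvPolynomial.esymmAlgHom_surjective (σ := Fin n) (n := n) ℤ
    (by simp) (⟨A.det ^ 2, hsymm⟩ : MvPolynomial.symmetricSubalgebra (Fin n) ℤ)
  have hQ' : MvPolynomial.aeval (fun i : Fin n => MvPolynomial.esymm (Fin n) ℤ (i + 1)) Q =
      A.det ^ 2 := by
    rw [← MvPolynomial.esymmAlgHom_apply, hQ]
  refine ⟨MvPolynomial.aeval (fun i : Fin n => (-1) ^ ((i : ℕ) + 1) * f.coeff (n - (i + 1))) Q, ?_⟩
  intro K _ α hα
  rw [← symm_eval f α hα Q, hQ', map_pow]
  congr 1
  rw [AlgHom.map_det]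
  congr 1
  ext i j : 2
  simp only [hA, AlgHom.mapMatrix_apply, Matrix.map_apply, Matrix.vandermonde_apply]
  rw [map_pow, map_pow, MvPolynomial.aeval_X]

/-- The square of a Vandermonde determinant as a product over ordered pairs. -/
theorem norm_vandermonde_sq {K : Type*} [NormedField K] {n : ℕ} (v : Fin n → K) :
    ‖(Matrix.vandermonde v).det‖ ^ 2 = ∏ i, ∏ j ∈ univ.erase i, ‖v i - v j‖ := by
  classical
  have h1 : ∀ i : Fin n, ∏ j ∈ univ.erase i, ‖v i - v j‖ =
      (∏ j ∈ Ioi i, ‖v i - v j‖) * ∏ j ∈ Iio i, ‖v i - v j‖ := by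
    intro i
    rw [← Finset.prod_union]
    · apply Finset.prod_congr _ fun _ _ => rfl
      ext j
      simp only [mem_erase, mem_univ, and_true, mem_union, mem_Ioi, mem_Iio]
      constructor
      · intro h
        rcases lt_or_gt_of_ne h with h | h
        · exact Or.inr h
        · exact Or.inl h
      · rintro (h | h)
        · exact h.ne'
        · exact h.ne
    · rw [Finset.disjoint_left]
      intro j hj hj'
      rw [mem_Ioi] at hj
      rw [mem_Iio] at hj'
      exact lt_asymm hj hj'
  simp_rw [h1]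
  rw [Finset.prod_mul_distrib, Matrix.det_vandermonde, norm_prod, sq]
  congr 1
  · apply Finset.prod_congr rfl
    intro i _
    rw [norm_prod]
    apply Finset.prod_congr rfl
    intro j _
    rw [norm_sub_rev]
  · simp_rw [norm_prod]
    apply Finset.prod_comm'
    intro i j
    simp

end Pool.Agent.Lib.MP_7ab245_nt.Energy
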