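import Mathlib
import Pool.Agent.Lib.MP_7ab245_nt.PadicClose
import Pool.Agent.Lib.MP_7ab245_nt.PowDisc
import Pool.Agent.Lib.MP_7ab245_nt.FilterCount

set_option autoImplicit false

namespace Pool.Agent.Lib.MP_7ab245_nt.Energy

open Polynomial Finset

section Padic

variable (p : ℕ) [hp : Fact p.Prime]

/-- The local estimate at one root. -/
theorem local_prod {n : ℕ} (α : Fin n → OO p) (i : Fin n) (j e : ℕ)
    (S : Finset (Fin n)) (hi : i ∈ S) (hS : #S = e) (hK : p ^ j ≤ e)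
    (hclose : ∀ l ∈ S, ‖(α i : PadicAlgCl p) - α l‖ ^ e ≤ (p : ℝ)⁻¹) :
    ∏ l ∈ univ.erase i, ‖(α i : PadicAlgCl p) ^ p ^ j - (α l : PadicAlgCl p) ^ p ^ j‖ ≤
      ((p : ℝ)⁻¹) ^ (p ^ j - 1) := by
  classical
  set F : Fin n → ℝ := fun l => ‖(α i : PadicAlgCl p) ^ p ^ j - (α l : PadicAlgCl p) ^ p ^ j‖
    with hF
  have hp0 : (0 : ℝ) ≤ (p : ℝ)⁻¹ := by positivity
  have hp1 : (p : ℝ)⁻¹ ≤ 1 := by
    apply inv_le_one_of_one_le₀
    exact_mod_cast hp.out.one_lt.le
  have hF0 : ∀ l, 0 ≤ F l := fun l => norm_nonneg _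
  have hF1 : ∀ l, F l ≤ 1 := by
    intro l
    have : (α i : PadicAlgCl p) ^ p ^ j - (α l : PadicAlgCl p) ^ p ^ j =
        ((α i ^ p ^ j - α l ^ p ^ j : OO p) : PadicAlgCl p) := by push_cast; rfl
    simp only [hF]
    rw [this]
    exact norm_le_one p _
  have hsub : S.erase i ⊆ univ.erase i := Finset.erase_subset_erase i (Finset.subset_univ S)
  have h1 : ∏ l ∈ univ.erase i, F l ≤ ∏ l ∈ S.erase i, F l := by
    rw [← Finset.prod_sdiff hsub]
    exact mul_le_of_le_one_left (Finset.prod_nonneg fun l _ => hF0 l)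
      (Finset.prod_le_one (fun l _ => hF0 l) fun l _ => hF1 l)
  refine h1.trans ?_
  have hKpos : 0 < p ^ j := pow_pos hp.out.pos j
  have he : 0 < e := lt_of_lt_of_le hKpos hK
  have hcard : #(S.erase i) = e - 1 := by rw [Finset.card_erase_of_mem hi, hS]
  have h2 : (∏ l ∈ S.erase i, F l) ^ e ≤ (((p : ℝ)⁻¹) ^ (p ^ j - 1)) ^ e := by
    rw [← Finset.prod_pow]
    calc ∏ l ∈ S.erase i, F l ^ e ≤ ∏ _l ∈ S.erase i, ((p : ℝ)⁻¹) ^ p ^ j := by
          apply Finset.prod_le_prod (fun l _ => pow_nonneg (hF0 l) e)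
          intro l hl
          exact close_pow p (α i) (α l) j e (hclose l (Finset.mem_of_mem_erase hl)) hK
      _ = ((p : ℝ)⁻¹) ^ (p ^ j * (e - 1)) := by
          rw [Finset.prod_const, hcard, ← pow_mul]
      _ ≤ ((p : ℝ)⁻¹) ^ ((p ^ j - 1) * e) := by
          apply pow_le_pow_of_le_one hp0 hp1
          obtain ⟨K, hKe⟩ : ∃ K, p ^ j = K + 1 := ⟨p ^ j - 1, by omega⟩
          obtain ⟨e₁, rfl⟩ : ∃ e₁, e = e₁ + 1 := ⟨e - 1, by omega⟩
          rw [hKe] at hK ⊢
          simp only [Nat.add_sub_cancel]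
          nlinarith
      _ = (((p : ℝ)⁻¹) ^ (p ^ j - 1)) ^ e := by rw [pow_mul]
  exact le_of_pow_le_pow_left₀ he.ne' (by positivity) h2

/-- Main inequality: multiplicities modulo `p` force a large Mahler measure. -/
theorem mult_mod [DecidableEq (AlgebraicClosure (ZMod p))] (f : ℤ[X]) (hf : f.Monic) (j : ℕ)
    (hdist : ((f.map (algebraMap ℤ ℂ)).roots.map (· ^ (p ^ j))).Nodup) :
    (p : ℝ) ^ ((p ^ j - 1) * Multiset.card
        ((f.map (algebraMap ℤ (AlgebraicClosure (ZMod p)))).roots.filter fun r =>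
          p ^ j ≤ (f.map (algebraMap ℤ (AlgebraicClosure (ZMod p)))).roots.count r)) ≤
      (f.natDegree : ℝ) ^ f.natDegree *
        (f.map (algebraMap ℤ ℂ)).mahlerMeasure ^ (2 * p ^ j * (f.natDegree - 1)) := by
  classical
  set fb := f.map (Int.castRingHom (ZMod p)) with hfb
  obtain ⟨α, hα1, hα2⟩ := exists_roots_OO p f hf
  obtain ⟨β, hβmap, hβ⟩ := exists_roots f hf
  obtain ⟨z, hz⟩ := vandermonde_int f.natDegree (p ^ j) f
  have hzC := hz ℂ β hβ
  have hzP := hz (PadicAlgCl p) (fun i => (α i : PadicAlgCl p)) hα1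
  -- the residues
  have hmapk : fb.map (algebraMap (ZMod p) (kk p)) =
      ((univ.val.map fun i => IsLocalRing.residue (OO p) (α i)).map fun t => X - C t).prod := by
    have h1 := congrArg (Polynomial.map (IsLocalRing.residue (OO p))) hα2
    rw [Polynomial.map_map, Polynomial.map_multiset_prod, Multiset.map_map, Multiset.map_map] at h1
    have h2 : (IsLocalRing.residue (OO p)).comp (algebraMap ℤ (OO p)) =
        (algebraMap (ZMod p) (kk p)).comp (Int.castRingHom (ZMod p)) := RingHom.ext_int _ _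
    rw [h2, ← Polynomial.map_map] at h1
    rw [hfb, h1, Multiset.map_map]
    congr 1
    apply Multiset.map_congr rfl
    intro i _
    simp only [Function.comp, Polynomial.map_sub, map_X, map_C]
  have hrootsk : (fb.map (algebraMap (ZMod p) (kk p))).roots =
      univ.val.map fun i => IsLocalRing.residue (OO p) (α i) := by
    rw [hmapk, roots_multiset_prod_X_sub_C]
  have hsplitk : (fb.map (algebraMap (ZMod p) (kk p))).Splits := by
    rw [hmapk]
    apply Splits.multisetProd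
    intro g hg
    rw [Multiset.mem_map] at hg
    obtain ⟨t, _, rfl⟩ := hg
    exact Splits.X_sub_C t
  set cls : Fin f.natDegree → Finset (Fin f.natDegree) := fun i =>
    univ.filter fun l => IsLocalRing.residue (OO p) (α i) = IsLocalRing.residue (OO p) (α l)
    with hcls
  have hcount : ∀ i, (fb.map (algebraMap (ZMod p) (kk p))).roots.count
      (IsLocalRing.residue (OO p) (α i)) = #(cls i) := by
    intro i
    rw [hrootsk, Multiset.count_map]
    rfl
  have hroot : ∀ i, aeval (α i) f = 0 := by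
    intro i
    rw [← eval_map_algebraMap, hα2, eval_multiset_prod, Multiset.map_map, Multiset.map_map]
    apply Multiset.prod_eq_zero
    rw [Multiset.mem_map]
    exact ⟨i, by simp, by simp⟩
  -- count
  have hs : Multiset.card
        ((f.map (algebraMap ℤ (AlgebraicClosure (ZMod p)))).roots.filter fun r =>
          p ^ j ≤ (f.map (algebraMap ℤ (AlgebraicClosure (ZMod p)))).roots.count r) =
      #(univ.filter fun i => p ^ j ≤ #(cls i)) := by
    have h1 : f.map (algebraMap ℤ (AlgebraicClosure (ZMod p))) =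
        fb.map (algebraMap (ZMod p) (AlgebraicClosure (ZMod p))) := by
      rw [hfb, Polynomial.map_map]
      congr 1
    rw [h1, card_filter_roots_eq fb (L₂ := kk p) (IsAlgClosed.splits _) hsplitk]
    have h2 : (fb.map (algebraMap (ZMod p) (kk p))).roots.filter (fun r =>
          p ^ j ≤ (fb.map (algebraMap (ZMod p) (kk p))).roots.count r) =
        (univ.val.filter fun i => p ^ j ≤ #(cls i)).map
          fun i => IsLocalRing.residue (OO p) (α i) := by
      conv_lhs => rw [hrootsk]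
      rw [Multiset.filter_map]
      congr 1
      apply Multiset.filter_congr
      intro i _
      simp only [Function.comp]
      rw [← hcount i, hrootsk]
    rw [h2, Multiset.card_map]
    rfl
  -- local estimates
  set T : Finset (Fin f.natDegree) := univ.filter fun i => p ^ j ≤ #(cls i) with hT
  have hp0 : (0 : ℝ) ≤ (p : ℝ)⁻¹ := by positivity
  have hlocal : ∀ i ∈ T, ∏ l ∈ univ.erase i,
      ‖(α i : PadicAlgCl p) ^ p ^ j - (α l : PadicAlgCl p) ^ p ^ j‖ ≤
      ((p : ℝ)⁻¹) ^ (p ^ j - 1) := by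
    intro i hi
    apply local_prod p α i j (#(cls i)) (cls i)
    · simp [hcls]
    · rfl
    · exact (Finset.mem_filter.1 hi).2
    · intro l hl
      exact close_roots p f hf (α i) (α l) (hroot i) (hroot l) (Finset.mem_filter.1 hl).2 _
        (hcount i).le
  have hle1 : ∀ i, ∏ l ∈ univ.erase i,
      ‖(α i : PadicAlgCl p) ^ p ^ j - (α l : PadicAlgCl p) ^ p ^ j‖ ≤ 1 := by
    intro i
    apply Finset.prod_le_one (fun l _ => norm_nonneg _)
    intro l _
    have : (α i : PadicAlgCl p) ^ p ^ j - (α l : PadicAlgCl p) ^ p ^ j =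
        ((α i ^ p ^ j - α l ^ p ^ j : OO p) : PadicAlgCl p) := by push_cast; rfl
    rw [this]
    exact norm_le_one p _
  have hzp : ‖(z : ℚ_[p])‖ ≤ (p : ℝ) ^ (-(((p ^ j - 1) * #T : ℕ) : ℤ)) := by
    have h1 : ‖(z : PadicAlgCl p)‖ = ‖(z : ℚ_[p])‖ := by
      rw [← PadicAlgCl.norm_extends p (z : ℚ_[p])]
      congr 1
    rw [← h1, ← hzP, norm_pow, norm_vandermonde_sq]
    have h2 : (p : ℝ) ^ (-(((p ^ j - 1) * #T : ℕ) : ℤ)) =
        ∏ _i ∈ T, ((p : ℝ)⁻¹) ^ (p ^ j - 1) := by
      rw [Finset.prod_const, ← pow_mul, zpow_neg, zpow_natCast, inv_pow]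
    rw [h2, ← Finset.prod_sdiff (Finset.subset_univ T)]
    calc (∏ i ∈ univ \ T, ∏ l ∈ univ.erase i,
          ‖(α i : PadicAlgCl p) ^ p ^ j - (α l : PadicAlgCl p) ^ p ^ j‖) *
        ∏ i ∈ T, ∏ l ∈ univ.erase i,
          ‖(α i : PadicAlgCl p) ^ p ^ j - (α l : PadicAlgCl p) ^ p ^ j‖
        ≤ 1 * ∏ i ∈ T, ∏ l ∈ univ.erase i,
          ‖(α i : PadicAlgCl p) ^ p ^ j - (α l : PadicAlgCl p) ^ p ^ j‖ := by
          apply mul_le_mul_of_nonneg_right
          · exact Finset.prod_le_one (fun i _ => Finset.prod_nonneg fun l _ => norm_nonneg _)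
              fun i _ => hle1 i
          · exact Finset.prod_nonneg fun i _ => Finset.prod_nonneg fun l _ => norm_nonneg _
      _ ≤ ∏ _i ∈ T, ((p : ℝ)⁻¹) ^ (p ^ j - 1) := by
          rw [one_mul]
          exact Finset.prod_le_prod (fun i _ => Finset.prod_nonneg fun l _ => norm_nonneg _) hlocal
  have hdvd : ((p : ℤ) ^ ((p ^ j - 1) * #T)) ∣ z := (Padic.norm_int_le_pow_iff_dvd z _).1 hzp
  -- z ≠ 0
  have hinj := injective_pow f (p ^ j) β hβmap hdist
  have hz0 : z ≠ 0 := by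
    rintro rfl
    have h1 : (Matrix.vandermonde fun i => β i ^ p ^ j).det ≠ 0 :=
      Matrix.det_vandermonde_ne_zero_iff.2 hinj
    rw [Int.cast_zero] at hzC
    exact h1 (pow_eq_zero_iff (two_ne_zero) |>.1 hzC)
  have habs : ((p : ℤ) ^ ((p ^ j - 1) * #T)) ≤ |z| :=
    Int.le_of_dvd (abs_pos.2 hz0) ((dvd_abs _ _).2 hdvd)
  rw [hs]
  calc (p : ℝ) ^ ((p ^ j - 1) * #T) ≤ |(z : ℝ)| := by exact_mod_cast habs
    _ = ‖(z : ℂ)‖ := by rw [Complex.norm_intCast]
    _ = ‖(Matrix.vandermonde fun i => β i ^ p ^ j).det‖ ^ 2 := by rw [← hzC, norm_pow]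
    _ ≤ (f.natDegree : ℝ) ^ f.natDegree * (∏ i, max 1 ‖β i ^ p ^ j‖) ^ (2 * (f.natDegree - 1)) :=
        vandermonde_le _
    _ = _ := by
        rw [prod_max_eq f hf (p ^ j) β hβmap, ← pow_mul]
        congr 2
        ring

end Padic

end Pool.Agent.Lib.MP_7ab245_nt.Energy
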