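import Mathlib
import Pool.Agent.Lib.MP_7ab245_nt.MultMod

set_option autoImplicit false

namespace Pool.Agent.Results.MP_7ab245_nt.MultiplicityModP

open Polynomial

/-- Let `p` be a prime, `K = p ^ j`, and `f` a monic integer polynomial of degree `n ≥ 1` whose
complex roots have pairwise distinct `K`-th powers. If at least `ε n` of the `n` roots of
`f mod p` in an algebraic closure of `𝔽_p` (counted with multiplicity) have multiplicity at least
`K`, and `1 + log_p n / ε ≤ δ K` with `0 < δ < 1`, then `M(f) ≥ p ^ ((1 - δ) ε / 2)`. -/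
theorem result (p : ℕ) [hp : Fact p.Prime] (j : ℕ) (f : ℤ[X]) (hf : f.Monic)
    (hn : 0 < f.natDegree)
    (hdist : ((f.map (algebraMap ℤ ℂ)).roots.map (· ^ (p ^ j))).Nodup)
    (ε δ : ℝ) (hε : 0 < ε) (hδ0 : 0 < δ) (hδ : δ < 1)
    (hs : ε * f.natDegree ≤ (Multiset.card
      ((f.map (algebraMap ℤ (AlgebraicClosure (ZMod p)))).roots.filter fun r =>
        p ^ j ≤ rootMultiplicity r (f.map (algebraMap ℤ (AlgebraicClosure (ZMod p))))) : ℝ))
    (hlog : 1 + Real.logb p f.natDegree / ε ≤ δ * (p : ℝ) ^ j) :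
    (p : ℝ) ^ ((1 - δ) * ε / 2) ≤ (f.map (algebraMap ℤ ℂ)).mahlerMeasure := by
  classical
  have hE := Pool.Agent.Lib.MP_7ab245_nt.Energy.mult_mod p f hf j hdist
  simp only [count_roots] at hE
  set s := Multiset.card
      ((f.map (algebraMap ℤ (AlgebraicClosure (ZMod p)))).roots.filter fun r =>
        p ^ j ≤ rootMultiplicity r (f.map (algebraMap ℤ (AlgebraicClosure (ZMod p))))) with hsdef
  set M := (f.map (algebraMap ℤ ℂ)).mahlerMeasure with hMdef
  set n := f.natDegree with hndef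
  have hM : 1 ≤ M := by
    apply one_le_mahlerMeasure_of_one_le_norm_leadingCoeff
    rw [(hf.map (algebraMap ℤ ℂ)).leadingCoeff, norm_one]
  have hp1 : (1 : ℝ) < p := by exact_mod_cast hp.out.one_lt
  have hn0 : (0 : ℝ) < n := by exact_mod_cast hn
  have hn1 : (1 : ℝ) ≤ n := by exact_mod_cast hn
  have hM0 : 0 < M := by linarith
  set L := Real.logb p n with hL
  set x := Real.logb p M with hx
  have hL0 : 0 ≤ L := Real.logb_nonneg hp1 hn1
  have hx0 : 0 ≤ x := Real.logb_nonneg hp1 hM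
  have hK1 : 1 ≤ p ^ j := Nat.one_le_pow _ _ hp.out.pos
  have hK1' : (1 : ℝ) ≤ (p : ℝ) ^ j := by exact_mod_cast hK1
  have h1 : (((p ^ j - 1) * s : ℕ) : ℝ) ≤ n * L + (2 * p ^ j * (n - 1) : ℕ) * x := by
    have h := Real.logb_le_logb_of_le hp1 (by positivity) hE
    rw [Real.logb_mul (by positivity) (by positivity), Real.logb_pow, Real.logb_pow,
      Real.logb_pow, Real.logb_self_eq_one hp1, mul_one] at h
    exact h
  have h2 : ((2 * p ^ j * (n - 1) : ℕ) : ℝ) * x ≤ 2 * (p : ℝ) ^ j * n * x := by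
    apply mul_le_mul_of_nonneg_right _ hx0
    have : 2 * p ^ j * (n - 1) ≤ 2 * p ^ j * n := Nat.mul_le_mul_left _ (Nat.sub_le _ _)
    exact_mod_cast this
  have h3 : ((p : ℝ) ^ j - 1) * s ≤ n * L + 2 * (p : ℝ) ^ j * n * x := by
    have : (((p ^ j - 1) * s : ℕ) : ℝ) = ((p : ℝ) ^ j - 1) * s := by
      rw [Nat.cast_mul, Nat.cast_sub hK1]
      push_cast
      ring
    rw [← this]
    linarith
  have h4 : ((p : ℝ) ^ j - 1) * ε ≤ L + 2 * (p : ℝ) ^ j * x := by
    have h5 : n * (((p : ℝ) ^ j - 1) * ε) ≤ n * (L + 2 * (p : ℝ) ^ j * x) := by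
      calc n * (((p : ℝ) ^ j - 1) * ε) = ((p : ℝ) ^ j - 1) * (ε * n) := by ring
        _ ≤ ((p : ℝ) ^ j - 1) * s := mul_le_mul_of_nonneg_left hs (by linarith)
        _ ≤ n * L + 2 * (p : ℝ) ^ j * n * x := h3
        _ = n * (L + 2 * (p : ℝ) ^ j * x) := by ring
    exact le_of_mul_le_mul_left h5 hn0
  have h5 : ε + L ≤ δ * (p : ℝ) ^ j * ε := by
    have h6 := mul_le_mul_of_nonneg_right hlog hε.le
    have h7 : (1 + L / ε) * ε = ε + L := by field_simp
    rw [h7] at h6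
    exact h6
  have h6 : (1 - δ) * ε / 2 ≤ x := by
    have h7 : (p : ℝ) ^ j * ((1 - δ) * ε) ≤ (p : ℝ) ^ j * (2 * x) := by nlinarith
    have h8 := le_of_mul_le_mul_left h7 (by positivity)
    linarith
  calc (p : ℝ) ^ ((1 - δ) * ε / 2) ≤ (p : ℝ) ^ x :=
        Real.rpow_le_rpow_of_exponent_le hp1.le h6
    _ = M := Real.rpow_logb (by linarith) hp1.ne' hM0

end Pool.Agent.Results.MP_7ab245_nt.MultiplicityModP
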